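import Pool.Agent.Work.MP_c5a777_ag.Sev.Coef

/-!
# Statements for the order seven class: residues, norms, matrices
-/

namespace Pool.Agent.Work.MP_c5a777_ag.Sev

/-- The tame symbol of `a, b` at the discrete valuation ring `A` is a seventh power in the
residue field: writing `a = u π ^ m` and `b = w π ^ n` with `u, w` units and `π` a
uniformizer, the residue class of `(-1) ^ (m n) u ^ n w ^ (-m)` is a seventh power. -/
def TameSeventh {L : Type*} [Field L] (A : ValuationSubring L) (a b : L) : Prop :=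
  ∀ (π : A) (u w : Aˣ) (m n : ℤ), Irreducible π →
    a = ((u : A) : L) * ((π : A) : L) ^ m → b = ((w : A) : L) * ((π : A) : L) ^ n →
    ∃ r : IsLocalRing.ResidueField A,
      r ^ 7 = (-1) ^ (m * n) * (IsLocalRing.residue A (u : A)) ^ n *
        (IsLocalRing.residue A (w : A)) ^ (-m)

/-! ### Parameters of the family -/

section

variable {R : Type*} [CommRing R]

/-- `w = X Y` for `X ^ 7 = c ^ 7 u ^ 4 (1 + u) ^ 7` and `Y ^ 7 = c ^ 7 u ^ 3 r ^ 7`. -/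
def wf (c u r : R) : R := c ^ 2 * u * (1 + u) * r

/-- `S = X ^ 7 + Y ^ 7`. -/
def Sf (c u r : R) : R := c ^ 7 * (u ^ 4 * (1 + u) ^ 7 + u ^ 3 * r ^ 7)

/-- The curve of the family, with `A = u`. -/
def Wu (h c u r x y : R) : R := We h u (wf c u r) (Sf c u r) x y

/-- The function of the family. -/
def fu (h c u r x y : R) : R := ff h u (wf c u r) (Sf c u r) x y

/-- The constant in `e14`. -/
def kap (h : R) : R := 4992 + 7168 * h - 8960 * h ^ 2

end

/-! ### Elementary facts about `h` -/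

/-- Over any commutative ring, `h = z + z⁶` satisfies the relation when `z` is a root of the
seventh cyclotomic polynomial. -/
def StRelZ : Prop := ∀ (R : Type) [CommRing R] (z : R),
  z ^ 6 + z ^ 5 + z ^ 4 + z ^ 3 + z ^ 2 + z + 1 = 0 → Rel (z + z ^ 6)

/-- Nonvanishing of constants in characteristic zero. -/
def StConst : Prop := ∀ (k : Type) [Field k] [CharZero k] (h : k), Rel h →
  kap h ≠ 0 ∧ h ≠ 0 ∧ h ^ 2 - 1 ≠ 0 ∧ 4 * h ^ 2 - 4 * h ≠ 0 ∧ 4 * h ^ 2 - 4 * h - 4 ≠ 0 ∧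
    4 - h ^ 2 ≠ 0

/-! ### The two regimes of the function -/

/-- Near the origin of the curve the function is a seventh power times a one-unit. -/
def StPole : Prop := ∀ (K Γ : Type) [Field K] [LinearOrderedCommGroupWithZero Γ]
  (v : Valuation K Γ) (h A w S x y : K), v h ≤ 1 → v A ≤ 1 → v w ≤ 1 → v S ≤ 1 →
  We h A w S x y = 0 → 1 < v x → y ≠ 0 ∧ v (ff h A w S x y / (y / x) ^ 7 - 1) < 1

/-- Near the cusp the function is close to the constant `kap h`. -/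
def StCusp : Prop := ∀ (K Γ : Type) [Field K] [LinearOrderedCommGroupWithZero Γ]
  (v : Valuation K Γ) (h A w S x y : K), v h ≤ 1 → v A < 1 → v w < 1 → v (S - 1) < 1 →
  We h A w S x y = 0 → v x < 1 → v (ff h A w S x y - kap h) < 1

/-- Integrality of the second coordinate and of the function. -/
def StInt : Prop := ∀ (K Γ : Type) [Field K] [LinearOrderedCommGroupWithZero Γ]
  (v : Valuation K Γ) (h A w S x y : K), v h ≤ 1 → v A ≤ 1 → v w ≤ 1 → v S ≤ 1 →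
  We h A w S x y = 0 → v x ≤ 1 → v y ≤ 1 ∧ v (ff h A w S x y) ≤ 1

/-- Homogeneity. -/
def StHom : Prop := ∀ (R : Type) [CommRing R] (h l A w S x y : R),
  We h (l * A) (l ^ 2 * w) (l ^ 7 * S) (l ^ 4 * x) (l ^ 6 * y) = l ^ 12 * We h A w S x y ∧
  ff h (l * A) (l ^ 2 * w) (l ^ 7 * S) (l ^ 4 * x) (l ^ 6 * y) = l ^ 14 * ff h A w S x y

/-- The scaled form of `StPole`. -/
def StPoleL : Prop := ∀ (K Γ : Type) [Field K] [LinearOrderedCommGroupWithZero Γ]
  (v : Valuation K Γ) (h l A w S x y : K), l ≠ 0 → v h ≤ 1 → v A ≤ v l → v w ≤ v l ^ 2 →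
  v S ≤ v l ^ 7 → We h A w S x y = 0 → v l ^ 4 < v x →
  y ≠ 0 ∧ v (ff h A w S x y / (y / x) ^ 7 - 1) < 1

/-- The scaled form of `StCusp`. -/
def StCuspL : Prop := ∀ (K Γ : Type) [Field K] [LinearOrderedCommGroupWithZero Γ]
  (v : Valuation K Γ) (h l A w S x y : K), l ≠ 0 → v h ≤ 1 → v (kap h) = 1 → v A < v l →
  v w < v l ^ 2 → v (S - l ^ 7) < v l ^ 7 → We h A w S x y = 0 → v x < v l ^ 4 →
  v (ff h A w S x y / (kap h * l ^ 14) - 1) < 1

/-! ### The norm formula -/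

/-- The product of the function and its conjugate, over any field containing `ℂ`. -/
def StNormF : Prop := ∀ (K : Type) [Field K] [Algebra ℂ K] (ζ : ℂ), IsPrimitiveRoot ζ 7 →
  ∀ (h z A X Y x y : K), z = algebraMap ℂ K ζ → h = z + z ^ 6 →
  We h A (X * Y) (X ^ 7 + Y ^ 7) x y = 0 →
  ff h A (X * Y) (X ^ 7 + Y ^ 7) x y *
    ff h A (X * Y) (X ^ 7 + Y ^ 7) x (-y - a1 h A (X * Y) * x - a3 h A (X * Y)) =
  ∏ i ∈ Finset.range 7, (xQ h A (z ^ i * X) (z ^ (6 * i) * Y) - x)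

/-- Comparison of components. -/
def StComp : Prop := ∀ (k M : Type) [Field k] [Field M] [CharZero k] [Algebra k M] (h : k),
  Rel h → ∀ a : k, a ≠ 0 → (∀ b : k, b ^ 7 ≠ a) → ∀ t : M, t ^ 7 = algebraMap k M a →
  ∀ A α β x : k, algebraMap k M x = xQ (algebraMap k M h) (algebraMap k M A)
    (t ^ 4 * algebraMap k M α) (t ^ 3 * algebraMap k M β) → α = 0 ∧ β = 0

/-- Extension of valuation rings. -/
def StExtend : Prop := ∀ (L M : Type) [Field L] [Field M] [Algebra L M]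
  (A : ValuationSubring L), ∃ B : ValuationSubring M, B.comap (algebraMap L M) = A

/-! ### Residues of the class -/

/-- The three forms in which the residue is trivial. -/
def StForms : Prop := ∀ (L : Type) [Field L] [Algebra ℂ L] (A : ValuationSubring L),
  (∀ z : ℂ, algebraMap ℂ L z ∈ A) → IsDiscreteValuationRing A → ∀ u f : L, u ≠ 0 → f ≠ 0 →
  ((∃ (g : L) (k : ℕ) (κ : ℂ), κ ≠ 0 ∧ g ≠ 0 ∧
      A.valuation (f / (algebraMap ℂ L κ * u ^ k * g ^ 7) - 1) < 1) → TameSeventh A u f) ∧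
  ((∃ p a b : L, p ≠ 0 ∧ u = a * p ^ 7 ∧ A.valuation a = 1 ∧ A.valuation (a - b ^ 7) < 1) →
    TameSeventh A u f) ∧
  ((∃ p a g b : L, p ≠ 0 ∧ g ≠ 0 ∧ u = a * p ^ 7 ∧ f = b * g ^ 7 ∧ A.valuation a = 1 ∧
      A.valuation b = 1) → TameSeventh A u f)

/-- The case where the value of `u` is not a seventh power. -/
def StRam : Prop := ∀ (L : Type) [Field L] [Algebra ℂ L] (A : ValuationSubring L),
  (∀ z : ℂ, algebraMap ℂ L z ∈ A) → ∀ (h0 c0 : ℂ), Rel h0 → c0 ≠ 0 → ∀ h c : L,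
  h = algebraMap ℂ L h0 → c = algebraMap ℂ L c0 → ∀ u r x y : L, u ≠ 0 →
  (∀ g : L, A.valuation u ≠ A.valuation g ^ 7) → Wu h c u r x y = 0 →
  ∃ (g : L) (k : ℕ) (κ : ℂ), κ ≠ 0 ∧ g ≠ 0 ∧
    A.valuation (fu h c u r x y / (algebraMap ℂ L κ * u ^ k * g ^ 7) - 1) < 1

/-- The case where the value of `u` is a seventh power but its class is not. -/
def StInert : Prop := ∀ (L : Type) [Field L] [Algebra ℂ L] (A : ValuationSubring L),
  (∀ z : ℂ, algebraMap ℂ L z ∈ A) → ∀ (ζ c0 : ℂ), IsPrimitiveRoot ζ 7 → c0 ≠ 0 →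
  ∀ h c : L, h = algebraMap ℂ L (ζ + ζ ^ 6) → c = algebraMap ℂ L c0 →
  ∀ u r x y p a : L, p ≠ 0 → u = a * p ^ 7 → A.valuation a = 1 →
  (∀ b : L, ¬ A.valuation (a - b ^ 7) < 1) → Wu h c u r x y = 0 →
  ∃ g : L, g ≠ 0 ∧ A.valuation (fu h c u r x y / g ^ 7) = 1

/-- The class is unramified. -/
def StUnram : Prop := ∀ (L : Type) [Field L] [Algebra ℂ L] (A : ValuationSubring L),
  (∀ z : ℂ, algebraMap ℂ L z ∈ A) → IsDiscreteValuationRing A →
  ∀ (ζ c0 : ℂ), IsPrimitiveRoot ζ 7 → c0 ≠ 0 →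
  ∀ h c : L, h = algebraMap ℂ L (ζ + ζ ^ 6) → c = algebraMap ℂ L c0 →
  ∀ u r x y : L, u ≠ 0 → Wu h c u r x y = 0 → fu h c u r x y ≠ 0 →
  TameSeventh A u (fu h c u r x y)

/-! ### Norms and matrices -/

/-- If the cyclic algebra `(a, b)` of degree seven is split, then `b` is a norm. -/
def StMat : Prop := ∀ (L F : Type) [Field L] [Field F] [Algebra L F] (w : L),
  IsPrimitiveRoot w 7 → ∀ a b : L, a ≠ 0 → b ≠ 0 → ∀ p : F, p ^ 7 = algebraMap L F a →
  ∀ σ : F ≃ₐ[L] F, σ p = algebraMap L F w * p → (∀ z, σ^[7] z = z) →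
  ∀ U V : Matrix (Fin 7) (Fin 7) L, U ^ 7 = Matrix.scalar (Fin 7) a →
  V ^ 7 = Matrix.scalar (Fin 7) b → V * U = w • (U * V) →
  ∃ γ : F, algebraMap L F b = ∏ i ∈ Finset.range 7, σ^[i] γ

/-- A reduction criterion for an element not to be a norm of degree seven. -/
def StNoNorm : Prop := ∀ (O T Ω F : Type) [CommRing O] [IsDomain O] [ValuationRing O]
  [CommRing T] [Algebra O T] [Module.Free O T] [CommRing Ω] [IsDomain Ω] [Field F]
  (θ : T →+* Ω),
  (∀ z, θ z = 0 → z ∈ (IsLocalRing.maximalIdeal O).map (algebraMap O T)) →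
  ∀ (σ : T →+* T), (∀ a : O, σ (algebraMap O T a) = algebraMap O T a) → ∀ τ : Ω →+* Ω,
  (∀ z, θ (σ z) = τ (θ z)) → Function.Injective τ →
  ∀ ord : Ω → ℕ, (∀ a b, a ≠ 0 → b ≠ 0 → ord (a * b) = ord a + ord b) →
  (∀ a, ord (τ a) = ord a) → ∀ ι : T →+* F, Function.Injective ι → ∀ s : F →+* F,
  (∀ z, ι (σ z) = s (ι z)) → ∀ f : T, θ f ≠ 0 → ¬ 7 ∣ ord (θ f) →
  ∀ z1 z2 : T, z1 ≠ 0 → z2 ≠ 0 → ∀ γ : F, γ = ι z1 / ι z2 →
  ∏ i ∈ Finset.range 7, s^[i] γ ≠ ι f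

/-- A valuation ring of `ℂ` above five. -/
def StVal5 : Prop := ∃ O : ValuationSubring ℂ, O.valuation (5 : ℂ) < 1

end Pool.Agent.Work.MP_c5a777_ag.Sev
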