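import Pool.Agent.Work.MP_c5a777_ag.Sev.Quart

/-!
# The discriminant of the cubic is the quartic
-/

namespace Pool.Agent.Work.MP_c5a777_ag.Sev

variable {R : Type*} [CommRing R]

theorem disc_aux (h A t v w rho : R) (hh : Rel h)
    (hw : v ^ 2 - h * t * v + t ^ 2 - (4 - h ^ 2) * w = 0) (T0 T3 T4 T5 T6 r : R)
    (h0 : T0 = h * t - v) (h3 : T3 = h * v - t) (h4 : T4 = (h ^ 2 - 1) * v - h * t)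
    (h5 : T5 = (1 - h ^ 2) * t + (1 - h ^ 2) * v) (h6 : T6 = (h ^ 2 - 1) * t - h * v)
    (hr : r = rho - (T5 - T4)) :
    (f12 A T3 T6 * r ^ 2 + 2 * f11 A T0 t v T3 T4 T5 T6 * r + 4 * f10 A T0 t v T3 T4 T5) ^ 2 -
      8 * (f21 A v T6 * r + 2 * f20 A v T4 T5) * (f02 A T0 t T3 T6 * r ^ 2 +
        2 * f01 A T0 t T3 T4 T5 T6 * r + 4 * f00 A T0 t T3 T4 T5) =
    Gq h A t w rho := by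
  unfold Rel at hh
  subst hr h0 h3 h4 h5 h6
  unfold f12 f11 f10 f21 f20 f02 f01 f00 Gq qb q3 q2 q1 q0
  linear_combination (
    h^9*t^6 + 8*h^9*t^5*v + 20*h^9*t^4*v^2 + 16*h^9*t^3*v^3 + 4*h^9*t^2*v^4 - 9*h^8*t^6 -
    56*h^8*t^5*v - 112*h^8*t^4*v^2 - 96*h^8*t^3*v^3 - 28*h^8*t^2*v^4 + 2*h^7*A*t^5 + 24*h^7*A*t^4*v
    + 76*h^7*A*t^3*v^2 + 64*h^7*A*t^2*v^3 + 16*h^7*A*t*v^4 + 29*h^7*t^6 + 128*h^7*t^5*v +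
    192*h^7*t^4*v^2 - 8*h^7*t^4*v*rho + 144*h^7*t^3*v^3 - 36*h^7*t^3*v^2*rho + 48*h^7*t^2*v^4 -
    32*h^7*t^2*v^3*rho - 8*h^7*t*v^4*rho - 22*h^6*A*t^5 - 168*h^6*A*t^4*v - 352*h^6*A*t^3*v^2 -
    320*h^6*A*t^2*v^3 - 96*h^6*A*t*v^4 - 34*h^6*t^6 - 64*h^6*t^5*v + 4*h^6*t^5*rho - 40*h^6*t^4*v^2
    + 64*h^6*t^4*v*rho - 96*h^6*t^3*v^3 + 164*h^6*t^3*v^2*rho - 172*h^6*t^2*v^4 +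
    160*h^6*t^2*v^3*rho - 64*h^6*t*v^5 + 48*h^6*t*v^4*rho - 3*h^5*A^2*t^4 + 64*h^5*A^2*t^2*v^2 +
    64*h^5*A^2*t*v^3 + 16*h^5*A^2*v^4 + 82*h^5*A*t^5 + 384*h^5*A*t^4*v + 4*h^5*A*t^4*rho +
    568*h^5*A*t^3*v^2 + 8*h^5*A*t^3*v*rho + 416*h^5*A*t^2*v^3 - 60*h^5*A*t^2*v^2*rho +
    144*h^5*A*t*v^4 - 64*h^5*A*t*v^3*rho - 16*h^5*A*v^4*rho - 14*h^5*t^6 - 116*h^5*t^5*v -
    24*h^5*t^5*rho + 4*h^5*t^4*v^2 - 152*h^5*t^4*v*rho - 2*h^5*t^4*rho^2 + 472*h^5*t^3*v^3 -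
    232*h^5*t^3*v^2*rho - 8*h^5*t^3*v*rho^2 + 668*h^5*t^2*v^4 - 192*h^5*t^2*v^3*rho +
    12*h^5*t^2*v^2*rho^2 + 384*h^5*t*v^5 - 72*h^5*t*v^4*rho + 16*h^5*t*v^3*rho^2 + 64*h^5*v^6 +
    4*h^5*v^4*rho^2 + 3*h^4*A^2*t^4 - 96*h^4*A^2*t^3*v - 240*h^4*A^2*t^2*v^2 - 256*h^4*A^2*t*v^3 -
    80*h^4*A^2*v^4 - 128*h^4*A*t^5 - 312*h^4*A*t^4*v - 12*h^4*A*t^4*rho - 232*h^4*A*t^3*v^2 +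
    64*h^4*A*t^3*v*rho + 220*h^4*A*t^2*v^2*rho + 256*h^4*A*t*v^3*rho + 80*h^4*A*v^4*rho + 55*h^4*t^6
    + 16*h^4*t^5*v + 44*h^4*t^5*rho - 556*h^4*t^4*v^2 + 80*h^4*t^4*v*rho + 10*h^4*t^4*rho^2 -
    1192*h^4*t^3*v^3 - 20*h^4*t^3*v^2*rho + 8*h^4*t^3*v*rho^2 - 1156*h^4*t^2*v^4 -
    112*h^4*t^2*v^3*rho - 40*h^4*t^2*v^2*rho^2 - 704*h^4*t*v^5 - 16*h^4*t*v^4*rho -
    64*h^4*t*v^3*rho^2 - 192*h^4*v^6 - 20*h^4*v^4*rho^2 - 4*h^3*A^3*t^3 - 32*h^3*A^3*t^2*v -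
    16*h^3*A^3*t*v^2 + 49*h^3*A^2*t^4 + 304*h^3*A^2*t^3*v + 464*h^3*A^2*t^2*v^2 +
    32*h^3*A^2*t^2*v*rho + 320*h^3*A^2*t*v^3 + 16*h^3*A^2*t*v^2*rho + 112*h^3*A^2*v^4 + 76*h^3*A*t^5
    + 100*h^3*A*t^4*v - 24*h^3*A*t^4*rho + 140*h^3*A*t^3*v^2 - 248*h^3*A*t^3*v*rho +
    64*h^3*A*t^2*v^3 - 368*h^3*A*t^2*v^2*rho - 24*h^3*A*t^2*v*rho^2 - 64*h^3*A*t*v^4 -
    288*h^3*A*t*v^3*rho - 12*h^3*A*t*v^2*rho^2 - 112*h^3*A*v^4*rho + 5*h^3*t^6 + 344*h^3*t^5*v -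
    8*h^3*t^5*rho + 1056*h^3*t^4*v^2 + 116*h^3*t^4*v*rho - 8*h^3*t^4*rho^2 + 1520*h^3*t^3*v^3 +
    224*h^3*t^3*v^2*rho + 40*h^3*t^3*v*rho^2 + 1304*h^3*t^2*v^4 + 224*h^3*t^2*v^3*rho +
    60*h^3*t^2*v^2*rho^2 + 8*h^3*t^2*v*rho^3 + 576*h^3*t*v^5 + 112*h^3*t*v^4*rho +
    64*h^3*t*v^3*rho^2 + 4*h^3*t*v^2*rho^3 + 128*h^3*v^6 + 28*h^3*v^4*rho^2 + 24*h^2*A^3*t^3 +
    32*h^2*A^3*t^2*v + 32*h^2*A^3*t*v^2 - 130*h^2*A^2*t^4 - 416*h^2*A^2*t^3*v - 12*h^2*A^2*t^3*rho -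
    560*h^2*A^2*t^2*v^2 - 320*h^2*A^2*t*v^3 - 16*h^2*A^2*t*v^2*rho - 64*h^2*A^2*v^4 - 74*h^2*A*t^5 -
    536*h^2*A*t^4*v + 92*h^2*A*t^4*rho - 1164*h^2*A*t^3*v^2 + 280*h^2*A*t^3*v*rho +
    12*h^2*A*t^3*rho^2 - 960*h^2*A*t^2*v^3 + 412*h^2*A*t^2*v^2*rho + 24*h^2*A*t^2*v*rho^2 -
    240*h^2*A*t*v^4 + 192*h^2*A*t*v^3*rho + 24*h^2*A*t*v^2*rho^2 + 32*h^2*A*v^4*rho - 85*h^2*t^6 -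
    528*h^2*t^5*v - 36*h^2*t^5*rho - 1440*h^2*t^4*v^2 - 28*h^2*t^4*v*rho - 18*h^2*t^4*rho^2 -
    2424*h^2*t^3*v^3 + 112*h^2*t^3*v^2*rho - 56*h^2*t^3*v*rho^2 - 4*h^2*t^3*rho^3 - 2180*h^2*t^2*v^4
    + 128*h^2*t^2*v^3*rho - 32*h^2*t^2*v^2*rho^2 - 16*h^2*t^2*v*rho^3 - 832*h^2*t*v^5 -
    24*h^2*t*v^4*rho + 16*h^2*t*v^3*rho^2 - 12*h^2*t*v^2*rho^3 - 64*h^2*v^6 + 4*h*A^4*t^2 -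
    16*h*A^3*t^3 - 12*h*A^3*t^2*rho + 16*h*A^3*t*v^2 - 32*h*A^3*t*v*rho + 16*h*A^3*t*w -
    16*h*A^3*v^2*rho + 48*h*A^3*w*rho + 146*h*A^2*t^4 + 512*h*A^2*t^3*v - 8*h*A^2*t^3*rho +
    912*h*A^2*t^2*v^2 - 64*h*A^2*t^2*v*rho - 352*h*A^2*t^2*w + 10*h*A^2*t^2*rho^2 + 672*h*A^2*t*v^3
    - 48*h*A^2*t*v^2*rho - 1200*h*A^2*t*v*w + 32*h*A^2*t*v*rho^2 + 32*h*A^2*t*w*rho + 176*h*A^2*v^4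
    - 672*h*A^2*v^2*w + 16*h*A^2*v^2*rho^2 - 512*h*A^2*w^2 - 48*h*A^2*w*rho^2 + 286*h*A*t^5 +
    1456*h*A*t^4*v - 72*h*A*t^4*rho + 2416*h*A*t^3*v^2 - 268*h*A*t^3*v*rho - 964*h*A*t^3*w -
    12*h*A*t^3*rho^2 + 1824*h*A*t^2*v^3 - 632*h*A*t^2*v^2*rho - 2640*h*A*t^2*v*w +
    24*h*A*t^2*v*rho^2 + 88*h*A*t^2*w*rho - 4*h*A*t^2*rho^3 + 560*h*A*t*v^4 - 512*h*A*t*v^3*rho -
    1456*h*A*t*v^2*w + 12*h*A*t*v^2*rho^2 + 944*h*A*t*v*w*rho - 8*h*A*t*v*rho^3 - 1072*h*A*t*w^2 -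
    12*h*A*t*w*rho^2 - 112*h*A*v^4*rho + 512*h*A*v^2*w*rho - 4*h*A*v^2*rho^3 + 352*h*A*w^2*rho +
    12*h*A*w*rho^3 + 95*h*t^6 + 736*h*t^5*v - 16*h*t^5*rho + 2688*h*t^4*v^2 - 256*h*t^4*v*rho -
    320*h*t^4*w + 22*h*t^4*rho^2 + 4880*h*t^3*v^3 - 496*h*t^3*v^2*rho - 1880*h*t^3*v*w -
    12*h*t^3*v*rho^2 + 100*h*t^3*w*rho + 8*h*t^3*rho^3 + 4572*h*t^2*v^4 - 432*h*t^2*v^3*rho -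
    5204*h*t^2*v^2*w - 4*h*t^2*v^2*rho^2 + 504*h*t^2*v*w*rho + 176*h*t^2*w^2 + 2112*h*t*v^5 -
    136*h*t*v^4*rho - 4608*h*t*v^3*w - 24*h*t*v^3*rho^2 + 280*h*t*v^2*w*rho + 4*h*t*v^2*rho^3 -
    1728*h*t*v*w^2 - 44*h*t*v*w*rho^2 + 232*h*t*w^2*rho + 8*h*t*w*rho^3 + 384*h*v^6 - 1280*h*v^4*w -
    20*h*v^4*rho^2 - 960*h*v^2*w^2 - 24*h*v^2*w*rho^2 - 704*h*w^3 - 16*h*w^2*rho^2 + 4*A^4*t^2 -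
    16*A^3*t^2*v + 20*A^3*t^2*rho + 16*A^3*t*v*rho - 48*A^3*t*w + 48*A^3*v^2*rho - 96*A^3*w*rho -
    201*A^2*t^4 - 640*A^2*t^3*v + 36*A^2*t^3*rho - 544*A^2*t^2*v^2 + 16*A^2*t^2*v*rho +
    640*A^2*t^2*w - 18*A^2*t^2*rho^2 - 704*A^2*t*v^3 + 48*A^2*t*v^2*rho + 2688*A^2*t*v*w -
    16*A^2*t*v*rho^2 - 64*A^2*t*w*rho - 384*A^2*v^4 + 1200*A^2*v^2*w - 48*A^2*v^2*rho^2 +
    896*A^2*w^2 + 80*A^2*w*rho^2 - 578*A*t^5 - 1532*A*t^4*v + 64*A*t^4*rho - 1392*A*t^3*v^2 +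
    476*A*t^3*v*rho + 1728*A*t^3*w - 12*A*t^3*rho^2 - 1488*A*t^2*v^3 + 304*A*t^2*v^2*rho +
    5824*A*t^2*v*w - 20*A*t^2*v*rho^2 - 152*A*t^2*w*rho + 4*A*t^2*rho^3 - 848*A*t*v^4 +
    576*A*t*v^3*rho + 2640*A*t*v^2*w - 32*A*t*v^2*rho^2 - 2048*A*t*v*w*rho + 4*A*t*v*rho^3 +
    1984*A*t*w^2 + 12*A*t*w*rho^2 + 320*A*v^4*rho - 944*A*v^2*w*rho + 12*A*v^2*rho^3 - 704*A*w^2*rho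
    - 16*A*w*rho^3 - 136*t^6 - 1028*t^5*v + 80*t^5*rho - 3100*t^4*v^2 + 320*t^4*v*rho + 576*t^4*w -
    6*t^4*rho^2 - 3708*t^3*v^3 + 256*t^3*v^2*rho + 3216*t^3*v*w + 8*t^3*v*rho^2 - 180*t^3*w*rho -
    3700*t^2*v^4 + 312*t^2*v^3*rho + 11096*t^2*v^2*w + 16*t^2*v^2*rho^2 - 1120*t^2*v*w*rho +
    8*t^2*v*rho^3 - 316*t^2*w^2 + 8*t^2*w*rho^2 - 2688*t*v^5 + 216*t*v^4*rho + 9280*t*v^3*w -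
    16*t*v^3*rho^2 - 504*t*v^2*w*rho + 8*t*v^2*rho^3 + 3840*t*v*w^2 + 96*t*v*w*rho^2 - 400*t*w^2*rho
    - 12*t*w*rho^3 - 768*v^6 + 2304*v^4*w + 1728*v^2*w^2 + 44*v^2*w*rho^2 + 1280*w^3 + 32*w^2*rho^2) * hh + (
    -16*h^2*A^3*t - 48*h^2*A^3*rho + 352*h^2*A^2*t^2 + 1200*h^2*A^2*t*v - 32*h^2*A^2*t*rho +
    672*h^2*A^2*v^2 + 512*h^2*A^2*w + 48*h^2*A^2*rho^2 + 964*h^2*A*t^3 + 2640*h^2*A*t^2*v -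
    88*h^2*A*t^2*rho + 1456*h^2*A*t*v^2 - 944*h^2*A*t*v*rho + 1072*h^2*A*t*w + 12*h^2*A*t*rho^2 -
    512*h^2*A*v^2*rho - 352*h^2*A*w*rho - 12*h^2*A*rho^3 + 320*h^2*t^4 + 1880*h^2*t^3*v -
    100*h^2*t^3*rho + 5204*h^2*t^2*v^2 - 504*h^2*t^2*v*rho - 176*h^2*t^2*w + 4608*h^2*t*v^3 -
    280*h^2*t*v^2*rho + 1728*h^2*t*v*w + 44*h^2*t*v*rho^2 - 232*h^2*t*w*rho - 8*h^2*t*rho^3 +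
    1280*h^2*v^4 + 960*h^2*v^2*w + 24*h^2*v^2*rho^2 + 704*h^2*w^2 + 16*h^2*w*rho^2 + 32*h*A^3*t +
    48*h*A^3*rho - 288*h*A^2*t^2 - 976*h*A^2*t*v + 32*h*A^2*t*rho - 528*h*A^2*v^2 - 384*h*A^2*w -
    32*h*A^2*rho^2 - 764*h*A*t^3 - 2112*h*A*t^2*v + 64*h*A*t^2*rho - 1184*h*A*t*v^2 +
    752*h*A*t*v*rho - 912*h*A*t*w + 432*h*A*v^2*rho + 352*h*A*w*rho + 4*h*A*rho^3 - 256*h*t^4 -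
    1512*h*t^3*v + 80*h*t^3*rho - 4164*h*t^2*v^2 + 384*h*t^2*v*rho + 140*h*t^2*w - 8*h*t^2*rho^2 -
    3712*h*t*v^3 + 224*h*t*v^2*rho - 1408*h*t*v*w - 36*h*t*v*rho^2 + 168*h*t*w*rho + 4*h*t*rho^3 -
    1024*h*v^4 - 768*h*v^2*w - 20*h*v^2*rho^2 - 576*h*w^2 - 16*h*w*rho^2 + 16*A^3*t + 32*A^3*rho -
    176*A^2*t^2 - 672*A^2*t*v + 16*A^2*t*rho - 368*A^2*v^2 - 272*A^2*w - 32*A^2*rho^2 - 548*A*t^3 -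
    1456*A*t^2*v + 28*A*t^2*rho - 800*A*t*v^2 + 512*A*t*v*rho - 560*A*t*w - 12*A*t*rho^2 +
    272*A*v^2*rho + 144*A*w*rho + 16*A*rho^3 - 176*t^4 - 1044*t^3*v + 56*t^3*rho - 2880*t^2*v^2 +
    280*t^2*v*rho + 88*t^2*w + 24*t^2*rho^2 - 2560*t*v^3 + 176*t*v^2*rho - 960*t*v*w - 24*t*v*rho^2
    + 200*t*w*rho + 8*t*rho^3 - 704*v^4 - 512*v^2*w - 12*v^2*rho^2 - 320*w^2 - 4*w*rho^2) * hw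

/-- The discriminant of the cubic is the quartic, for the corner areas of the family. -/
theorem disc_quartic (h A t v w r : R) (hh : Rel h)
    (hw : v ^ 2 - h * t * v + t ^ 2 - (4 - h ^ 2) * w = 0) (T0 T3 T4 T5 T6 : R)
    (h0 : T0 = h * t - v) (h3 : T3 = h * v - t) (h4 : T4 = (h ^ 2 - 1) * v - h * t)
    (h5 : T5 = (1 - h ^ 2) * t + (1 - h ^ 2) * v) (h6 : T6 = (h ^ 2 - 1) * t - h * v) :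
    16 * ((f12 A T3 T6 * r ^ 2 + f11 A T0 t v T3 T4 T5 T6 * r + f10 A T0 t v T3 T4 T5) ^ 2 -
      4 * (f21 A v T6 * r + f20 A v T4 T5) * (f02 A T0 t T3 T6 * r ^ 2 +
        f01 A T0 t T3 T4 T5 T6 * r + f00 A T0 t T3 T4 T5)) =
    Gq h A t w (2 * r + T5 - T4) := by
  have h := disc_aux h A t v w (2 * r + T5 - T4) hh hw T0 T3 T4 T5 T6 (2 * r) h0 h3 h4 h5 h6
    (by ring)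
  rw [← h]
  ring

end Pool.Agent.Work.MP_c5a777_ag.Sev
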