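import Pool.Agent.Work.MP_c5a777_ag.Sev.Bracket

/-!
# Heptagons given by Fourier coefficients
-/

namespace Pool.Agent.Work.MP_c5a777_ag.Sev

section

variable {K : Type*} [CommRing K]

/-- Six vectors. -/
structure V6 (K : Type*) where
  (a1 a2 a3 a4 a5 a6 b1 b2 b3 b4 b5 b6 : K)

/-- The point of the heptagon with parameter `κ`, a seventh root of one. -/
def zz (V : V6 K) (κ : K) : K × K :=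
  (κ * V.a1 + κ ^ 2 * V.a2 + κ ^ 3 * V.a3 + κ ^ 4 * V.a4 + κ ^ 5 * V.a5 + κ ^ 6 * V.a6,
    κ * V.b1 + κ ^ 2 * V.b2 + κ ^ 3 * V.b3 + κ ^ 4 * V.b4 + κ ^ 5 * V.b5 + κ ^ 6 * V.b6)

/-- `(ω^i - 1) (ω^j - 1) (ω^j - ω^i)`. -/
def tau (ω : K) (i j : ℕ) : K := (ω ^ i - 1) * (ω ^ j - 1) * (ω ^ j - ω ^ i)

theorem corner (V : V6 K) (ω κ : K) :
    br (zz V κ) (zz V (ω * κ)) (zz V (ω ^ 2 * κ)) =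
      κ ^ 3 * (tau ω 1 2 * (V.a1 * V.b2 - V.b1 * V.a2)) +
      κ ^ 4 * (tau ω 1 3 * (V.a1 * V.b3 - V.b1 * V.a3)) +
      κ ^ 5 * (tau ω 1 4 * (V.a1 * V.b4 - V.b1 * V.a4) +
        tau ω 2 3 * (V.a2 * V.b3 - V.b2 * V.a3)) +
      κ ^ 6 * (tau ω 1 5 * (V.a1 * V.b5 - V.b1 * V.a5) +
        tau ω 2 4 * (V.a2 * V.b4 - V.b2 * V.a4)) +
      κ ^ 7 * (tau ω 1 6 * (V.a1 * V.b6 - V.b1 * V.a6) +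
        tau ω 2 5 * (V.a2 * V.b5 - V.b2 * V.a5) + tau ω 3 4 * (V.a3 * V.b4 - V.b3 * V.a4)) +
      κ ^ 8 * (tau ω 2 6 * (V.a2 * V.b6 - V.b2 * V.a6) +
        tau ω 3 5 * (V.a3 * V.b5 - V.b3 * V.a5)) +
      κ ^ 9 * (tau ω 3 6 * (V.a3 * V.b6 - V.b3 * V.a6) +
        tau ω 4 5 * (V.a4 * V.b5 - V.b4 * V.a5)) +
      κ ^ 10 * (tau ω 4 6 * (V.a4 * V.b6 - V.b4 * V.a6)) +
      κ ^ 11 * (tau ω 5 6 * (V.a5 * V.b6 - V.b5 * V.a6)) := by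
  simp only [br, zz, tau]
  ring

theorem bracket13 (V : V6 K) (ω κ : K) :
    br (zz V κ) (zz V (ω * κ)) (zz V (ω ^ 3 * κ)) =
      κ ^ 3 * (tau ω 1 2 * (1 + ω + ω ^ 2) * (V.a1 * V.b2 - V.b1 * V.a2)) +
      κ ^ 4 * (tau ω 1 3 * (1 + ω + ω ^ 3) * (V.a1 * V.b3 - V.b1 * V.a3)) +
      κ ^ 5 * (tau ω 1 4 * (1 + ω + ω ^ 4) * (V.a1 * V.b4 - V.b1 * V.a4) +
        tau ω 2 3 * (1 + ω ^ 2 + ω ^ 3) * (V.a2 * V.b3 - V.b2 * V.a3)) +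
      κ ^ 6 * (tau ω 1 5 * (1 + ω + ω ^ 5) * (V.a1 * V.b5 - V.b1 * V.a5) +
        tau ω 2 4 * (1 + ω ^ 2 + ω ^ 4) * (V.a2 * V.b4 - V.b2 * V.a4)) +
      κ ^ 7 * (tau ω 1 6 * (1 + ω + ω ^ 6) * (V.a1 * V.b6 - V.b1 * V.a6) +
        tau ω 2 5 * (1 + ω ^ 2 + ω ^ 5) * (V.a2 * V.b5 - V.b2 * V.a5) +
        tau ω 3 4 * (1 + ω ^ 3 + ω ^ 4) * (V.a3 * V.b4 - V.b3 * V.a4)) +
      κ ^ 8 * (tau ω 2 6 * (1 + ω ^ 2 + ω ^ 6) * (V.a2 * V.b6 - V.b2 * V.a6) +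
        tau ω 3 5 * (1 + ω ^ 3 + ω ^ 5) * (V.a3 * V.b5 - V.b3 * V.a5)) +
      κ ^ 9 * (tau ω 3 6 * (1 + ω ^ 3 + ω ^ 6) * (V.a3 * V.b6 - V.b3 * V.a6) +
        tau ω 4 5 * (1 + ω ^ 4 + ω ^ 5) * (V.a4 * V.b5 - V.b4 * V.a5)) +
      κ ^ 10 * (tau ω 4 6 * (1 + ω ^ 4 + ω ^ 6) * (V.a4 * V.b6 - V.b4 * V.a6)) +
      κ ^ 11 * (tau ω 5 6 * (1 + ω ^ 5 + ω ^ 6) * (V.a5 * V.b6 - V.b5 * V.a6)) := by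
  simp only [br, zz, tau]
  ring

end

end Pool.Agent.Work.MP_c5a777_ag.Sev
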