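import Pool.Agent.Work.MP_c5a777_ag.Sev.StU
import Pool.Agent.Work.MP_c5a777_ag.Sev.Four
import Pool.Agent.Work.MP_c5a777_ag.Sev.Disc

/-!
# Statements for the order seven class: heptagons and the rational point
-/

namespace Pool.Agent.Work.MP_c5a777_ag.Sev

section

variable {K : Type*} [CommRing K]

/-! ### Minors of six vectors -/

def d12 (V : V6 K) : K := V.a1 * V.b2 - V.b1 * V.a2
def d13 (V : V6 K) : K := V.a1 * V.b3 - V.b1 * V.a3
def d14 (V : V6 K) : K := V.a1 * V.b4 - V.b1 * V.a4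
def d15 (V : V6 K) : K := V.a1 * V.b5 - V.b1 * V.a5
def d16 (V : V6 K) : K := V.a1 * V.b6 - V.b1 * V.a6
def d23 (V : V6 K) : K := V.a2 * V.b3 - V.b2 * V.a3
def d24 (V : V6 K) : K := V.a2 * V.b4 - V.b2 * V.a4
def d25 (V : V6 K) : K := V.a2 * V.b5 - V.b2 * V.a5
def d26 (V : V6 K) : K := V.a2 * V.b6 - V.b2 * V.a6
def d34 (V : V6 K) : K := V.a3 * V.b4 - V.b3 * V.a4
def d35 (V : V6 K) : K := V.a3 * V.b5 - V.b3 * V.a5
def d36 (V : V6 K) : K := V.a3 * V.b6 - V.b3 * V.a6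
def d45 (V : V6 K) : K := V.a4 * V.b5 - V.b4 * V.a5
def d46 (V : V6 K) : K := V.a4 * V.b6 - V.b4 * V.a6
def d56 (V : V6 K) : K := V.a5 * V.b6 - V.b5 * V.a6

/-- The five relations between minors. -/
structure Good (h : K) (V : V6 K) : Prop where
  r26 : d26 V = h * d35 V
  r15 : d15 V = h * d24 V
  r36 : (h ^ 2 - 1) * d36 V = h * d45 V
  r14 : (h ^ 2 - 1) * d14 V = h * d23 V
  r16 : h * d16 V - h ^ 2 * (h ^ 2 - 1) * d25 V - (h ^ 2 - 1) ^ 2 * d34 V = 0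

/-- The two Fourier coefficients of the corner areas and the total area. -/
def XV (z h : K) (V : V6 K) : K := (z ^ 6 - z) ^ 3 * h * (d12 V + (h ^ 2 - 1) * d46 V)
def YV (z h : K) (V : V6 K) : K := (z ^ 6 - z) ^ 3 * h * ((h ^ 2 - 1) * d13 V + d56 V)
def AV (z h : K) (V : V6 K) : K :=
  7 * (z ^ 6 - z) * (-h * d16 V + (h ^ 2 - 1) * d25 V + d34 V)

/-- The vertices of the heptagon. -/
def pk (V : V6 K) (z : K) (k : ℕ) : K × K := zz V ((z ^ 5) ^ (k + 5))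

/-- Corner areas. -/
def Tk (V : V6 K) (z : K) (k : ℕ) : K := br (pk V z k) (pk V z (k + 1)) (pk V z (k + 2))

/-- The other brackets. -/
def bk (V : V6 K) (z : K) (k : ℕ) : K := br (pk V z k) (pk V z (k + 1)) (pk V z (k + 3))

/-- The derivative of the cubic. -/
def sk (V : V6 K) (z h : K) (k : ℕ) : K :=
  FcP (AV z h V) (Tk V z (k + 3)) (Tk V z (k + 4)) (Tk V z (k + 5)) (Tk V z (k + 6))
    (Tk V z (k + 7)) (Tk V z (k + 8)) (Tk V z (k + 9)) (bk V z (k + 3)) (bk V z k)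

/-- The variable of the quartic. -/
def rk (V : V6 K) (z : K) (k : ℕ) : K := 2 * bk V z k + Tk V z (k + 1) - Tk V z k

/-- The product of the two Fourier coefficients. -/
def wV (z h : K) (V : V6 K) : K := XV z h V * YV z h V

/-- The sum of the seventh powers of the two Fourier coefficients. -/
def SV (z h : K) (V : V6 K) : K := XV z h V ^ 7 + YV z h V ^ 7

end

section

variable {K : Type*} [Field K]

/-- First coordinate of the point given by one bracket. -/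
def xk (V : V6 K) (z h : K) (k : ℕ) : K :=
  (18 * qb h (AV z h V) (Tk V z (k + 4)) ^ 2 * rk V z k ^ 2 -
    18 * qb h (AV z h V) (Tk V z (k + 4)) * (4 * sk V z h k) +
    9 * (2 * q3 h (AV z h V) (Tk V z (k + 4)) (wV z h V)) * rk V z k +
    3 * (2 * q2 h (AV z h V) (Tk V z (k + 4)) (wV z h V))) / 4

/-- Second coordinate of the point given by one bracket. -/
def yk (V : V6 K) (z h : K) (k : ℕ) : K :=
  27 * ((4 * qb h (AV z h V) (Tk V z (k + 4)) ^ 2 * rk V z k +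
      2 * q3 h (AV z h V) (Tk V z (k + 4)) (wV z h V)) * (4 * sk V z h k) -
    qb h (AV z h V) (Tk V z (k + 4)) *
      (4 * qb h (AV z h V) (Tk V z (k + 4)) ^ 2 * rk V z k ^ 3 +
        3 * (2 * q3 h (AV z h V) (Tk V z (k + 4)) (wV z h V)) * rk V z k ^ 2 +
        2 * (2 * q2 h (AV z h V) (Tk V z (k + 4)) (wV z h V)) * rk V z k +
        4 * q1 h (AV z h V) (Tk V z (k + 4)) (wV z h V))) / 8

end

/-! ### Statements about heptagons -/

/-- Corner areas and total area in Fourier coordinates. -/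
def StCorner : Prop := ∀ (K : Type) [CommRing K] (z h : K) (V : V6 K),
  z ^ 6 + z ^ 5 + z ^ 4 + z ^ 3 + z ^ 2 + z + 1 = 0 → h = z + z ^ 6 → Good h V →
  (∀ k, Tk V z k = z ^ (k + 6) * XV z h V + z ^ (6 * (k + 6)) * YV z h V) ∧
  tot (pk V z 0) (pk V z 1) (pk V z 2) (pk V z 3) (pk V z 4) (pk V z 5) (pk V z 6) = AV z h V

/-- The cubic relation between brackets, and the two forms of the derivative. -/
def StRelK : Prop := ∀ (K : Type) [CommRing K] (z h : K) (V : V6 K),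
  z ^ 6 + z ^ 5 + z ^ 4 + z ^ 3 + z ^ 2 + z + 1 = 0 → h = z + z ^ 6 → Good h V → ∀ k : ℕ,
  Fc (AV z h V) (Tk V z k) (Tk V z (k + 1)) (Tk V z (k + 2)) (Tk V z (k + 3))
    (Tk V z (k + 4)) (Tk V z (k + 5)) (Tk V z (k + 6)) (bk V z k) (bk V z (k + 4)) = 0 ∧
  sk V z h k = -FcQ (AV z h V) (Tk V z k) (Tk V z (k + 1)) (Tk V z (k + 2)) (Tk V z (k + 3))
    (Tk V z (k + 4)) (Tk V z (k + 5)) (Tk V z (k + 6)) (bk V z k) (bk V z (k + 4))

/-- The square root of the quartic. -/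
def StSq : Prop := ∀ (K : Type) [CommRing K] (z h : K) (V : V6 K),
  z ^ 6 + z ^ 5 + z ^ 4 + z ^ 3 + z ^ 2 + z + 1 = 0 → h = z + z ^ 6 → Good h V → ∀ k : ℕ,
  (4 * sk V z h k) ^ 2 = Gq h (AV z h V) (Tk V z (k + 4)) (wV z h V) (rk V z k)

/-- The point lies on the curve. -/
def StPtk : Prop := ∀ (K : Type) [Field K] [CharZero K] (z h : K) (V : V6 K),
  z ^ 6 + z ^ 5 + z ^ 4 + z ^ 3 + z ^ 2 + z + 1 = 0 → h = z + z ^ 6 → Good h V → ∀ k : ℕ,
  yk V z h k ^ 2 = xk V z h k ^ 3 - 27 * II h (AV z h V) (wV z h V) (SV z h V) * xk V z h k -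
    27 * JJ h (AV z h V) (wV z h V) (SV z h V)

/-- Derivatives of brackets. -/
def StDer : Prop := ∀ (K : Type) [Field K] [CharZero K] (z h : K) (V : V6 K),
  z ^ 6 + z ^ 5 + z ^ 4 + z ^ 3 + z ^ 2 + z + 1 = 0 → h = z + z ^ 6 → Good h V →
  ∀ D : Derivation ℤ K K, D z = 0 → D (AV z h V) = 0 → D (XV z h V) = 0 →
  D (YV z h V) = 0 → ∀ k : ℕ,
  sk V z h k * D (bk V z (k + 3)) = sk V z h (k + 3) * D (bk V z k) ∧
  (sk V z h k ≠ 0 → 6 * sk V z h k * D (xk V z h k) = 2 * yk V z h k * D (bk V z k) ∧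
    6 * sk V z h k * D (yk V z h k) =
      (3 * xk V z h k ^ 2 - 27 * II h (AV z h V) (wV z h V) (SV z h V)) * D (bk V z k))

/-- Periodicity. -/
def StPer : Prop := ∀ (K : Type) [Field K] (z h : K) (V : V6 K), z ^ 7 = 1 → ∀ k : ℕ,
  Tk V z (k + 7) = Tk V z k ∧ bk V z (k + 7) = bk V z k ∧ sk V z h (k + 7) = sk V z h k ∧
  rk V z (k + 7) = rk V z k ∧ xk V z h (k + 7) = xk V z h k ∧ yk V z h (k + 7) = yk V z h k

/-- How an automorphism acts on the vectors. -/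
structure Equi {K : Type*} [Field K] (σ : K →+* K) (z : K) (V : V6 K) : Prop where
  z0 : σ z = z
  a1 : σ V.a1 = z ^ 4 * V.a1
  a2 : σ V.a2 = z ^ 2 * V.a2
  a3 : σ V.a3 = V.a3
  a4 : σ V.a4 = z ^ 5 * V.a4
  a5 : σ V.a5 = z ^ 3 * V.a5
  a6 : σ V.a6 = z * V.a6
  b1 : σ V.b1 = z ^ 6 * V.b1
  b2 : σ V.b2 = z ^ 4 * V.b2
  b3 : σ V.b3 = z ^ 2 * V.b3
  b4 : σ V.b4 = V.b4
  b5 : σ V.b5 = z ^ 5 * V.b5
  b6 : σ V.b6 = z ^ 3 * V.b6

/-- Equivariance. -/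
def StEqui : Prop := ∀ (K : Type) [Field K] (σ : K →+* K) (z h : K) (V : V6 K),
  z ^ 7 = 1 → h = z + z ^ 6 → Equi σ z V →
  σ (AV z h V) = AV z h V ∧ σ (XV z h V) = z * XV z h V ∧ σ (YV z h V) = z ^ 6 * YV z h V ∧
  σ (wV z h V) = wV z h V ∧ σ (SV z h V) = SV z h V ∧ ∀ k : ℕ,
  σ (Tk V z k) = Tk V z (k + 1) ∧ σ (bk V z k) = bk V z (k + 1) ∧
  σ (sk V z h k) = sk V z h (k + 1) ∧ σ (rk V z k) = rk V z (k + 1) ∧
  σ (xk V z h k) = xk V z h (k + 1) ∧ σ (yk V z h k) = yk V z h (k + 1)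

/-- Inverse Fourier transform: the minors from the brackets. -/
def StFourier : Prop := ∀ (K : Type) [Field K] [CharZero K] (z h : K) (V : V6 K),
  z ^ 6 + z ^ 5 + z ^ 4 + z ^ 3 + z ^ 2 + z + 1 = 0 → h = z + z ^ 6 → Good h V →
  ∀ E : Subfield K, z ∈ E → AV z h V ∈ E → XV z h V ∈ E → YV z h V ∈ E →
  (∀ k : ℕ, bk V z k ∈ E) →
  d34 V ∈ E ∧ d14 V ∈ E ∧ d36 V ∈ E ∧ d46 V ∈ E ∧ d13 V ∈ E

/-- A subfield which is algebraically closed in `K` and contains one bracket contains all of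
them. -/
def StStep : Prop := ∀ (K : Type) [Field K] [CharZero K] (σ : K →+* K) (z h : K) (V : V6 K),
  z ^ 6 + z ^ 5 + z ^ 4 + z ^ 3 + z ^ 2 + z + 1 = 0 → h = z + z ^ 6 → Good h V →
  Equi σ z V → AV z h V ≠ 0 → ∀ E0 E : Subfield K, E0 ≤ E → z ∈ E0 → AV z h V ∈ E0 →
  XV z h V ∈ E0 → YV z h V ∈ E0 → (∀ x ∈ E0, σ x ∈ E0) →
  (∀ x : K, IsAlgebraic E x → x ∈ E) → bk V z 4 ∈ E → ∀ k : ℕ, bk V z k ∈ E

/-! ### The invariant differential -/

/-- The short Weierstrass curve. -/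
def Wsh {K : Type*} [CommRing K] (a4 a6 : K) : WeierstrassCurve.Affine K :=
  ⟨0, 0, 0, a4, a6⟩

/-- `ω` is the value of the invariant differential at the derivation `D` of the point `P`. -/
def IsOm {K : Type*} [Field K] (D : Derivation ℤ K K) (a4 a6 : K) :
    (Wsh a4 a6).Point → K → Prop
  | .zero, ω => ω = 0
  | .some x y _, ω => D x = 2 * y * ω ∧ D y = (3 * x ^ 2 + a4) * ω

/-- The invariant differential is additive. -/
def StOmega : Prop := ∀ (K : Type) [Field K] [DecidableEq K] [CharZero K]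
  (D : Derivation ℤ K K) (a4 a6 : K), D a4 = 0 → D a6 = 0 →
  ∀ (P Q : (Wsh a4 a6).Point) (ω1 ω2 : K), IsOm D a4 a6 P ω1 → IsOm D a4 a6 Q ω2 →
  IsOm D a4 a6 (P + Q) (ω1 + ω2)

/-- The curve is nonsingular at the generic point. -/
def StNonsing : Prop := ∀ (K : Type) [Field K] [Algebra ℂ K] (h0 c0 : ℂ), Rel h0 → c0 ≠ 0 →
  ∀ h c u r : K, h = algebraMap ℂ K h0 → c = algebraMap ℂ K c0 →
  AlgebraicIndependent ℂ ![u, r] →
  4 * II h u (wf c u r) (Sf c u r) ^ 3 - JJ h u (wf c u r) (Sf c u r) ^ 2 ≠ 0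

/-- From the short form to the form `We`. -/
def StShort : Prop := ∀ (K : Type) [Field K] [CharZero K] (h A w S x y : K), Rel h →
  y ^ 2 = x ^ 3 - 27 * II h A w S * x - 27 * JJ h A w S →
  ∃ x' y' : K, x = 9 * x' + (3 * A ^ 4 + 42 * h * w * A ^ 2 +
      (-42 - 84 * h + 21 * h ^ 2) * w ^ 2) ∧
    y = 27 * y' - 9 * (3 * A ^ 2 + 21 * h * w) * x' -
      ((-1134 - 3402 * h - 1890 * h ^ 2) * w ^ 3 + (1134 - 378 * h ^ 2) * w ^ 2 * A ^ 2) ∧
    We h A w S x' y' = 0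

/-! ### Algebra -/

/-- Derivations detect transcendental elements. -/
def StDerEx : Prop := ∀ (K : Type) [Field K] [CharZero K] (E : Subfield K),
  (∀ x : K, IsAlgebraic E x → x ∈ E) → ∀ b : K, b ∉ E →
  ∃ D : Derivation ℤ K K, (∀ x ∈ E, D x = 0) ∧ D b ≠ 0

/-- An element which is algebraic over the constants is a constant. -/
def StDerAlg : Prop := ∀ (K : Type) [Field K] [CharZero K] (D : Derivation ℤ K K)
  (E : Subfield K), (∀ x ∈ E, D x = 0) → ∀ x : K, IsAlgebraic E x → D x = 0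

/-- Transcendence degree bound. -/
def StTrdeg : Prop := ∀ (K : Type) [Field K] [Algebra ℂ K], Algebra.trdeg ℂ K = 3 →
  ∀ a b c : K, Algebra.IsAlgebraic (IntermediateField.adjoin ℂ ({a, b, c} : Set K)) K →
  AlgebraicIndependent ℂ ![a, b, c]

/-! ### The data -/

/-- The data: `K` is `F(s)` with `s ^ 7 = u`, and `V` is a set of six vectors over `K`. -/
structure Hep (F K : Type) [Field F] [Field K] [Algebra ℂ F] [Algebra ℂ K] [Algebra F K]
    [IsScalarTower ℂ F K] (z0 : ℂ) (σ : K ≃ₐ[F] K) (s : K) (u r : F) (V : V6 K) (z h : K) :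
    Prop where
  htr : Algebra.trdeg ℂ K = 3
  hz0 : IsPrimitiveRoot z0 7
  hz : z = algebraMap ℂ K z0
  hh : h = z + z ^ 6
  hu : u ≠ 0
  hs : s ^ 7 = algebraMap F K u
  hfix : ∀ x : K, σ x = x → ∃ y : F, algebraMap F K y = x
  hσ : σ s = z ^ 2 * s
  equi : Equi (σ : K →+* K) z V
  good : Good h V
  hA : AV z h V = s ^ 7
  hX : XV z h V = 5 * s ^ 4 * (1 + s ^ 7)
  hY : YV z h V = 5 * s ^ 3 * algebraMap F K r
  gen : ∀ E : Subfield K, (∀ x : K, IsAlgebraic E x → x ∈ E) →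
    (∀ a : ℂ, algebraMap ℂ K a ∈ E) → s ∈ E → d34 V ∈ E → d14 V ∈ E → d36 V ∈ E →
    d46 V ∈ E → d13 V ∈ E → E = ⊤

/-- The heptagon over the rational function field with a seventh root adjoined. -/
def StData : Prop := ∀ z0 : ℂ, IsPrimitiveRoot z0 7 →
  ∃ (F K : Type) (_ : Field F) (_ : Field K) (_ : Algebra ℂ F) (_ : Algebra ℂ K)
    (_ : Algebra F K) (_ : IsScalarTower ℂ F K) (σ : K ≃ₐ[F] K) (s : K) (u r : F) (V : V6 K)
    (z h : K), Nonempty (F →ₐ[ℂ] FractionRing (MvPolynomial (Fin 3) ℂ)) ∧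
    Hep F K z0 σ s u r V z h

/-- `s`, `r` and one bracket are algebraically independent. -/
def StIndep : Prop := ∀ (F K : Type) [Field F] [Field K] [Algebra ℂ F] [Algebra ℂ K]
  [Algebra F K] [IsScalarTower ℂ F K] (z0 : ℂ) (σ : K ≃ₐ[F] K) (s : K) (u r : F) (V : V6 K)
  (z h : K), Hep F K z0 σ s u r V z h →
  AlgebraicIndependent ℂ ![s, algebraMap F K r, bk V z 4]

/-- A derivation which kills `s` and `r` but no bracket. -/
def StDeriv : Prop := ∀ (F K : Type) [Field F] [Field K] [Algebra ℂ F] [Algebra ℂ K]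
  [Algebra F K] [IsScalarTower ℂ F K] (z0 : ℂ) (σ : K ≃ₐ[F] K) (s : K) (u r : F) (V : V6 K)
  (z h : K), Hep F K z0 σ s u r V z h →
  ∃ (D : Derivation ℤ K K) (δ : K), δ ≠ 0 ∧
    (∀ x : K, IsAlgebraic (IntermediateField.adjoin ℂ ({s, algebraMap F K r} : Set K)) x →
      D x = 0) ∧
    ∀ k : ℕ, sk V z h k ≠ 0 ∧ D (bk V z k) = δ * sk V z h k

/-- The action of an endomorphism of the field on the points of the curve. -/
def StPtMap : Prop := ∀ (K : Type) [Field K] [DecidableEq K] (σ : K →+* K) (a4 a6 : K),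
  σ a4 = a4 → σ a6 = a6 → ∃ φ : (Wsh a4 a6).Point →+ (Wsh a4 a6).Point,
    ∀ (x y : K) (hp : (Wsh a4 a6).Nonsingular x y),
    ∃ hq : (Wsh a4 a6).Nonsingular (σ x) (σ y), φ (.some x y hp) = .some (σ x) (σ y) hq

/-- The point over `F`. -/
def StPointF : Prop := ∀ (F K : Type) [Field F] [Field K] [Algebra ℂ F] [Algebra ℂ K]
  [Algebra F K] [IsScalarTower ℂ F K] (z0 : ℂ) (σ : K ≃ₐ[F] K) (s : K) (u r : F) (V : V6 K)
  (z h : K), Hep F K z0 σ s u r V z h →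
  ∃ x y : F, Wu (algebraMap ℂ F (z0 + z0 ^ 6)) 5 u r x y = 0 ∧
    AlgebraicIndependent ℂ ![u, r, x]

/-- The rational point of infinite order which is not constant. -/
def StPoint : Prop := ∀ z0 : ℂ, IsPrimitiveRoot z0 7 →
  ∃ u r x y : FractionRing (MvPolynomial (Fin 3) ℂ), AlgebraicIndependent ℂ ![u, r, x] ∧
    Wu (algebraMap ℂ (FractionRing (MvPolynomial (Fin 3) ℂ)) (z0 + z0 ^ 6)) 5 u r x y = 0

/-! ### The explicit vectors -/

section

variable {K : Type*} [Field K]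

/-- The parameter `n`. -/
def nn (h m e : K) : K := (h * m + (h ^ 2 - 1) ^ 3 * m - (h ^ 2 - 1) ^ 2) /
  (h + (h ^ 2 - 1) ^ 3 * m * (1 + h * e) * (m + h / e) / (h ^ 2 - m) ^ 2)

/-- The vectors. -/
def VV (h m e g l : K) : V6 K where
  a1 := l * (g ^ 2 * m / (e * nn h m e))
  a2 := l * ((h ^ 2 - 1) / h * ((g ^ 2 * m / (e * nn h m e)) ^ 2 *
    (e * nn h m e ^ 2 / (g ^ 3 * m)) + h * (g ^ 3 * m / (e * nn h m e)) *
    (e * nn h m e / g ^ 2)) / (h ^ 2 - m))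
  a3 := l
  a4 := 0
  a5 := l * (-((h ^ 2 - 1) / h * (e * nn h m e / g ^ 2)))
  a6 := l * (e * nn h m e ^ 2 / (g ^ 3 * m))
  b1 := g ^ 3 * m / (e * nn h m e)
  b2 := -((h ^ 2 - 1) / h * (g ^ 2 * m / (e * nn h m e)))
  b3 := 0
  b4 := 1
  b5 := (h ^ 2 - 1) / h * ((g ^ 3 * m / (e * nn h m e)) * (e * nn h m e / g ^ 2) ^ 2 +
    h * (g ^ 2 * m / (e * nn h m e)) * (e * nn h m e ^ 2 / (g ^ 3 * m))) / (h ^ 2 - m)
  b6 := e * nn h m e / g ^ 2

/-- Auxiliary elements. -/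
def dd (h m e : K) : K := 1 / (1 - (h ^ 2 - 1) * (m - nn h m e))
def La (h m e : K) : K := 1 + nn h m e * (1 + h * e) / (h ^ 2 - m)
def Lb (h m e : K) : K := 1 + nn h m e * (1 + h / (e * m)) / (h ^ 2 - m)
def C0 (h : K) : K := (4 - h ^ 2) * h * (h ^ 2 - 1) / 7
def al (h m e : K) : K := C0 h * m ^ 2 * La h m e * dd h m e / (e ^ 2 * nn h m e ^ 2)
def be (h m e : K) : K := C0 h * h * e * nn h m e ^ 2 * dd h m e / m
def al' (h m e : K) : K := C0 h * e ^ 2 * nn h m e ^ 2 * Lb h m e * dd h m e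
def be' (h m e : K) : K := C0 h * h * m * dd h m e / (e * nn h m e)

end

/-- The vectors satisfy the relations. -/
def StGood : Prop := ∀ (K : Type) [Field K] [CharZero K] (h m e g l : K), Rel h → m ≠ 0 →
  e ≠ 0 → g ≠ 0 → h ^ 2 - m ≠ 0 → nn h m e ≠ 0 →
  h + (h ^ 2 - 1) ^ 3 * m * (1 + h * e) * (m + h / e) / (h ^ 2 - m) ^ 2 ≠ 0 →
  Good h (VV h m e g l)

/-- Total area and Fourier coefficients of the heptagon of the vectors. -/
def StXYA : Prop := ∀ (K : Type) [Field K] [CharZero K] (z h m e g l u : K),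
  z ^ 6 + z ^ 5 + z ^ 4 + z ^ 3 + z ^ 2 + z + 1 = 0 → h = z + z ^ 6 → m ≠ 0 →
  e ≠ 0 → g ≠ 0 → h ^ 2 - m ≠ 0 → nn h m e ≠ 0 →
  h + (h ^ 2 - 1) ^ 3 * m * (1 + h * e) * (m + h / e) / (h ^ 2 - m) ^ 2 ≠ 0 →
  1 - (h ^ 2 - 1) * (m - nn h m e) ≠ 0 → l = u * h * dd h m e / (7 * (z ^ 6 - z)) →
  AV z h (VV h m e g l) = u ∧
  XV z h (VV h m e g l) = u * (al h m e * g ^ 4 + be h m e / g ^ 3) ∧
  YV z h (VV h m e g l) = u * (be' h m e * g ^ 3 + al' h m e / g ^ 4)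

/-- The element `u` is not a seventh power. -/
def StNot7 : Prop := ∀ (F0 : Type) [Field F0] (a b c : F0), a ≠ 0 → c ≠ 0 →
  ∀ y : RatFunc F0, y ^ 7 ≠ (RatFunc.C b - RatFunc.C c * RatFunc.X ^ 3) /
    (RatFunc.X ^ 3 * (RatFunc.C c - RatFunc.C a * RatFunc.X ^ 4))

/-- Adjoining a seventh root. -/
def StAdj : Prop := ∀ (F : Type) [Field F] [Algebra ℂ F] (u : F), u ≠ 0 →
  (∀ y : F, y ^ 7 ≠ u) → ∀ z0 : ℂ, IsPrimitiveRoot z0 7 →
  ∃ (K : Type) (_ : Field K) (_ : Algebra ℂ K) (_ : Algebra F K) (_ : IsScalarTower ℂ F K)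
    (σ : K ≃ₐ[F] K) (s : K), s ^ 7 = algebraMap F K u ∧ σ s = algebraMap ℂ K (z0 ^ 2) * s ∧
    (∀ x : K, σ x = x → ∃ y : F, algebraMap F K y = x) ∧
    (∀ E : Subfield K, s ∈ E → (∀ x : F, algebraMap F K x ∈ E) → E = ⊤) ∧
    Algebra.trdeg ℂ K = Algebra.trdeg ℂ F

/-- The rational function field in three variables as a field of rational functions over the
rational function field in two variables. -/
def StRat3 : Prop :=
  Nonempty (RatFunc (FractionRing (MvPolynomial (Fin 2) ℂ)) →ₐ[ℂ]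
    FractionRing (MvPolynomial (Fin 3) ℂ)) ∧
  Algebra.trdeg ℂ (RatFunc (FractionRing (MvPolynomial (Fin 2) ℂ))) = 3

/-- Nonvanishing of the auxiliary elements at the generic point. -/
def StGen : Prop := ∀ h0 : ℂ, Rel h0 → ∀ h m e : FractionRing (MvPolynomial (Fin 2) ℂ),
  h = algebraMap ℂ (FractionRing (MvPolynomial (Fin 2) ℂ)) h0 →
  m = algebraMap (MvPolynomial (Fin 2) ℂ) _ (MvPolynomial.X 0) →
  e = algebraMap (MvPolynomial (Fin 2) ℂ) _ (MvPolynomial.X 1) →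
  m ≠ 0 ∧ e ≠ 0 ∧ h ^ 2 - m ≠ 0 ∧ nn h m e ≠ 0 ∧
  h + (h ^ 2 - 1) ^ 3 * m * (1 + h * e) * (m + h / e) / (h ^ 2 - m) ^ 2 ≠ 0 ∧
  1 - (h ^ 2 - 1) * (m - nn h m e) ≠ 0 ∧ La h m e ≠ 0 ∧ be h m e ≠ 0

end Pool.Agent.Work.MP_c5a777_ag.Sev
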