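import Pool.Agent.Work.MP_c5a777_ag.Sev.StU

/-!
# The model of the family over a ring, and the fields
-/

open Polynomial

namespace Pool.Agent.Work.MP_c5a777_ag.Sev

noncomputable section

variable {O : Type} [CommRing O]

/-- The curve over `O[s, r]`, with `A = s ^ 7`. -/
def WC (c h : O) : WeierstrassCurve (MvPolynomial (Fin 2) O) where
  a₁ := a1 (MvPolynomial.C h) (MvPolynomial.X 0 ^ 7)
    (wf (MvPolynomial.C c) (MvPolynomial.X 0 ^ 7) (MvPolynomial.X 1))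
  a₂ := a2 (MvPolynomial.C h) (wf (MvPolynomial.C c) (MvPolynomial.X 0 ^ 7) (MvPolynomial.X 1))
  a₃ := a3 (MvPolynomial.C h) (MvPolynomial.X 0 ^ 7)
    (wf (MvPolynomial.C c) (MvPolynomial.X 0 ^ 7) (MvPolynomial.X 1))
  a₄ := a4 (MvPolynomial.C h) (MvPolynomial.X 0 ^ 7)
    (wf (MvPolynomial.C c) (MvPolynomial.X 0 ^ 7) (MvPolynomial.X 1))
    (Sf (MvPolynomial.C c) (MvPolynomial.X 0 ^ 7) (MvPolynomial.X 1))
  a₆ := a6 (MvPolynomial.C h) (MvPolynomial.X 0 ^ 7)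
    (wf (MvPolynomial.C c) (MvPolynomial.X 0 ^ 7) (MvPolynomial.X 1))
    (Sf (MvPolynomial.C c) (MvPolynomial.X 0 ^ 7) (MvPolynomial.X 1))

/-- The coordinate ring over `O`. -/
def TT (c h : O) : Type := (WC c h).toAffine.CoordinateRing

instance (c h : O) : CommRing (TT c h) :=
  inferInstanceAs (CommRing (WC c h).toAffine.CoordinateRing)

/-- The structure map. -/
def tC (c h : O) : O →+* TT c h :=
  (algebraMap (MvPolynomial (Fin 2) O) (WC c h).toAffine.CoordinateRing).comp MvPolynomial.C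

instance (c h : O) : Algebra O (TT c h) := (tC c h).toAlgebra

/-- The generators. -/
def ts (c h : O) : TT c h :=
  algebraMap (MvPolynomial (Fin 2) O) (WC c h).toAffine.CoordinateRing (MvPolynomial.X 0)
def tr (c h : O) : TT c h :=
  algebraMap (MvPolynomial (Fin 2) O) (WC c h).toAffine.CoordinateRing (MvPolynomial.X 1)
def tx (c h : O) : TT c h :=
  algebraMap (MvPolynomial (Fin 2) O)[X] (WC c h).toAffine.CoordinateRing X
def ty (c h : O) : TT c h :=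
  WeierstrassCurve.Affine.CoordinateRing.mk (WC c h).toAffine X

/-! ### The model -/

/-- The relation. -/
def StTRel : Prop := ∀ (O : Type) [CommRing O] (c h : O),
  Wu (tC c h h) (tC c h c) (ts c h ^ 7) (tr c h) (tx c h) (ty c h) = 0

/-- The universal property. -/
def StTHom : Prop := ∀ (O S : Type) [CommRing O] [CommRing S] (g : O →+* S) (c h : O)
  (s r x y : S), Wu (g h) (g c) (s ^ 7) r x y = 0 →
  ∃ φ : TT c h →+* S, (∀ a, φ (tC c h a) = g a) ∧ φ (ts c h) = s ∧ φ (tr c h) = r ∧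
    φ (tx c h) = x ∧ φ (ty c h) = y

/-- Induction. -/
def StTInd : Prop := ∀ (O : Type) [CommRing O] (c h : O) (P : TT c h → Prop),
  (∀ a, P (tC c h a)) → P (ts c h) → P (tr c h) → P (tx c h) → P (ty c h) →
  (∀ a b, P a → P b → P (a + b)) → (∀ a b, P a → P b → P (a * b)) → ∀ z, P z

/-- The model is a domain, and free. -/
def StTFree : Prop := ∀ (O : Type) [CommRing O] (c h : O), Module.Free O (TT c h) ∧
  (IsDomain O → IsDomain (TT c h))

/-- Normal form: an element is `p + q y` with polynomials `p`, `q` in `s, r, x`. -/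
def StTNF : Prop := ∀ (O S : Type) [CommRing O] [Field S] (g : O →+* S), Function.Injective g →
  ∀ (c h : O) (s r x y : S) (φ : TT c h →+* S), (∀ a, φ (tC c h a) = g a) →
  φ (ts c h) = s → φ (tr c h) = r → φ (tx c h) = x → φ (ty c h) = y →
  (∀ p : MvPolynomial (Fin 3) O, MvPolynomial.eval₂ g ![s, r, x] p = 0 → p = 0) →
  Function.Injective φ

/-- Reduction: over a local ring with `c` and `5` in the maximal ideal, the model maps onto a
domain, with kernel in the extended ideal, and the function maps to an element of order four.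
The map is equivariant for the action on `s` of a seventh root of one. -/
def StTheta : Prop := ∀ (O : Type) [CommRing O] [IsDomain O] [IsLocalRing O] (c h : O),
  c ∈ IsLocalRing.maximalIdeal O → (5 : O) ∈ IsLocalRing.maximalIdeal O →
  ∃ (Ω : Type) (_ : CommRing Ω) (_ : IsDomain Ω) (θ : TT c h →+* Ω) (ord : Ω → ℕ),
    (∀ z, θ z = 0 → z ∈ (IsLocalRing.maximalIdeal O).map (algebraMap O (TT c h))) ∧
    (∀ a b, a ≠ 0 → b ≠ 0 → ord (a * b) = ord a + ord b) ∧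
    θ (fu (tC c h h) (tC c h c) (ts c h ^ 7) (tr c h) (tx c h) (ty c h)) ≠ 0 ∧
    ord (θ (fu (tC c h h) (tC c h c) (ts c h ^ 7) (tr c h) (tx c h) (ty c h))) = 4 ∧
    ∀ (z : O), z ^ 7 = 1 → ∀ σ : TT c h →+* TT c h, (∀ a, σ (tC c h a) = tC c h a) →
      σ (ts c h) = tC c h z * ts c h → σ (tr c h) = tr c h → σ (tx c h) = tx c h →
      σ (ty c h) = ty c h →
      ∃ τ : Ω →+* Ω, (∀ a, θ (σ a) = τ (θ a)) ∧ Function.Injective τ ∧
        ∀ a, ord (τ a) = ord a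

/-! ### The fields -/

instance (z : ℂ) : IsDomain (TT (5 : ℂ) (z + z ^ 6)) :=
  inferInstanceAs (IsDomain (WC (5 : ℂ) (z + z ^ 6)).toAffine.CoordinateRing)

/-- The field of fractions of the model over `ℂ`. -/
abbrev K1 (z : ℂ) : Type := FractionRing (TT (5 : ℂ) (z + z ^ 6))

/-- The generators of the field. -/
def gs (z : ℂ) : K1 z := algebraMap (TT (5 : ℂ) (z + z ^ 6)) (K1 z) (ts 5 (z + z ^ 6))
def gr (z : ℂ) : K1 z := algebraMap (TT (5 : ℂ) (z + z ^ 6)) (K1 z) (tr 5 (z + z ^ 6))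
def gx (z : ℂ) : K1 z := algebraMap (TT (5 : ℂ) (z + z ^ 6)) (K1 z) (tx 5 (z + z ^ 6))
def gy (z : ℂ) : K1 z := algebraMap (TT (5 : ℂ) (z + z ^ 6)) (K1 z) (ty 5 (z + z ^ 6))

/-- The function field of the threefold. -/
def LF (z : ℂ) : IntermediateField ℂ (K1 z) :=
  IntermediateField.adjoin ℂ {gs z ^ 7, gr z, gx z, gy z}

/-- The relation in the field. -/
def StKRel : Prop := ∀ z : ℂ,
  Wu (algebraMap ℂ (K1 z) (z + z ^ 6)) 5 (gs z ^ 7) (gr z) (gx z) (gy z) = 0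

/-- Independence of `s, r, x`, and algebraicity. -/
def StKInd : Prop := ∀ z : ℂ, AlgebraicIndependent ℂ ![gs z, gr z, gx z] ∧
  AlgebraicIndependent ℂ ![gs z ^ 7, gr z, gx z]

/-- The function is not zero. -/
def StKf : Prop := ∀ z : ℂ, IsPrimitiveRoot z 7 →
  fu (algebraMap ℂ (K1 z) (z + z ^ 6)) 5 (gs z ^ 7) (gr z) (gx z) (gy z) ≠ 0

/-- The automorphism. -/
def StKAut : Prop := ∀ z : ℂ, IsPrimitiveRoot z 7 → ∃ σ : K1 z ≃ₐ[LF z] K1 z,
  σ (gs z) = algebraMap ℂ (K1 z) z * gs z ∧ ∀ x, σ^[7] x = x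

/-- Fractions over a valuation ring. -/
def StKFrac : Prop := ∀ (z : ℂ) (O : ValuationSubring ℂ) (c h : O), (c : ℂ) = 5 →
  (h : ℂ) = z + z ^ 6 → ∃ ι : TT c h →+* K1 z, Function.Injective ι ∧
    (∀ a : O, ι (tC c h a) = algebraMap ℂ (K1 z) a) ∧ ι (ts c h) = gs z ∧ ι (tr c h) = gr z ∧
    ι (tx c h) = gx z ∧ ι (ty c h) = gy z ∧
    ∀ γ : K1 z, γ ≠ 0 → ∃ z1 z2 : TT c h, z1 ≠ 0 ∧ z2 ≠ 0 ∧ γ = ι z1 / ι z2

/-- The function is not a norm. -/
def StKNorm : Prop := ∀ z : ℂ, IsPrimitiveRoot z 7 → ∀ σ : K1 z →+* K1 z,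
  (∀ a : ℂ, σ (algebraMap ℂ (K1 z) a) = algebraMap ℂ (K1 z) a) →
  σ (gs z) = algebraMap ℂ (K1 z) z * gs z → σ (gr z) = gr z → σ (gx z) = gx z →
  σ (gy z) = gy z → ∀ γ : K1 z, ∏ i ∈ Finset.range 7, σ^[i] γ ≠
    fu (algebraMap ℂ (K1 z) (z + z ^ 6)) 5 (gs z ^ 7) (gr z) (gx z) (gy z)

/-- Finite generation. -/
def StKFG : Prop := ∀ z : ℂ,
  ∃ s : Finset (LF z), IntermediateField.adjoin ℂ (s : Set (LF z)) = ⊤

/-- Embedding in a purely transcendental field, from a point. -/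
def StKEmb : Prop := ∀ z : ℂ, IsPrimitiveRoot z 7 →
  (∃ u r x y : FractionRing (MvPolynomial (Fin 3) ℂ), AlgebraicIndependent ℂ ![u, r, x] ∧
    Wu (algebraMap ℂ (FractionRing (MvPolynomial (Fin 3) ℂ)) (z + z ^ 6)) 5 u r x y = 0) →
  Nonempty (LF z →ₐ[ℂ] FractionRing (MvPolynomial (Fin 3) ℂ))

/-- Transcendence degree. -/
def StKTr : Prop := ∀ z : ℂ, Nonempty (LF z →ₐ[ℂ] FractionRing (MvPolynomial (Fin 3) ℂ)) →
  Algebra.trdeg ℂ (LF z) = 3

/-- The algebra is not split. -/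
def StKSplit : Prop := ∀ z : ℂ, IsPrimitiveRoot z 7 → ∀ u f : LF z, (u : K1 z) = gs z ^ 7 →
  (f : K1 z) = fu (algebraMap ℂ (K1 z) (z + z ^ 6)) 5 (gs z ^ 7) (gr z) (gx z) (gy z) →
  ¬ ∃ U V : Matrix (Fin 7) (Fin 7) (LF z),
    U ^ 7 = Matrix.scalar (Fin 7) u ∧ V ^ 7 = Matrix.scalar (Fin 7) f ∧
    V * U = algebraMap ℂ (LF z) z • (U * V)

end

end Pool.Agent.Work.MP_c5a777_ag.Sev
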