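import Pool.Agent.Work.MP_c5a777_ag.Sev.Quart

/-!
# Bracket identities for seven points in the plane
-/

namespace Pool.Agent.Work.MP_c5a777_ag.Sev

section

variable {R : Type*} [CommRing R]

/-- Twice the area of a triangle. -/
def br (a b c : R × R) : R := (b.1 - a.1) * (c.2 - a.2) - (b.2 - a.2) * (c.1 - a.1)

/-- Twice the area of a heptagon. -/
def tot (z0 z1 z2 z3 z4 z5 z6 : R × R) : R :=
  (z0.1 * z1.2 - z0.2 * z1.1) + (z1.1 * z2.2 - z1.2 * z2.1) + (z2.1 * z3.2 - z2.2 * z3.1) +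
    (z3.1 * z4.2 - z3.2 * z4.1) + (z4.1 * z5.2 - z4.2 * z5.1) + (z5.1 * z6.2 - z5.2 * z6.1) +
    (z6.1 * z0.2 - z6.2 * z0.1)

/-- The determinant. -/
def dt (a b : R × R) : R := a.1 * b.2 - a.2 * b.1

theorem br_dt (o a b c : R × R) :
    br a b c = dt (a - o) (b - o) + dt (b - o) (c - o) - dt (a - o) (c - o) := by
  simp only [br, dt, Prod.fst_sub, Prod.snd_sub]
  ring

theorem br_zero (o b c : R × R) : br o b c = dt (b - o) (c - o) := by
  simp only [br, dt, Prod.fst_sub, Prod.snd_sub]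

theorem dt_swap (a b : R × R) : dt a b = -dt b a := by
  simp only [dt]
  ring

theorem tot_dt (z0 z1 z2 z3 z4 z5 z6 : R × R) : tot z0 z1 z2 z3 z4 z5 z6 =
    dt (z1 - z0) (z2 - z0) + dt (z2 - z0) (z3 - z0) + dt (z3 - z0) (z4 - z0) +
      dt (z4 - z0) (z5 - z0) + dt (z5 - z0) (z6 - z0) := by
  simp only [tot, dt, Prod.fst_sub, Prod.snd_sub]
  ring

theorem tot_rot (z0 z1 z2 z3 z4 z5 z6 : R × R) :
    tot z0 z1 z2 z3 z4 z5 z6 = tot z1 z2 z3 z4 z5 z6 z0 := by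
  simp only [tot]
  ring

/-- The Plücker relation. -/
theorem pluck (a b c d : R × R) : dt a b * dt c d - dt a c * dt b d + dt a d * dt b c = 0 := by
  simp only [dt]
  ring

theorem Fc_zero (z0 z1 z2 z3 z4 z5 z6 : R × R) :
    Fc (tot z0 z1 z2 z3 z4 z5 z6) (br z0 z1 z2) (br z1 z2 z3) (br z2 z3 z4) (br z3 z4 z5)
      (br z4 z5 z6) (br z5 z6 z0) (br z6 z0 z1) (br z0 z1 z3) (br z0 z4 z5) = 0 := by
  have e5 : br z5 z6 z0 = dt (z5 - z0) (z6 - z0) := by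
    simp only [br, dt, Prod.fst_sub, Prod.snd_sub]; ring
  have e6 : br z6 z0 z1 = dt (z1 - z0) (z6 - z0) := by
    simp only [br, dt, Prod.fst_sub, Prod.snd_sub]; ring
  rw [e5, e6, tot_dt, br_zero z0 z1 z2, br_dt z0 z1 z2 z3, br_dt z0 z2 z3 z4, br_dt z0 z3 z4 z5,
    br_dt z0 z4 z5 z6, br_zero z0 z1 z3, br_zero z0 z4 z5]
  have p1 := pluck (z1 - z0) (z3 - z0) (z4 - z0) (z6 - z0)
  have p2 := pluck (z1 - z0) (z2 - z0) (z3 - z0) (z4 - z0)
  have p3 := pluck (z3 - z0) (z4 - z0) (z5 - z0) (z6 - z0)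
  generalize dt (z1 - z0) (z2 - z0) = d12 at *
  generalize dt (z1 - z0) (z3 - z0) = d13 at *
  generalize dt (z1 - z0) (z4 - z0) = d14 at *
  generalize dt (z1 - z0) (z6 - z0) = d16 at *
  generalize dt (z2 - z0) (z3 - z0) = d23 at *
  generalize dt (z2 - z0) (z4 - z0) = d24 at *
  generalize dt (z3 - z0) (z4 - z0) = d34 at *
  generalize dt (z3 - z0) (z5 - z0) = d35 at *
  generalize dt (z3 - z0) (z6 - z0) = d36 at *
  generalize dt (z4 - z0) (z5 - z0) = d45 at *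
  generalize dt (z4 - z0) (z6 - z0) = d46 at *
  generalize dt (z5 - z0) (z6 - z0) = d56 at *
  unfold Fc f21 f12 f20 f11 f02 f10 f01 f00
  linear_combination (d23 * d45) * p1 - (d34 * d56 - d35 * d46) * p2 + (d14 * d23) * p3

theorem shift_id (z0 z1 z2 z3 z4 z5 z6 : R × R) :
    FcP (tot z0 z1 z2 z3 z4 z5 z6) (br z0 z1 z2) (br z1 z2 z3) (br z2 z3 z4) (br z3 z4 z5)
      (br z4 z5 z6) (br z5 z6 z0) (br z6 z0 z1) (br z0 z1 z3) (br z0 z4 z5) =
    -FcQ (tot z0 z1 z2 z3 z4 z5 z6) (br z4 z5 z6) (br z5 z6 z0) (br z6 z0 z1) (br z0 z1 z2)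
      (br z1 z2 z3) (br z2 z3 z4) (br z3 z4 z5) (br z4 z5 z0) (br z4 z1 z2) := by
  have e5 : br z5 z6 z0 = dt (z5 - z0) (z6 - z0) := by
    simp only [br, dt, Prod.fst_sub, Prod.snd_sub]; ring
  have e6 : br z6 z0 z1 = dt (z1 - z0) (z6 - z0) := by
    simp only [br, dt, Prod.fst_sub, Prod.snd_sub]; ring
  have e7 : br z4 z5 z0 = dt (z4 - z0) (z5 - z0) := by
    simp only [br, dt, Prod.fst_sub, Prod.snd_sub]; ring
  have e8 : br z4 z1 z2 = dt (z1 - z0) (z2 - z0) + dt (z2 - z0) (z4 - z0) -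
      dt (z1 - z0) (z4 - z0) := by
    simp only [br, dt, Prod.fst_sub, Prod.snd_sub]; ring
  rw [e5, e6, e7, e8, tot_dt, br_zero z0 z1 z2, br_dt z0 z1 z2 z3, br_dt z0 z2 z3 z4,
    br_dt z0 z3 z4 z5, br_dt z0 z4 z5 z6, br_zero z0 z1 z3, br_zero z0 z4 z5]
  have p1 := pluck (z1 - z0) (z2 - z0) (z3 - z0) (z4 - z0)
  have p2 := pluck (z1 - z0) (z3 - z0) (z4 - z0) (z5 - z0)
  have p3 := pluck (z1 - z0) (z4 - z0) (z5 - z0) (z6 - z0)
  generalize dt (z1 - z0) (z2 - z0) = d12 at *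
  generalize dt (z1 - z0) (z3 - z0) = d13 at *
  generalize dt (z1 - z0) (z4 - z0) = d14 at *
  generalize dt (z1 - z0) (z5 - z0) = d15 at *
  generalize dt (z1 - z0) (z6 - z0) = d16 at *
  generalize dt (z2 - z0) (z3 - z0) = d23 at *
  generalize dt (z2 - z0) (z4 - z0) = d24 at *
  generalize dt (z3 - z0) (z4 - z0) = d34 at *
  generalize dt (z3 - z0) (z5 - z0) = d35 at *
  generalize dt (z4 - z0) (z5 - z0) = d45 at *
  generalize dt (z4 - z0) (z6 - z0) = d46 at *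
  generalize dt (z5 - z0) (z6 - z0) = d56 at *
  unfold FcP FcQ f21 f12 f20 f11 f02 f10 f01
  linear_combination (-2 * d46 + 2 * d56) * p1 + (2 * d46) * p2 + (2 * d34) * p3

end

end Pool.Agent.Work.MP_c5a777_ag.Sev
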