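import Mathlib

/-!
# 7 lies in the set of primes: the curve, the point and the function

`h` is `ζ + ζ⁻¹` for a primitive seventh root of one `ζ`, a root of `h³ + h² - 2 h - 1`.
The weights are: `A, X, Y` one, `w = X Y` two, `S = X⁷ + Y⁷` seven, `x` four, `y` six.
-/

namespace Pool.Agent.Work.MP_c5a777_ag.Sev

section

variable {R : Type*} [CommRing R]

/-- The minimal equation of `h`. -/
def Rel (h : R) : Prop := h ^ 3 + h ^ 2 - 2 * h - 1 = 0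

def a1 (h A w : R) : R := -(2 * A ^ 2 + 14 * h * w)
def a2 (h w : R) : R := -(14 + 28 * h + 42 * h ^ 2) * w ^ 2
def a3 (h A w : R) : R :=
  (84 + 252 * h + 140 * h ^ 2) * w ^ 3 - (84 - 28 * h ^ 2) * w ^ 2 * A ^ 2
def a4 (h A w S : R) : R :=
  (896 + 2548 * h + 1148 * h ^ 2) * w ^ 4 + (-672 + 112 * h + 224 * h ^ 2) * w ^ 3 * A ^ 2 +
    (32 + 112 * h - 112 * h ^ 2) * S * A
def a6 (h A w S : R) : R :=
  (-15680 - 43120 * h - 17640 * h ^ 2) * w ^ 6 +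
    (10976 + 1568 * h + 1568 * h ^ 2) * w ^ 5 * A ^ 2 + (-1792 + 448 * h ^ 2) * w ^ 4 * A ^ 4 +
    (1344 + 3136 * h - 3360 * h ^ 2) * w ^ 2 * S * A +
    (-896 - 448 * h + 896 * h ^ 2) * w * S * A ^ 3 - 64 * S * A ^ 5

/-- The equation of the elliptic curve. -/
def We (h A w S x y : R) : R :=
  y ^ 2 + a1 h A w * x * y + a3 h A w * y -
    (x ^ 3 + a2 h w * x ^ 2 + a4 h A w S * x + a6 h A w S)

def e8 (h A w S : R) : R := (-28 * h - 84 * h ^ 2) * w ^ 4 - 16 * S * A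
def e10 (h A w S : R) : R :=
  (224 + 1344 * h + 2016 * h ^ 2) * w ^ 5 + (-896 + 224 * h ^ 2) * w ^ 4 * A ^ 2 +
    (-224 * h + 224 * h ^ 2) * w * S * A - 32 * S * A ^ 3
def e14 (h A w S : R) : R :=
  (-18816 - 40768 * h + 3136 * h ^ 2) * w ^ 7 + (3136 + 3136 * h) * w ^ 6 * A ^ 2 +
    (896 - 3136 * h ^ 2) * w ^ 3 * S * A + (1344 - 448 * h ^ 2) * w ^ 2 * S * A ^ 3 +
    (4992 + 7168 * h - 8960 * h ^ 2) * S ^ 2

/-- The function with divisor `∑ σⁱ Q - 7 (0)`. -/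
def ff (h A w S x y : R) : R := x ^ 2 * y + e8 h A w S * y + e10 h A w S * x + e14 h A w S

/-- The first coordinate of `Q`, as a function of `A`, `X`, `Y`. -/
def xQ (h A X Y : R) : R :=
  (2 + 4 * h + 6 * h ^ 2) * (X * Y) ^ 2 + (8 - 4 * h - 4 * h ^ 2) * A * (X * Y) * (X + Y) +
    4 * A * (X ^ 3 + Y ^ 3) + (-4 - 4 * h + 4 * h ^ 2) * (X * Y) * (X ^ 2 + Y ^ 2) +
    (-4 * h + 4 * h ^ 2) * (X ^ 4 + Y ^ 4)

/-- The second coordinate of `Q`. -/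
def yQ (h A X Y : R) : R :=
  8 * A ^ 2 * (X ^ 4 + Y ^ 4) + (-16 + 8 * h + 8 * h ^ 2) * A ^ 2 * (X * Y) * (X ^ 2 + Y ^ 2) +
    (24 - 8 * h ^ 2) * A ^ 2 * (X * Y) ^ 2 + (8 + 8 * h - 8 * h ^ 2) * A * (X ^ 5 + Y ^ 5) +
    (-24 + 16 * h + 16 * h ^ 2) * A * (X * Y) * (X ^ 3 + Y ^ 3) +
    (32 - 24 * h - 16 * h ^ 2) * A * (X * Y) ^ 2 * (X + Y) +
    (-16 - 16 * h + 24 * h ^ 2) * (X ^ 6 + Y ^ 6) +
    (16 + 32 * h - 32 * h ^ 2) * (X * Y) * (X ^ 4 + Y ^ 4) +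
    (-8 - 16 * h + 8 * h ^ 2) * (X * Y) ^ 2 * (X ^ 2 + Y ^ 2) +
    (-24 - 72 * h - 40 * h ^ 2) * (X * Y) ^ 3

end

end Pool.Agent.Work.MP_c5a777_ag.Sev
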