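import Pool.Agent.Work.MP_c5a777_ag.Sev.StT
import Pool.Agent.Work.MP_c5a777_ag.Sev.StR

/-!
# Assembly: the class of order seven
-/

namespace Pool.Agent.Work.MP_c5a777_ag.Sev

noncomputable section

namespace AuxFin

theorem map_We {R S : Type*} [CommRing R] [CommRing S] (f : R →+* S) (h A w T x y : R) :
    f (We h A w T x y) = We (f h) (f A) (f w) (f T) (f x) (f y) := by
  simp only [We, a1, a2, a3, a4, a6, map_add, map_sub, map_mul, map_pow, map_neg, map_ofNat]

theorem map_ff {R S : Type*} [CommRing R] [CommRing S] (f : R →+* S) (h A w T x y : R) :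
    f (ff h A w T x y) = ff (f h) (f A) (f w) (f T) (f x) (f y) := by
  simp only [ff, e8, e10, e14, map_add, map_sub, map_mul, map_pow, map_neg, map_ofNat]

theorem map_Wu {R S : Type*} [CommRing R] [CommRing S] (f : R →+* S) (h c u r x y : R) :
    f (Wu h c u r x y) = Wu (f h) (f c) (f u) (f r) (f x) (f y) := by
  simp only [Wu, wf, Sf, map_We, map_add, map_mul, map_pow, map_one]

theorem map_fu {R S : Type*} [CommRing R] [CommRing S] (f : R →+* S) (h c u r x y : R) :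
    f (fu h c u r x y) = fu (f h) (f c) (f u) (f r) (f x) (f y) := by
  simp only [fu, wf, Sf, map_ff, map_add, map_mul, map_pow, map_one]

variable (z : ℂ)

/-- The base parameter. -/
def lu : LF z := ⟨gs z ^ 7, IntermediateField.subset_adjoin _ _ (by simp)⟩
/-- The parameter `r`. -/
def lr : LF z := ⟨gr z, IntermediateField.subset_adjoin _ _ (by simp)⟩
/-- The first coordinate. -/
def lx : LF z := ⟨gx z, IntermediateField.subset_adjoin _ _ (by simp)⟩
/-- The second coordinate. -/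
def ly : LF z := ⟨gy z, IntermediateField.subset_adjoin _ _ (by simp)⟩

/-- The second entry of the symbol. -/
def lf : LF z := fu (algebraMap ℂ (LF z) (z + z ^ 6)) 5 (lu z) (lr z) (lx z) (ly z)

theorem lf_coe : ((lf z : LF z) : K1 z) =
    fu (algebraMap ℂ (K1 z) (z + z ^ 6)) 5 (gs z ^ 7) (gr z) (gx z) (gy z) := by
  have h := map_fu (algebraMap (LF z) (K1 z)) (algebraMap ℂ (LF z) (z + z ^ 6)) 5 (lu z) (lr z)
    (lx z) (ly z)
  rw [map_ofNat] at h
  exact h

theorem lW (h1 : StKRel) :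
    Wu (algebraMap ℂ (LF z) (z + z ^ 6)) 5 (lu z) (lr z) (lx z) (ly z) = 0 := by
  apply (algebraMap (LF z) (K1 z)).injective
  rw [map_Wu, map_ofNat, map_zero]
  exact h1 z

theorem lu_ne (h1 : StKInd) : lu z ≠ 0 := by
  intro h
  have h2 : gs z ^ 7 = 0 := congrArg Subtype.val h
  have h3 : gs z = 0 := by
    by_contra hne
    exact pow_ne_zero 7 hne h2
  have h4 := ((h1 z).1).ne_zero 0
  exact h4 (by simpa using h3)

theorem lf_ne (h1 : StKf) (hz : IsPrimitiveRoot z 7) : lf z ≠ 0 := by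
  intro h
  have h2 := lf_coe z
  rw [h] at h2
  exact h1 z hz (by rw [← h2]; rfl)

end AuxFin

open AuxFin

/-- The assembly of the theorem on the prime seven. -/
theorem seven_of (h1 : StUnram) (h2 : StKSplit) (h3 : StKRel) (h4 : StKf) (h5 : StKFG)
    (h6 : StKTr) (h7 : StKEmb) (h8 : StPoint) (h9 : StKInd) (ω : ℂ)
    (hω : IsPrimitiveRoot ω 7) :
    ∃ (L : Type) (_ : Field L) (_ : Algebra ℂ L),
      (∃ s : Finset L, IntermediateField.adjoin ℂ (s : Set L) = ⊤) ∧
      Algebra.trdeg ℂ L = 3 ∧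
      Nonempty (L →ₐ[ℂ] FractionRing (MvPolynomial (Fin 3) ℂ)) ∧
      ∃ a b : L, a ≠ 0 ∧ b ≠ 0 ∧
        (∀ A : ValuationSubring L, (∀ z : ℂ, algebraMap ℂ L z ∈ A) →
          IsDiscreteValuationRing A → TameSeventh A a b) ∧
        ¬ ∃ U V : Matrix (Fin 7) (Fin 7) L,
          U ^ 7 = Matrix.scalar (Fin 7) a ∧ V ^ 7 = Matrix.scalar (Fin 7) b ∧
          V * U = algebraMap ℂ L ω • (U * V) := by
  have hemb := h7 ω hω (h8 ω hω)
  refine ⟨LF ω, inferInstance, inferInstance, h5 ω, h6 ω hemb, hemb, lu ω, lf ω,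
    lu_ne ω h9, lf_ne ω h4 hω, fun A hA hD => ?_, ?_⟩
  · exact h1 (LF ω) A hA hD ω 5 hω (by norm_num) (algebraMap ℂ (LF ω) (ω + ω ^ 6)) 5 rfl
      (by rw [map_ofNat]) (lu ω) (lr ω) (lx ω) (ly ω) (lu_ne ω h9) (lW ω h3) (lf_ne ω h4 hω)
  · exact h2 ω hω (lu ω) (lf ω) rfl (lf_coe ω)

end

end Pool.Agent.Work.MP_c5a777_ag.Sev
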