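import Pool.Agent.Work.MP_c5a777_ag.Bdx.B02

/-!
# Inverse Fourier transform: the minors from the brackets
-/

set_option autoImplicit false

namespace Pool.Agent.Work.MP_c5a777_ag.Sev

namespace AuxFourier

section

variable {K : Type*} [CommRing K]

def F0 (w : K) (V : V6 K) : K := tau w 1 6 * (1 + w + w ^ 6) * d16 V +
  tau w 2 5 * (1 + w ^ 2 + w ^ 5) * d25 V + tau w 3 4 * (1 + w ^ 3 + w ^ 4) * d34 V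
def F1 (w : K) (V : V6 K) : K := tau w 2 6 * (1 + w ^ 2 + w ^ 6) * d26 V +
  tau w 3 5 * (1 + w ^ 3 + w ^ 5) * d35 V
def F2 (w : K) (V : V6 K) : K := tau w 3 6 * (1 + w ^ 3 + w ^ 6) * d36 V +
  tau w 4 5 * (1 + w ^ 4 + w ^ 5) * d45 V
def F3 (w : K) (V : V6 K) : K := tau w 1 2 * (1 + w + w ^ 2) * d12 V +
  tau w 4 6 * (1 + w ^ 4 + w ^ 6) * d46 V
def F4 (w : K) (V : V6 K) : K := tau w 1 3 * (1 + w + w ^ 3) * d13 V +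
  tau w 5 6 * (1 + w ^ 5 + w ^ 6) * d56 V
def F5 (w : K) (V : V6 K) : K := tau w 1 4 * (1 + w + w ^ 4) * d14 V +
  tau w 2 3 * (1 + w ^ 2 + w ^ 3) * d23 V
def F6 (w : K) (V : V6 K) : K := tau w 1 5 * (1 + w + w ^ 5) * d15 V +
  tau w 2 4 * (1 + w ^ 2 + w ^ 4) * d24 V

theorem br_F (V : V6 K) (w x : K) (hx : x ^ 7 = 1) :
    br (zz V x) (zz V (w * x)) (zz V (w ^ 3 * x)) =
      F0 w V + x * F1 w V + x ^ 2 * F2 w V + x ^ 3 * F3 w V + x ^ 4 * F4 w V +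
        x ^ 5 * F5 w V + x ^ 6 * F6 w V := by
  rw [bracket13]
  unfold F0 F1 F2 F3 F4 F5 F6 d16 d25 d34 d26 d35 d36 d45 d12 d46 d13 d56 d14 d23 d15 d24
  generalize tau w 1 2 * (1 + w + w ^ 2) * (V.a1 * V.b2 - V.b1 * V.a2) = t12
  generalize tau w 1 3 * (1 + w + w ^ 3) * (V.a1 * V.b3 - V.b1 * V.a3) = t13
  generalize tau w 1 4 * (1 + w + w ^ 4) * (V.a1 * V.b4 - V.b1 * V.a4) = t14
  generalize tau w 2 3 * (1 + w ^ 2 + w ^ 3) * (V.a2 * V.b3 - V.b2 * V.a3) = t23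
  generalize tau w 1 5 * (1 + w + w ^ 5) * (V.a1 * V.b5 - V.b1 * V.a5) = t15
  generalize tau w 2 4 * (1 + w ^ 2 + w ^ 4) * (V.a2 * V.b4 - V.b2 * V.a4) = t24
  generalize tau w 1 6 * (1 + w + w ^ 6) * (V.a1 * V.b6 - V.b1 * V.a6) = t16
  generalize tau w 2 5 * (1 + w ^ 2 + w ^ 5) * (V.a2 * V.b5 - V.b2 * V.a5) = t25
  generalize tau w 3 4 * (1 + w ^ 3 + w ^ 4) * (V.a3 * V.b4 - V.b3 * V.a4) = t34
  generalize tau w 2 6 * (1 + w ^ 2 + w ^ 6) * (V.a2 * V.b6 - V.b2 * V.a6) = t26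
  generalize tau w 3 5 * (1 + w ^ 3 + w ^ 5) * (V.a3 * V.b5 - V.b3 * V.a5) = t35
  generalize tau w 3 6 * (1 + w ^ 3 + w ^ 6) * (V.a3 * V.b6 - V.b3 * V.a6) = t36
  generalize tau w 4 5 * (1 + w ^ 4 + w ^ 5) * (V.a4 * V.b5 - V.b4 * V.a5) = t45
  generalize tau w 4 6 * (1 + w ^ 4 + w ^ 6) * (V.a4 * V.b6 - V.b4 * V.a6) = t46
  generalize tau w 5 6 * (1 + w ^ 5 + w ^ 6) * (V.a5 * V.b6 - V.b5 * V.a6) = t56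
  linear_combination (t16 + t25 + t34 + x * (t26 + t35) + x ^ 2 * (t36 + t45) + x ^ 3 * t46 +
    x ^ 4 * t56) * hx

theorem bk_F (V : V6 K) (z : K) (h7 : z ^ 7 = 1) (k n : ℕ) (x : K) (hx : x = z ^ n)
    (hn : 5 * (k + 5) % 7 = n % 7) :
    bk V z k = F0 (z ^ 5) V + x * F1 (z ^ 5) V + x ^ 2 * F2 (z ^ 5) V + x ^ 3 * F3 (z ^ 5) V +
      x ^ 4 * F4 (z ^ 5) V + x ^ 5 * F5 (z ^ 5) V + x ^ 6 * F6 (z ^ 5) V := by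
  have e : (z ^ 5) ^ (k + 5) = x := by
    rw [hx, ← pow_mul, ← Nat.div_add_mod (5 * (k + 5)) 7, hn]
    conv_rhs => rw [← Nat.div_add_mod n 7]
    rw [pow_add, pow_add, pow_mul, pow_mul, h7, one_pow, one_pow]
  have hx7 : x ^ 7 = 1 := by rw [hx, ← pow_mul, mul_comm, pow_mul, h7, one_pow]
  have e1 : (z ^ 5) ^ (k + 1 + 5) = z ^ 5 * x := by rw [← e]; ring
  have e3 : (z ^ 5) ^ (k + 3 + 5) = (z ^ 5) ^ 3 * x := by rw [← e]; ring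
  unfold bk pk
  rw [e, e1, e3]
  exact br_F V (z ^ 5) x hx7

theorem inv0 (V : V6 K) (z : K)
    (hz : z ^ 6 + z ^ 5 + z ^ 4 + z ^ 3 + z ^ 2 + z + 1 = 0) :
    7 * F0 (z ^ 5) V = z ^ 0 * bk V z 0 + z ^ 0 * bk V z 1 + z ^ 0 * bk V z 2 + z ^ 0 * bk V z 3
        + z ^ 0 * bk V z 4 + z ^ 0 * bk V z 5 + z ^ 0 * bk V z 6 := by
  have h7 := z_seven hz
  rw [bk_F V z h7 0 4 (z ^ 4) rfl rfl]
  rw [bk_F V z h7 1 2 (z ^ 2) rfl rfl]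
  rw [bk_F V z h7 2 0 (z ^ 0) rfl rfl]
  rw [bk_F V z h7 3 5 (z ^ 5) rfl rfl]
  rw [bk_F V z h7 4 3 (z ^ 3) rfl rfl]
  rw [bk_F V z h7 5 1 (z ^ 1) rfl rfl]
  rw [bk_F V z h7 6 6 (z ^ 6) rfl rfl]
  generalize F0 (z ^ 5) V = B0
  generalize F1 (z ^ 5) V = B1
  generalize F2 (z ^ 5) V = B2
  generalize F3 (z ^ 5) V = B3
  generalize F4 (z ^ 5) V = B4
  generalize F5 (z ^ 5) V = B5
  generalize F6 (z ^ 5) V = B6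
  linear_combination (-B6*z^30 + B6*z^29 - B5*z^24 - B6*z^24 + B5*z^23 + B6*z^22 - B5*z^19 -
      B4*z^18 + B5*z^18 - B6*z^18 + B4*z^17 - B5*z^17 + B5*z^16 + B6*z^15 - B4*z^14 - B5*z^14 +
      B4*z^13 + B5*z^13 - B3*z^12 - B5*z^12 - B6*z^12 + B3*z^11 - B4*z^11 + B5*z^11 - B5*z^10 -
      B3*z^9 + B4*z^9 + B3*z^8 + B5*z^8 + B6*z^8 - B4*z^7 - B5*z^7 - B2*z^6 - B3*z^6 + B5*z^6 -
      B6*z^6 + B2*z^5 + B4*z^5 - B5*z^5 - B2*z^4 + B3*z^4 - B4*z^4 + B2*z^3 - B3*z^3 - B2*z^2 +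
      B2*z + B3*z + B4*z + B5*z + B6*z - B1 - B2 - B3 - B4 - B5 - B6) * hz

theorem inv1 (V : V6 K) (z : K)
    (hz : z ^ 6 + z ^ 5 + z ^ 4 + z ^ 3 + z ^ 2 + z + 1 = 0) :
    7 * F1 (z ^ 5) V = z ^ 3 * bk V z 0 + z ^ 5 * bk V z 1 + z ^ 0 * bk V z 2 + z ^ 2 * bk V z 3
        + z ^ 4 * bk V z 4 + z ^ 6 * bk V z 5 + z ^ 1 * bk V z 6 := by
  have h7 := z_seven hz
  rw [bk_F V z h7 0 4 (z ^ 4) rfl rfl]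
  rw [bk_F V z h7 1 2 (z ^ 2) rfl rfl]
  rw [bk_F V z h7 2 0 (z ^ 0) rfl rfl]
  rw [bk_F V z h7 3 5 (z ^ 5) rfl rfl]
  rw [bk_F V z h7 4 3 (z ^ 3) rfl rfl]
  rw [bk_F V z h7 5 1 (z ^ 1) rfl rfl]
  rw [bk_F V z h7 6 6 (z ^ 6) rfl rfl]
  generalize F0 (z ^ 5) V = B0
  generalize F1 (z ^ 5) V = B1
  generalize F2 (z ^ 5) V = B2
  generalize F3 (z ^ 5) V = B3
  generalize F4 (z ^ 5) V = B4
  generalize F5 (z ^ 5) V = B5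
  generalize F6 (z ^ 5) V = B6
  linear_combination (-B6*z^31 + B6*z^30 - B6*z^26 - B5*z^25 + B6*z^25 + B5*z^24 - B6*z^24 +
      B6*z^23 - B5*z^21 - B6*z^21 + B5*z^20 + B6*z^20 - B4*z^19 - B6*z^19 + B4*z^18 - B5*z^18 +
      B6*z^18 - B6*z^17 - B4*z^16 + B5*z^16 + B4*z^15 + B6*z^15 - B5*z^14 - B6*z^14 - B3*z^13 -
      B4*z^13 + B6*z^13 + B3*z^12 + B5*z^12 - B6*z^12 - B3*z^11 + B4*z^11 - B5*z^11 + B3*z^10 -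
      B4*z^10 - B3*z^9 + B3*z^8 + B4*z^8 + B5*z^8 + B6*z^8 - B2*z^7 - B3*z^7 - B4*z^7 - B5*z^7 -
      B6*z^7 - 6*B1*z + B2*z + B3*z + B4*z + B5*z + B6*z - B0 + 6*B1 - B2 - B3 - B4 - B5 - B6) *
      hz

theorem inv2 (V : V6 K) (z : K)
    (hz : z ^ 6 + z ^ 5 + z ^ 4 + z ^ 3 + z ^ 2 + z + 1 = 0) :
    7 * F2 (z ^ 5) V = z ^ 6 * bk V z 0 + z ^ 3 * bk V z 1 + z ^ 0 * bk V z 2 + z ^ 4 * bk V z 3
        + z ^ 1 * bk V z 4 + z ^ 5 * bk V z 5 + z ^ 2 * bk V z 6 := by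
  have h7 := z_seven hz
  rw [bk_F V z h7 0 4 (z ^ 4) rfl rfl]
  rw [bk_F V z h7 1 2 (z ^ 2) rfl rfl]
  rw [bk_F V z h7 2 0 (z ^ 0) rfl rfl]
  rw [bk_F V z h7 3 5 (z ^ 5) rfl rfl]
  rw [bk_F V z h7 4 3 (z ^ 3) rfl rfl]
  rw [bk_F V z h7 5 1 (z ^ 1) rfl rfl]
  rw [bk_F V z h7 6 6 (z ^ 6) rfl rfl]
  generalize F0 (z ^ 5) V = B0
  generalize F1 (z ^ 5) V = B1
  generalize F2 (z ^ 5) V = B2
  generalize F3 (z ^ 5) V = B3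
  generalize F4 (z ^ 5) V = B4
  generalize F5 (z ^ 5) V = B5
  generalize F6 (z ^ 5) V = B6
  linear_combination (-B6*z^32 + B6*z^31 - B6*z^28 + B6*z^27 - B5*z^26 + B5*z^25 - B6*z^25 -
      B5*z^23 + B6*z^23 + B5*z^22 - B6*z^21 - B4*z^20 - B5*z^20 + B6*z^20 + B4*z^19 - B4*z^18 +
      B5*z^18 - B6*z^18 + B4*z^17 - B4*z^16 - B5*z^16 + B6*z^16 + B4*z^15 + B5*z^15 - B3*z^14 -
      B6*z^14 - B4*z^13 - B5*z^13 + B4*z^12 + B6*z^12 + B3*z^11 - B4*z^11 + B5*z^11 - B6*z^11 +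
      B4*z^10 - B5*z^10 - B4*z^9 - 3*B2*z^8 + B4*z^8 + B5*z^8 + B6*z^8 + 3*B2*z^7 - B3*z^7 -
      B4*z^7 - B5*z^7 - B6*z^7 - B1*z^4 + B1*z - 6*B2*z + B3*z + B4*z + B5*z + B6*z - B0 - B1 +
      6*B2 - B3 - B4 - B5 - B6) * hz

theorem inv3 (V : V6 K) (z : K)
    (hz : z ^ 6 + z ^ 5 + z ^ 4 + z ^ 3 + z ^ 2 + z + 1 = 0) :
    7 * F3 (z ^ 5) V = z ^ 2 * bk V z 0 + z ^ 1 * bk V z 1 + z ^ 0 * bk V z 2 + z ^ 6 * bk V z 3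
        + z ^ 5 * bk V z 4 + z ^ 4 * bk V z 5 + z ^ 3 * bk V z 6 := by
  have h7 := z_seven hz
  rw [bk_F V z h7 0 4 (z ^ 4) rfl rfl]
  rw [bk_F V z h7 1 2 (z ^ 2) rfl rfl]
  rw [bk_F V z h7 2 0 (z ^ 0) rfl rfl]
  rw [bk_F V z h7 3 5 (z ^ 5) rfl rfl]
  rw [bk_F V z h7 4 3 (z ^ 3) rfl rfl]
  rw [bk_F V z h7 5 1 (z ^ 1) rfl rfl]
  rw [bk_F V z h7 6 6 (z ^ 6) rfl rfl]
  generalize F0 (z ^ 5) V = B0
  generalize F1 (z ^ 5) V = B1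
  generalize F2 (z ^ 5) V = B2
  generalize F3 (z ^ 5) V = B3
  generalize F4 (z ^ 5) V = B4
  generalize F5 (z ^ 5) V = B5
  generalize F6 (z ^ 5) V = B6
  linear_combination (-B6*z^33 + B6*z^32 - B6*z^30 + B6*z^29 - B5*z^27 + B5*z^26 - B6*z^26 -
      B5*z^25 + B6*z^25 + B5*z^24 - B6*z^23 + B6*z^22 - B4*z^21 - B5*z^20 - B6*z^20 + B4*z^19 +
      B5*z^19 - B5*z^18 + B6*z^18 + B5*z^17 - B6*z^17 - B5*z^16 - 2*B3*z^15 + B5*z^15 + B6*z^15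
      + 2*B3*z^14 - B4*z^14 - B5*z^14 - B6*z^13 + B5*z^12 - B5*z^11 + B6*z^11 - B2*z^10 +
      B4*z^10 + B5*z^10 - B6*z^10 - B5*z^9 + B2*z^8 - 4*B3*z^8 + B5*z^8 + B6*z^8 + 4*B3*z^7 -
      B4*z^7 - B5*z^7 - B6*z^7 - B1*z^5 - B2*z^5 + B1*z^4 - B1*z^3 + B1*z + B2*z - 6*B3*z + B4*z
      + B5*z + B6*z - B0 - B1 - B2 + 6*B3 - B4 - B5 - B6) * hz

theorem inv4 (V : V6 K) (z : K)
    (hz : z ^ 6 + z ^ 5 + z ^ 4 + z ^ 3 + z ^ 2 + z + 1 = 0) :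
    7 * F4 (z ^ 5) V = z ^ 5 * bk V z 0 + z ^ 6 * bk V z 1 + z ^ 0 * bk V z 2 + z ^ 1 * bk V z 3
        + z ^ 2 * bk V z 4 + z ^ 3 * bk V z 5 + z ^ 4 * bk V z 6 := by
  have h7 := z_seven hz
  rw [bk_F V z h7 0 4 (z ^ 4) rfl rfl]
  rw [bk_F V z h7 1 2 (z ^ 2) rfl rfl]
  rw [bk_F V z h7 2 0 (z ^ 0) rfl rfl]
  rw [bk_F V z h7 3 5 (z ^ 5) rfl rfl]
  rw [bk_F V z h7 4 3 (z ^ 3) rfl rfl]
  rw [bk_F V z h7 5 1 (z ^ 1) rfl rfl]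
  rw [bk_F V z h7 6 6 (z ^ 6) rfl rfl]
  generalize F0 (z ^ 5) V = B0
  generalize F1 (z ^ 5) V = B1
  generalize F2 (z ^ 5) V = B2
  generalize F3 (z ^ 5) V = B3
  generalize F4 (z ^ 5) V = B4
  generalize F5 (z ^ 5) V = B5
  generalize F6 (z ^ 5) V = B6
  linear_combination (-B6*z^34 + B6*z^33 - B5*z^28 + B5*z^27 - B6*z^27 + B6*z^26 - B6*z^25 +
      B6*z^24 - B6*z^23 - B4*z^22 + B6*z^22 + B4*z^21 - B5*z^21 - B6*z^20 + B6*z^19 + B5*z^18 -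
      B6*z^18 + B6*z^17 - B3*z^16 - B6*z^16 + B3*z^15 - 3*B4*z^15 + B6*z^15 + 3*B4*z^14 -
      B5*z^14 - B6*z^14 - B3*z^11 - B2*z^10 + B6*z^10 + B2*z^9 + B5*z^9 - B6*z^9 + B3*z^8 -
      5*B4*z^8 + B6*z^8 - B2*z^7 + 5*B4*z^7 - B5*z^7 - B6*z^7 + B2*z^6 - B3*z^6 - B2*z^5 -
      B1*z^4 + B1*z + B2*z + B3*z - 6*B4*z + B5*z + B6*z - B0 - B1 - B2 - B3 + 6*B4 - B5 - B6) *
      hz

theorem inv5 (V : V6 K) (z : K)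
    (hz : z ^ 6 + z ^ 5 + z ^ 4 + z ^ 3 + z ^ 2 + z + 1 = 0) :
    7 * F5 (z ^ 5) V = z ^ 1 * bk V z 0 + z ^ 4 * bk V z 1 + z ^ 0 * bk V z 2 + z ^ 3 * bk V z 3
        + z ^ 6 * bk V z 4 + z ^ 2 * bk V z 5 + z ^ 5 * bk V z 6 := by
  have h7 := z_seven hz
  rw [bk_F V z h7 0 4 (z ^ 4) rfl rfl]
  rw [bk_F V z h7 1 2 (z ^ 2) rfl rfl]
  rw [bk_F V z h7 2 0 (z ^ 0) rfl rfl]
  rw [bk_F V z h7 3 5 (z ^ 5) rfl rfl]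
  rw [bk_F V z h7 4 3 (z ^ 3) rfl rfl]
  rw [bk_F V z h7 5 1 (z ^ 1) rfl rfl]
  rw [bk_F V z h7 6 6 (z ^ 6) rfl rfl]
  generalize F0 (z ^ 5) V = B0
  generalize F1 (z ^ 5) V = B1
  generalize F2 (z ^ 5) V = B2
  generalize F3 (z ^ 5) V = B3
  generalize F4 (z ^ 5) V = B4
  generalize F5 (z ^ 5) V = B5
  generalize F6 (z ^ 5) V = B6
  linear_combination (-B6*z^35 + B6*z^34 - B5*z^29 + B5*z^28 - B6*z^28 + B6*z^26 - B4*z^23 +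
      B4*z^22 - 2*B5*z^22 + 2*B5*z^21 - B6*z^21 - B3*z^17 - B4*z^17 + B6*z^17 + B3*z^16 +
      B4*z^15 - 4*B5*z^15 + 4*B5*z^14 - B6*z^14 - B3*z^12 - B4*z^12 - B2*z^11 + B3*z^11 +
      B2*z^10 - B3*z^10 + B6*z^9 + B3*z^8 + B4*z^8 - 5*B5*z^8 - B2*z^7 - B3*z^7 + 5*B5*z^7 -
      B6*z^7 + B3*z^6 - B4*z^6 - B1*z^5 + B2*z^5 - B3*z^5 + B1*z^4 - B2*z^4 - B1*z^3 + B1*z +
      B2*z + B3*z + B4*z - 6*B5*z + B6*z - B0 - B1 - B2 - B3 - B4 + 6*B5 - B6) * hz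

theorem inv6 (V : V6 K) (z : K)
    (hz : z ^ 6 + z ^ 5 + z ^ 4 + z ^ 3 + z ^ 2 + z + 1 = 0) :
    7 * F6 (z ^ 5) V = z ^ 4 * bk V z 0 + z ^ 2 * bk V z 1 + z ^ 0 * bk V z 2 + z ^ 5 * bk V z 3
        + z ^ 3 * bk V z 4 + z ^ 1 * bk V z 5 + z ^ 6 * bk V z 6 := by
  have h7 := z_seven hz
  rw [bk_F V z h7 0 4 (z ^ 4) rfl rfl]
  rw [bk_F V z h7 1 2 (z ^ 2) rfl rfl]
  rw [bk_F V z h7 2 0 (z ^ 0) rfl rfl]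
  rw [bk_F V z h7 3 5 (z ^ 5) rfl rfl]
  rw [bk_F V z h7 4 3 (z ^ 3) rfl rfl]
  rw [bk_F V z h7 5 1 (z ^ 1) rfl rfl]
  rw [bk_F V z h7 6 6 (z ^ 6) rfl rfl]
  generalize F0 (z ^ 5) V = B0
  generalize F1 (z ^ 5) V = B1
  generalize F2 (z ^ 5) V = B2
  generalize F3 (z ^ 5) V = B3
  generalize F4 (z ^ 5) V = B4
  generalize F5 (z ^ 5) V = B5
  generalize F6 (z ^ 5) V = B6
  linear_combination (-B6*z^36 + B6*z^35 - B5*z^30 + B5*z^29 - 2*B6*z^29 + 2*B6*z^28 - B4*z^24 -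
      B5*z^24 + B4*z^23 + B5*z^22 - 3*B6*z^22 + 3*B6*z^21 - B4*z^19 - B3*z^18 + B4*z^18 -
      B5*z^18 + B3*z^17 - B4*z^17 + B4*z^16 + B5*z^15 - 4*B6*z^15 - B3*z^14 - B4*z^14 +
      4*B6*z^14 + B3*z^13 + B4*z^13 - B2*z^12 - B4*z^12 - B5*z^12 + B2*z^11 - B3*z^11 + B4*z^11
      - B4*z^10 - B2*z^9 + B3*z^9 + B2*z^8 + B4*z^8 + B5*z^8 - 5*B6*z^8 - B3*z^7 - B4*z^7 +
      5*B6*z^7 - B1*z^6 - B2*z^6 + B4*z^6 - B5*z^6 + B1*z^5 + B3*z^5 - B4*z^5 - B1*z^4 + B2*z^4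
      - B3*z^4 + B1*z^3 - B2*z^3 - B1*z^2 + B1*z + B2*z + B3*z + B4*z + B5*z - 6*B6*z - B0 - B1
      - B2 - B3 - B4 - B5 + 6*B6) * hz

end

section

variable {K : Type*} [Field K]

theorem mem_of_mul {E : Subfield K} {a x : K} (ha : a ∈ E) (h0 : a ≠ 0) (h : a * x ∈ E) :
    x ∈ E := by
  have : x = a * x / a := by field_simp
  rw [this]
  exact E.div_mem h ha

theorem mem_inv {E : Subfield K} [CharZero K] {z F : K} (hz : z ∈ E) (b : ℕ → K)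
    (hb : ∀ k, b k ∈ E) (n0 n1 n2 n3 n4 n5 n6 : ℕ)
    (h : 7 * F = z ^ n0 * b 0 + z ^ n1 * b 1 + z ^ n2 * b 2 + z ^ n3 * b 3 + z ^ n4 * b 4 +
      z ^ n5 * b 5 + z ^ n6 * b 6) : F ∈ E := by
  have h7 : (7 : K) ∈ E := by
    have : (7 : K) = ((7 : ℕ) : K) := by norm_num
    rw [this]
    exact natCast_mem E 7
  refine mem_of_mul h7 (by norm_num) ?_
  rw [h]
  have hm : ∀ n k : ℕ, z ^ n * b k ∈ E := fun n k => E.mul_mem (E.pow_mem hz n) (hb k)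
  exact E.add_mem (E.add_mem (E.add_mem (E.add_mem (E.add_mem (E.add_mem (hm _ _) (hm _ _))
    (hm _ _)) (hm _ _)) (hm _ _)) (hm _ _)) (hm _ _)

end

section

variable {K : Type*} [Field K] [CharZero K]

theorem ne_of_inv {a b : K} {n : ℕ} (hn : n ≠ 0) (h : a * b = n) : a ≠ 0 := by
  rintro rfl
  rw [zero_mul] at h
  exact hn (by exact_mod_cast h.symm)

variable {z : K}

theorem nz14 (hz : z ^ 6 + z ^ 5 + z ^ 4 + z ^ 3 + z ^ 2 + z + 1 = 0) :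
    (z ^ 5) ^ 2 + (z ^ 5) ^ 3 - z ^ 5 - (z ^ 5) ^ 4 ≠ 0 :=
  ne_of_inv (n := 7) (b := -4*z^5 - 2*z^3 - 3*z^2 - 3*z - 2) (by norm_num) (by
    push_cast
    linear_combination (4*z^19 - 4*z^18 + 2*z^17 + z^16 - 5*z^14 + 2*z^13 + 2*z^12 - 5*z^11 +
      2*z^10 - 2*z^9 + 6*z^8 - 7*z^7 + z^6 + 2*z^5 + 7*z - 7) * hz)

theorem nz36 (hz : z ^ 6 + z ^ 5 + z ^ 4 + z ^ 3 + z ^ 2 + z + 1 = 0) :
    (z ^ 5) ^ 4 + (z ^ 5) ^ 5 - (z ^ 5) ^ 3 - (z ^ 5) ^ 6 ≠ 0 :=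
  ne_of_inv (n := 7) (b := z^4 + 3*z^3 - z^2 + 3*z + 1) (by norm_num) (by
    push_cast
    linear_combination (-z^28 - 2*z^27 + 4*z^26 - 4*z^25 + 2*z^24 + 2*z^23 + 2*z^22 - 5*z^21 +
      2*z^20 + 2*z^19 - 4*z^18 + 4*z^17 - 2*z^16 + 6*z^15 - 7*z^14 + 7*z^8 - 7*z^7 + 7*z
      - 7) * hz)

theorem nz46 (hz : z ^ 6 + z ^ 5 + z ^ 4 + z ^ 3 + z ^ 2 + z + 1 = 0) :
    (z ^ 5) ^ 4 + (z ^ 5) ^ 6 - z ^ 5 - (z ^ 5) ^ 2 ≠ 0 :=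
  ne_of_inv (n := 7) (b := 2*z^5 - z^4 - 2*z^3 - z^2 + 2*z) (by norm_num) (by
    push_cast
    linear_combination (2*z^29 - 3*z^28 - z^27 + z^26 + 3*z^25 - 2*z^24 + 2*z^22 - 3*z^21 -
      z^20 + 3*z^19 - 3*z^17 + z^16 + 5*z^15 - 5*z^14 - z^13 + 3*z^12 - 3*z^10 - z^9 +
      8*z^8 - 4*z^7 - 2*z^6 + 7*z - 7) * hz)

theorem nz13 (hz : z ^ 6 + z ^ 5 + z ^ 4 + z ^ 3 + z ^ 2 + z + 1 = 0) :
    z ^ 5 + (z ^ 5) ^ 3 - (z ^ 5) ^ 5 - (z ^ 5) ^ 6 ≠ 0 :=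
  ne_of_inv (n := 7) (b := -3*z^5 - 4*z^4 - 3*z^3 - 2*z - 2) (by norm_num) (by
    push_cast
    linear_combination (3*z^29 + z^28 - z^27 - 3*z^26 + 2*z^25 + 3*z^24 - z^23 + 2*z^22 -
      2*z^21 + z^20 - 3*z^19 + 3*z^17 - z^16 + 2*z^15 - 5*z^14 - 2*z^12 + 3*z^11 + z^10 -
      z^9 + 4*z^8 - 5*z^7 - 2*z^5 + 7*z - 7) * hz)

theorem nzs (hz : z ^ 6 + z ^ 5 + z ^ 4 + z ^ 3 + z ^ 2 + z + 1 = 0) : z ^ 6 - z ≠ 0 :=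
  ne_of_inv (n := 7) (b := 4*z^5 + z^4 + 5*z^3 + 2*z^2 + 6*z + 3) (by norm_num) (by
    push_cast
    linear_combination (4*z^5 - 3*z^4 + 4*z^3 - 3*z^2 + 4*z - 7) * hz)

theorem nzz (hz : z ^ 6 + z ^ 5 + z ^ 4 + z ^ 3 + z ^ 2 + z + 1 = 0) : z ≠ 0 := by
  rintro rfl
  norm_num at hz

theorem nzh {h : K} (hr : h ^ 3 + h ^ 2 - 2 * h - 1 = 0) : h ≠ 0 := by
  rintro rfl
  norm_num at hr

theorem nzk {h : K} (hr : h ^ 3 + h ^ 2 - 2 * h - 1 = 0) : h ^ 2 - 1 ≠ 0 :=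
  ne_of_inv (n := 1) (b := h ^ 2 + h - 1) (by norm_num) (by
    push_cast
    linear_combination h * hr)

theorem nzd {h : K} (hr : h ^ 3 + h ^ 2 - 2 * h - 1 = 0) : 12 * h ^ 2 - 10 * h - 7 ≠ 0 :=
  ne_of_inv (n := 7) (b := 16 * h ^ 2 + 6 * h - 41) (by norm_num) (by
    push_cast
    linear_combination (192 * h - 280) * hr)

end

section

variable {K : Type*} [Field K] {z h : K} {V : V6 K}

theorem id14 (hz : z ^ 6 + z ^ 5 + z ^ 4 + z ^ 3 + z ^ 2 + z + 1 = 0) (hh : h = z + z ^ 6)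
    (hg : Good h V) :
    z ^ 4 * (z ^ 6 - z) ^ 3 * (h ^ 2 - 1) ^ 2 *
      ((z ^ 5) ^ 2 + (z ^ 5) ^ 3 - z ^ 5 - (z ^ 5) ^ 4) * d14 V = F5 (z ^ 5) V := by
  unfold F5
  rw [tau_14 hz hh, tau_23 hz hh]
  have e := hg.r14
  generalize (z ^ 6 - z) ^ 3 = c
  linear_combination (z ^ 4 * c * (h ^ 2 - 1) * (1 + (z ^ 5) ^ 2 + (z ^ 5) ^ 3)) * e

theorem id36 (hz : z ^ 6 + z ^ 5 + z ^ 4 + z ^ 3 + z ^ 2 + z + 1 = 0) (hh : h = z + z ^ 6)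
    (hg : Good h V) :
    z ^ 3 * (z ^ 6 - z) ^ 3 * (h ^ 2 - 1) ^ 2 *
      ((z ^ 5) ^ 4 + (z ^ 5) ^ 5 - (z ^ 5) ^ 3 - (z ^ 5) ^ 6) * d36 V = F2 (z ^ 5) V := by
  unfold F2
  rw [tau_36 hz hh, tau_45 hz hh]
  have e := hg.r36
  generalize (z ^ 6 - z) ^ 3 = c
  linear_combination (z ^ 3 * c * (h ^ 2 - 1) * (1 + (z ^ 5) ^ 4 + (z ^ 5) ^ 5)) * e

theorem id46 (hz : z ^ 6 + z ^ 5 + z ^ 4 + z ^ 3 + z ^ 2 + z + 1 = 0) (hh : h = z + z ^ 6) :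
    z * (z ^ 6 - z) ^ 3 * h * (h ^ 2 - 1) *
      ((z ^ 5) ^ 4 + (z ^ 5) ^ 6 - z ^ 5 - (z ^ 5) ^ 2) * d46 V =
    F3 (z ^ 5) V - (1 + z ^ 5 + (z ^ 5) ^ 2) * (z * XV z h V) := by
  unfold F3 XV
  rw [tau_12 hz hh, tau_46 hz hh]
  generalize (z ^ 6 - z) ^ 3 = c
  ring

theorem id13 (hz : z ^ 6 + z ^ 5 + z ^ 4 + z ^ 3 + z ^ 2 + z + 1 = 0) (hh : h = z + z ^ 6) :
    z ^ 6 * (z ^ 6 - z) ^ 3 * h * (h ^ 2 - 1) *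
      (z ^ 5 + (z ^ 5) ^ 3 - (z ^ 5) ^ 5 - (z ^ 5) ^ 6) * d13 V =
    F4 (z ^ 5) V - (1 + (z ^ 5) ^ 5 + (z ^ 5) ^ 6) * (z ^ 6 * YV z h V) := by
  unfold F4 YV
  rw [tau_13 hz hh, tau_56 hz hh]
  generalize (z ^ 6 - z) ^ 3 = c
  ring

theorem F0_eq (hz : z ^ 6 + z ^ 5 + z ^ 4 + z ^ 3 + z ^ 2 + z + 1 = 0) (hh : h = z + z ^ 6) :
    F0 (z ^ 5) V = (z ^ 6 - z) ^ 3 * (h * (h ^ 2 - 1) * d16 V -
      h ^ 2 * (h ^ 2 - 1) * (2 - h - h ^ 2) * d25 V - (h ^ 2 - 1) ^ 2 * (1 + h) * d34 V) := by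
  have e1 : 1 + z ^ 5 + (z ^ 5) ^ 6 = h ^ 2 - 1 := by
    subst hh
    linear_combination (z^24 - z^23 + z^17 - z^16 + z^10 - z^9 - z^6 + z^5 + z^3 - z^2 -
      2*z + 2) * hz
  have e2 : 1 + (z ^ 5) ^ 2 + (z ^ 5) ^ 5 = 2 - h - h ^ 2 := by
    subst hh
    linear_combination (z^19 - z^18 + z^12 - z^11 + z^6 - z^3 + 2*z - 1) * hz
  have e3 : 1 + (z ^ 5) ^ 3 + (z ^ 5) ^ 4 = 1 + h := by
    subst hh
    linear_combination (z^14 - z^13 + z^9 - z^8 + z^7 - z^6 + z^2 - z) * hz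
  unfold F0
  rw [tau_16 hz hh, tau_25 hz hh, tau_34 hz hh, e1, e2, e3]
  generalize (z ^ 6 - z) ^ 3 = c
  ring

theorem id34 (hz : z ^ 6 + z ^ 5 + z ^ 4 + z ^ 3 + z ^ 2 + z + 1 = 0) (hh : h = z + z ^ 6)
    (hg : Good h V) :
    7 * (z ^ 6 - z) * (z ^ 6 - z) ^ 3 * (12 * h ^ 2 - 10 * h - 7) * d34 V =
      7 * (z ^ 6 - z) * (-(h * (h ^ 2 - 1) ^ 2)) * F0 (z ^ 5) V +
        (z ^ 6 - z) ^ 3 * (h ^ 3 * (h ^ 2 - 1) * (3 - h - 2 * h ^ 2)) * AV z h V := by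
  have hr := rel_of_z hz hh
  rw [F0_eq hz hh]
  unfold AV
  have e := hg.r16
  generalize z ^ 6 - z = s
  linear_combination (-(7 * s * s ^ 3 * (h^8 + h^7 - 2*h^6 - 2*h^5 - 2*h^4 + 4*h^3 + 2*h - 7) *
    d34 V)) * hr + (7 * s * s ^ 3 * (-(h * (h ^ 2 - 1) ^ 2 -
      h ^ 3 * (h ^ 2 - 1) * (2 - h - h ^ 2)))) * e

end

end AuxFourier

open AuxFourier in
theorem pr_Fourier (h1 : StCorner) : StFourier := by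
  have _ := h1
  intro K _ _ z h V hz hh hg E hzE hA hX hY hb
  have hr := rel_of_z hz hh
  have hF : F0 (z ^ 5) V ∈ E ∧ F2 (z ^ 5) V ∈ E ∧ F3 (z ^ 5) V ∈ E ∧ F4 (z ^ 5) V ∈ E ∧
      F5 (z ^ 5) V ∈ E :=
    ⟨mem_inv hzE (bk V z) hb _ _ _ _ _ _ _ (inv0 V z hz),
      mem_inv hzE (bk V z) hb _ _ _ _ _ _ _ (inv2 V z hz),
      mem_inv hzE (bk V z) hb _ _ _ _ _ _ _ (inv3 V z hz),
      mem_inv hzE (bk V z) hb _ _ _ _ _ _ _ (inv4 V z hz),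
      mem_inv hzE (bk V z) hb _ _ _ _ _ _ _ (inv5 V z hz)⟩
  obtain ⟨hF0, hF2, hF3, hF4, hF5⟩ := hF
  have hhE : h ∈ E := by rw [hh]; exact E.add_mem hzE (E.pow_mem hzE 6)
  have hn : ∀ n : ℕ, (n : K) ∈ E := fun n => natCast_mem E n
  have h1E : (1 : K) ∈ E := E.one_mem
  have hw : ∀ n : ℕ, (z ^ 5) ^ n ∈ E := fun n => E.pow_mem (E.pow_mem hzE 5) n
  have hw1 : z ^ 5 ∈ E := E.pow_mem hzE 5
  have hs : z ^ 6 - z ∈ E := E.sub_mem (E.pow_mem hzE 6) hzE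
  have hk : h ^ 2 - 1 ∈ E := E.sub_mem (E.pow_mem hhE 2) h1E
  have zz := nzz hz
  have ss := nzs hz
  have h0 := nzh hr
  have k0 := nzk hr
  have h7 : (7 : K) ∈ E := by exact_mod_cast hn 7
  have h12 : (12 : K) ∈ E := by exact_mod_cast hn 12
  have h10 : (10 : K) ∈ E := by exact_mod_cast hn 10
  have h3 : (3 : K) ∈ E := by exact_mod_cast hn 3
  have h2 : (2 : K) ∈ E := by exact_mod_cast hn 2
  refine ⟨?_, ?_, ?_, ?_, ?_⟩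
  · have hd := nzd hr
    refine mem_of_mul (a := 7 * (z ^ 6 - z) * (z ^ 6 - z) ^ 3 * (12 * h ^ 2 - 10 * h - 7))
      ?_ ?_ ?_
    · exact E.mul_mem (E.mul_mem (E.mul_mem h7 hs) (E.pow_mem hs 3))
        (E.sub_mem (E.sub_mem (E.mul_mem h12 (E.pow_mem hhE 2)) (E.mul_mem h10 hhE)) h7)
    · exact mul_ne_zero (mul_ne_zero (mul_ne_zero (by norm_num) ss) (pow_ne_zero 3 ss)) hd
    · rw [id34 hz hh hg]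
      exact E.add_mem (E.mul_mem (E.mul_mem (E.mul_mem h7 hs)
        (E.neg_mem (E.mul_mem hhE (E.pow_mem hk 2)))) hF0)
        (E.mul_mem (E.mul_mem (E.pow_mem hs 3) (E.mul_mem (E.mul_mem (E.pow_mem hhE 3) hk)
          (E.sub_mem (E.sub_mem h3 hhE) (E.mul_mem h2 (E.pow_mem hhE 2))))) hA)
  · refine mem_of_mul (a := z ^ 4 * (z ^ 6 - z) ^ 3 * (h ^ 2 - 1) ^ 2 *
      ((z ^ 5) ^ 2 + (z ^ 5) ^ 3 - z ^ 5 - (z ^ 5) ^ 4)) ?_ ?_ ?_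
    · exact E.mul_mem (E.mul_mem (E.mul_mem (E.pow_mem hzE 4) (E.pow_mem hs 3))
        (E.pow_mem hk 2)) (E.sub_mem (E.sub_mem (E.add_mem (hw 2) (hw 3)) hw1) (hw 4))
    · exact mul_ne_zero (mul_ne_zero (mul_ne_zero (pow_ne_zero 4 zz) (pow_ne_zero 3 ss))
        (pow_ne_zero 2 k0)) (nz14 hz)
    · rw [id14 hz hh hg]
      exact hF5
  · refine mem_of_mul (a := z ^ 3 * (z ^ 6 - z) ^ 3 * (h ^ 2 - 1) ^ 2 *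
      ((z ^ 5) ^ 4 + (z ^ 5) ^ 5 - (z ^ 5) ^ 3 - (z ^ 5) ^ 6)) ?_ ?_ ?_
    · exact E.mul_mem (E.mul_mem (E.mul_mem (E.pow_mem hzE 3) (E.pow_mem hs 3))
        (E.pow_mem hk 2)) (E.sub_mem (E.sub_mem (E.add_mem (hw 4) (hw 5)) (hw 3)) (hw 6))
    · exact mul_ne_zero (mul_ne_zero (mul_ne_zero (pow_ne_zero 3 zz) (pow_ne_zero 3 ss))
        (pow_ne_zero 2 k0)) (nz36 hz)
    · rw [id36 hz hh hg]
      exact hF2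
  · refine mem_of_mul (a := z * (z ^ 6 - z) ^ 3 * h * (h ^ 2 - 1) *
      ((z ^ 5) ^ 4 + (z ^ 5) ^ 6 - z ^ 5 - (z ^ 5) ^ 2)) ?_ ?_ ?_
    · exact E.mul_mem (E.mul_mem (E.mul_mem (E.mul_mem hzE (E.pow_mem hs 3)) hhE) hk)
        (E.sub_mem (E.sub_mem (E.add_mem (hw 4) (hw 6)) hw1) (hw 2))
    · exact mul_ne_zero (mul_ne_zero (mul_ne_zero (mul_ne_zero zz (pow_ne_zero 3 ss)) h0) k0)
        (nz46 hz)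
    · rw [id46 hz hh]
      exact E.sub_mem hF3 (E.mul_mem (E.add_mem (E.add_mem h1E hw1) (hw 2))
        (E.mul_mem hzE hX))
  · refine mem_of_mul (a := z ^ 6 * (z ^ 6 - z) ^ 3 * h * (h ^ 2 - 1) *
      (z ^ 5 + (z ^ 5) ^ 3 - (z ^ 5) ^ 5 - (z ^ 5) ^ 6)) ?_ ?_ ?_
    · exact E.mul_mem (E.mul_mem (E.mul_mem (E.mul_mem (E.pow_mem hzE 6) (E.pow_mem hs 3))
        hhE) hk) (E.sub_mem (E.sub_mem (E.add_mem hw1 (hw 3)) (hw 5)) (hw 6))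
    · exact mul_ne_zero (mul_ne_zero (mul_ne_zero (mul_ne_zero (pow_ne_zero 6 zz)
        (pow_ne_zero 3 ss)) h0) k0) (nz13 hz)
    · rw [id13 hz hh]
      exact E.sub_mem hF4 (E.mul_mem (E.add_mem (E.add_mem h1E (hw 5)) (hw 6))
        (E.mul_mem (E.pow_mem hzE 6) hY))

end Pool.Agent.Work.MP_c5a777_ag.Sev
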