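import Pool.Agent.Work.MP_c5a777_ag.Bdx.B02

set_option autoImplicit false

/-!
# Item GoodV: the explicit vectors satisfy the relations, and their Fourier coefficients
-/

namespace Pool.Agent.Work.MP_c5a777_ag.Sev

namespace AuxGoodV

section

variable {K : Type*} [Field K]

/-- The abstract form of the vectors. -/
def W (l f q1 q2 q6 p1 p5 p6 : K) : V6 K where
  a1 := l * q1
  a2 := l * q2
  a3 := l
  a4 := 0
  a5 := l * (-(f * p6))
  a6 := l * q6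
  b1 := p1
  b2 := -(f * q1)
  b3 := 0
  b4 := 1
  b5 := p5
  b6 := p6

theorem good_abs (h m n k f l q1 q2 q6 p1 p5 p6 D T : K) (hk : k = h ^ 2 - 1) (hf : h * f = k)
    (hD : D ≠ 0) (hDm : D = h ^ 2 - m) (h16 : q1 * p6 = m) (h61 : p1 * q6 = n)
    (h2 : D * q2 = f * (q1 ^ 2 * q6 + h * p1 * p6))
    (h5 : D * p5 = f * (p1 * p6 ^ 2 + h * q1 * q6))
    (h25 : q2 * p5 = f ^ 2 * (m * n * T))
    (hn : n * h + k ^ 3 * (m * n * T) = h * m + k ^ 3 * m - k ^ 2) :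
    Good h (W l f q1 q2 q6 p1 p5 p6) := by
  have e26 : q2 * p6 + f * q1 * q6 = h * p5 := by
    apply mul_left_cancel₀ hD
    linear_combination p6 * h2 - h * h5 + (f * q1 * q6) * h16 + (f * q1 * q6) * hDm
  have e15 : q1 * p5 + f * p1 * p6 = h * q2 := by
    apply mul_left_cancel₀ hD
    linear_combination q1 * h5 - h * h2 + (f * p1 * p6) * h16 + (f * p1 * p6) * hDm
  refine ⟨?_, ?_, ?_, ?_, ?_⟩
  · simp only [W, d26, d35]
    linear_combination l * e26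
  · simp only [W, d15, d24]
    linear_combination l * e15
  · simp only [W, d36, d45]
    linear_combination (-(l * p6)) * hk - (l * p6) * hf
  · simp only [W, d14, d23]
    linear_combination (-(l * q1)) * hk - (l * q1) * hf
  · simp only [W, d16, d25, d34]
    have e : h * (q1 * p6 - p1 * q6) - h ^ 2 * k * (q2 * p5 - f ^ 2 * (q1 * p6)) - k ^ 2 = 0 := by
      rw [h16, h61, h25]
      have hf2 : h ^ 2 * f ^ 2 = k ^ 2 := by rw [← hf]; ring
      linear_combination (-hn) + (-(k * (m * n * T)) + k * m) * hf2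
    rw [← hk]
    linear_combination l * e

/-- The difference of the sixth power and the first power is not zero. -/
theorem s_ne [CharZero K] {z h : K} (hz : z ^ 6 + z ^ 5 + z ^ 4 + z ^ 3 + z ^ 2 + z + 1 = 0)
    (hh : h = z + z ^ 6) : z ^ 6 - z ≠ 0 := by
  intro h0
  have hs := s1_sq hz hh
  rw [h0] at hs
  have hr := rel_of_z hz hh
  have h7 : (7 : K) = 0 := by
    linear_combination (2 * h - 3) * hr + ((2 * h - 3) * (h + 1) + 4) * hs
  norm_num at h7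

theorem h_ne [CharZero K] {h : K} (hr : Rel h) : h ≠ 0 := by
  intro h0
  unfold Rel at hr
  rw [h0] at hr
  norm_num at hr

theorem VV_eq (h m e g l : K) : VV h m e g l =
    W l ((h ^ 2 - 1) / h) (g ^ 2 * m / (e * nn h m e))
      ((h ^ 2 - 1) / h * ((g ^ 2 * m / (e * nn h m e)) ^ 2 *
        (e * nn h m e ^ 2 / (g ^ 3 * m)) + h * (g ^ 3 * m / (e * nn h m e)) *
        (e * nn h m e / g ^ 2)) / (h ^ 2 - m))
      (e * nn h m e ^ 2 / (g ^ 3 * m)) (g ^ 3 * m / (e * nn h m e))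
      ((h ^ 2 - 1) / h * ((g ^ 3 * m / (e * nn h m e)) * (e * nn h m e / g ^ 2) ^ 2 +
        h * (g ^ 2 * m / (e * nn h m e)) * (e * nn h m e ^ 2 / (g ^ 3 * m))) / (h ^ 2 - m))
      (e * nn h m e / g ^ 2) := rfl

/-- The relations between the scalars. -/
structure Sc (h m e n f q1 q2 q6 p1 p5 p6 D : K) : Prop where
  h16 : q1 * p6 = m
  h61 : p1 * q6 = n
  h3 : q1 ^ 3 * q6 ^ 2 = m * n / e
  h4 : p1 ^ 2 * p6 ^ 3 = m ^ 2 * (e * n)
  h2 : D * q2 = f * (q1 ^ 2 * q6 + h * p1 * p6)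
  h5 : D * p5 = f * (p1 * p6 ^ 2 + h * q1 * q6)

theorem sc (h m e g n f D : K) (hm : m ≠ 0) (he : e ≠ 0) (hg : g ≠ 0) (hn : n ≠ 0)
    (hD : D ≠ 0) : Sc h m e n f (g ^ 2 * m / (e * n))
      (f * ((g ^ 2 * m / (e * n)) ^ 2 * (e * n ^ 2 / (g ^ 3 * m)) +
        h * (g ^ 3 * m / (e * n)) * (e * n / g ^ 2)) / D)
      (e * n ^ 2 / (g ^ 3 * m)) (g ^ 3 * m / (e * n))
      (f * ((g ^ 3 * m / (e * n)) * (e * n / g ^ 2) ^ 2 +
        h * (g ^ 2 * m / (e * n)) * (e * n ^ 2 / (g ^ 3 * m))) / D)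
      (e * n / g ^ 2) D := by
  refine ⟨?_, ?_, ?_, ?_, ?_, ?_⟩
  · field_simp
  · field_simp
  · field_simp
  · field_simp
  · rw [mul_div_cancel₀ _ hD]
  · rw [mul_div_cancel₀ _ hD]

theorem d25_abs {h m e n f q1 q2 q6 p1 p5 p6 D : K} (he : e ≠ 0) (hD : D ≠ 0)
    (hs : Sc h m e n f q1 q2 q6 p1 p5 p6 D) :
    q2 * p5 = f ^ 2 * (m * n * ((1 + h * e) * (m + h / e) / D ^ 2)) := by
  have hD2 : D ^ 2 ≠ 0 := pow_ne_zero 2 hD
  apply mul_left_cancel₀ hD2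
  have e1 : D ^ 2 * (f ^ 2 * (m * n * ((1 + h * e) * (m + h / e) / D ^ 2))) =
      f ^ 2 * (m ^ 2 * n + h * (m * n / e) + h * (m ^ 2 * (e * n)) + h ^ 2 * (m * n)) := by
    field_simp
    ring
  rw [e1, ← hs.h3, ← hs.h4, ← hs.h16, ← hs.h61]
  have e2 : D ^ 2 * (q2 * p5) = (D * q2) * (D * p5) := by ring
  rw [e2, hs.h2, hs.h5]
  ring

theorem nn_eq {h m e : K}
    (hq : h + (h ^ 2 - 1) ^ 3 * m * (1 + h * e) * (m + h / e) / (h ^ 2 - m) ^ 2 ≠ 0) :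
    nn h m e * h + (h ^ 2 - 1) ^ 3 * (m * nn h m e *
      ((1 + h * e) * (m + h / e) / (h ^ 2 - m) ^ 2)) =
      h * m + (h ^ 2 - 1) ^ 3 * m - (h ^ 2 - 1) ^ 2 := by
  have h1 : nn h m e *
      (h + (h ^ 2 - 1) ^ 3 * m * (1 + h * e) * (m + h / e) / (h ^ 2 - m) ^ 2) =
      h * m + (h ^ 2 - 1) ^ 3 * m - (h ^ 2 - 1) ^ 2 := by
    unfold nn
    exact div_mul_cancel₀ _ hq
  rw [← h1]
  ring

/-- Area. -/
theorem AV_abs {z h m n k f l q1 q2 q6 p1 p5 p6 d u T : K} (hk : k = h ^ 2 - 1)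
    (hf : h * f = k) (hh0 : h ≠ 0) (hkh : h ^ 2 - k ^ 2 = h) (h16 : q1 * p6 = m)
    (h61 : p1 * q6 = n) (h25 : q2 * p5 = f ^ 2 * (m * n * T))
    (hn : n * h + k ^ 3 * (m * n * T) = h * m + k ^ 3 * m - k ^ 2)
    (hd : d * (1 - k * (m - n)) = 1) (hl : 7 * (z ^ 6 - z) * l = u * h * d) :
    AV z h (W l f q1 q2 q6 p1 p5 p6) = u := by
  have e1 : AV z h (W l f q1 q2 q6 p1 p5 p6) =
      (7 * (z ^ 6 - z) * l) * (-h * (m - n) + k * (q2 * p5 - f ^ 2 * m) + 1) := by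
    simp only [AV, W, d16, d25, d34]
    rw [← h16, ← h61, hk]
    ring
  have e2 : h * (-h * (m - n) + k * (q2 * p5 - f ^ 2 * m) + 1) = 1 - k * (m - n) := by
    apply mul_left_cancel₀ hh0
    rw [h25]
    have hf2 : h ^ 2 * f ^ 2 = k ^ 2 := by rw [← hf]; ring
    linear_combination hn + (k * (m * n * T) - k * m) * hf2 + hkh * (1 : K) +
      (h * (m - n)) * hk
  rw [e1, hl]
  have e3 : u * h * d * (-h * (m - n) + k * (q2 * p5 - f ^ 2 * m) + 1) =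
      u * d * (h * (-h * (m - n) + k * (q2 * p5 - f ^ 2 * m) + 1)) := by ring
  rw [e3, e2]
  linear_combination u * hd

/-- First Fourier coefficient. -/
theorem XV_abs {z h n k f l q1 q2 q6 p1 p5 p6 d u e D L : K} (hk : k = h ^ 2 - 1)
    (hf : h * f = k) (hD : D ≠ 0) (hs : (z ^ 6 - z) ^ 2 = h ^ 2 - 4)
    (h61 : p1 * q6 = n) (hp : p1 ^ 2 * p6 = q1 ^ 2 * (e * n))
    (h2 : D * q2 = f * (q1 ^ 2 * q6 + h * p1 * p6)) (hL : D * L = D + n * (1 + h * e))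
    (hl : 7 * (z ^ 6 - z) * l = u * h * d) :
    7 * XV z h (W l f q1 q2 q6 p1 p5 p6) =
      u * ((4 - h ^ 2) * h * k * d * (q1 ^ 2 * L + h * q6)) := by
  have e0 : p1 * q2 = f * q1 ^ 2 * (L - 1) := by
    apply mul_left_cancel₀ hD
    linear_combination p1 * h2 + (f * q1 ^ 2) * h61 + (h * f) * hp - (f * q1 ^ 2) * hL
  have e1 : 7 * XV z h (W l f q1 q2 q6 p1 p5 p6) =
      (7 * (z ^ 6 - z) * l) * (z ^ 6 - z) ^ 2 * h * (-(f * q1 ^ 2) - p1 * q2 - k * q6) := by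
    simp only [XV, W, d12, d46]
    rw [hk]
    ring
  rw [e1, hl, hs, e0]
  linear_combination (u * h * d * (4 - h ^ 2) * q1 ^ 2 * L) * hf

/-- Second Fourier coefficient. -/
theorem YV_abs {z h n k f l q1 q2 q6 p1 p5 p6 d u v D L : K} (hk : k = h ^ 2 - 1)
    (hf : h * f = k) (hD : D ≠ 0) (hs : (z ^ 6 - z) ^ 2 = h ^ 2 - 4)
    (h61 : p1 * q6 = n) (hp : q1 * q6 ^ 2 = p6 ^ 2 * (v * n))
    (h5 : D * p5 = f * (p1 * p6 ^ 2 + h * q1 * q6)) (hL : D * L = D + n * (1 + h * v))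
    (hl : 7 * (z ^ 6 - z) * l = u * h * d) :
    7 * YV z h (W l f q1 q2 q6 p1 p5 p6) =
      u * ((4 - h ^ 2) * h * k * d * (h * p1 + p6 ^ 2 * L)) := by
  have e0 : p5 * q6 = f * p6 ^ 2 * (L - 1) := by
    apply mul_left_cancel₀ hD
    linear_combination q6 * h5 + (f * p6 ^ 2) * h61 + (h * f) * hp - (f * p6 ^ 2) * hL
  have e1 : 7 * YV z h (W l f q1 q2 q6 p1 p5 p6) =
      (7 * (z ^ 6 - z) * l) * (z ^ 6 - z) ^ 2 * h * (-(k * p1) - f * p6 ^ 2 - p5 * q6) := by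
    simp only [YV, W, d13, d56]
    rw [hk]
    ring
  rw [e1, hl, hs, e0]
  linear_combination (u * h * d * (4 - h ^ 2) * p6 ^ 2 * L) * hf

end

end AuxGoodV

open AuxGoodV

theorem pr_Good : StGood := by
  intro K _ _ h m e g l hr hm he hg hD hn hq
  have hh0 : h ≠ 0 := h_ne hr
  have S := sc h m e g (nn h m e) ((h ^ 2 - 1) / h) (h ^ 2 - m) hm he hg hn hD
  rw [VV_eq]
  exact good_abs h m (nn h m e) (h ^ 2 - 1) ((h ^ 2 - 1) / h) l _ _ _ _ _ _ (h ^ 2 - m)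
    ((1 + h * e) * (m + h / e) / (h ^ 2 - m) ^ 2) rfl (mul_div_cancel₀ _ hh0) hD rfl
    S.h16 S.h61 S.h2 S.h5 (d25_abs he hD S) (nn_eq hq)

theorem pr_XYA : StXYA := by
  intro K _ _ z h m e g l u hz hh hm he hg hD hn hq hd hl
  have hr : Rel h := rel_of_z hz hh
  have hh0 : h ≠ 0 := h_ne hr
  have hs0 : z ^ 6 - z ≠ 0 := s_ne hz hh
  have h7 : (7 : K) ≠ 0 := by norm_num
  have S := sc h m e g (nn h m e) ((h ^ 2 - 1) / h) (h ^ 2 - m) hm he hg hn hD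
  have hl' : 7 * (z ^ 6 - z) * l = u * h * dd h m e := by
    rw [hl]
    exact mul_div_cancel₀ _ (mul_ne_zero h7 hs0)
  have hdd : dd h m e * (1 - (h ^ 2 - 1) * (m - nn h m e)) = 1 := by
    unfold dd
    exact one_div_mul_cancel hd
  have hf : h * ((h ^ 2 - 1) / h) = h ^ 2 - 1 := mul_div_cancel₀ _ hh0
  have hs2 := s1_sq hz hh
  rw [VV_eq]
  refine ⟨?_, ?_, ?_⟩
  · exact AV_abs rfl hf hh0 (h_k hz hh) S.h16 S.h61 (d25_abs he hD S) (nn_eq hq) hdd hl'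
  · have hL : (h ^ 2 - m) * La h m e = (h ^ 2 - m) + nn h m e * (1 + h * e) := by
      unfold La
      field_simp
    have hp : (g ^ 3 * m / (e * nn h m e)) ^ 2 * (e * nn h m e / g ^ 2) =
        (g ^ 2 * m / (e * nn h m e)) ^ 2 * (e * nn h m e) := by
      field_simp
    have h1 := XV_abs (z := z) (u := u) (l := l) (d := dd h m e) (L := La h m e) rfl hf hD
      hs2 S.h61 hp S.h2 hL hl'
      (p5 := ((h ^ 2 - 1) / h * ((g ^ 3 * m / (e * nn h m e)) * (e * nn h m e / g ^ 2) ^ 2 +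
        h * (g ^ 2 * m / (e * nn h m e)) * (e * nn h m e ^ 2 / (g ^ 3 * m))) / (h ^ 2 - m)))
    apply mul_left_cancel₀ h7
    rw [h1]
    unfold al be C0
    field_simp
  · have hL : (h ^ 2 - m) * Lb h m e =
        (h ^ 2 - m) + nn h m e * (1 + h * (1 / (e * m))) := by
      unfold Lb
      field_simp
    have hp : (g ^ 2 * m / (e * nn h m e)) * (e * nn h m e ^ 2 / (g ^ 3 * m)) ^ 2 =
        (e * nn h m e / g ^ 2) ^ 2 * (1 / (e * m) * nn h m e) := by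
      field_simp
    have h1 := YV_abs (z := z) (u := u) (l := l) (d := dd h m e) (L := Lb h m e) rfl hf hD
      hs2 S.h61 hp S.h5 hL hl'
      (q2 := ((h ^ 2 - 1) / h * ((g ^ 2 * m / (e * nn h m e)) ^ 2 *
        (e * nn h m e ^ 2 / (g ^ 3 * m)) + h * (g ^ 3 * m / (e * nn h m e)) *
        (e * nn h m e / g ^ 2)) / (h ^ 2 - m)))
    apply mul_left_cancel₀ h7
    rw [h1]
    unfold al' be' C0
    field_simp

end Pool.Agent.Work.MP_c5a777_ag.Sev
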