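import Pool.Agent.Work.MP_c5a777_ag.Sev.StT

/-!
# The automorphism of the field
-/

set_option autoImplicit false

open Polynomial

namespace Pool.Agent.Work.MP_c5a777_ag.Sev

namespace AuxKAut

noncomputable section

/-- the constant of the family -/
abbrev hh (z : ℂ) : ℂ := z + z ^ 6

/-- the endomorphism of the model -/
theorem exists_hom (h1 : StTHom) (h3 : StTRel) (z : ℂ) (hz : z ^ 7 = 1) :
    ∃ φ : TT (5 : ℂ) (hh z) →+* TT (5 : ℂ) (hh z), (∀ a, φ (tC 5 (hh z) a) = tC 5 (hh z) a) ∧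
      φ (ts 5 (hh z)) = tC 5 (hh z) z * ts 5 (hh z) ∧ φ (tr 5 (hh z)) = tr 5 (hh z) ∧
      φ (tx 5 (hh z)) = tx 5 (hh z) ∧ φ (ty 5 (hh z)) = ty 5 (hh z) := by
  refine h1 ℂ (TT (5 : ℂ) (hh z)) (tC 5 (hh z)) 5 (hh z) _ _ _ _ ?_
  have h := h3 ℂ 5 (hh z)
  have e : (tC 5 (hh z) z * ts 5 (hh z)) ^ 7 = ts 5 (hh z) ^ 7 := by
    rw [mul_pow, ← map_pow, hz, map_one, one_mul]
  rw [e]
  exact h

theorem iter_seven (h2 : StTInd) (z : ℂ) (hz : z ^ 7 = 1)
    (φ : TT (5 : ℂ) (hh z) →+* TT (5 : ℂ) (hh z)) (hC : ∀ a, φ (tC 5 (hh z) a) = tC 5 (hh z) a)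
    (hs : φ (ts 5 (hh z)) = tC 5 (hh z) z * ts 5 (hh z)) (hr : φ (tr 5 (hh z)) = tr 5 (hh z))
    (hx : φ (tx 5 (hh z)) = tx 5 (hh z)) (hy : φ (ty 5 (hh z)) = ty 5 (hh z))
    (a : TT (5 : ℂ) (hh z)) : φ (φ (φ (φ (φ (φ (φ a)))))) = a := by
  refine h2 ℂ 5 (hh z) (fun a => φ (φ (φ (φ (φ (φ (φ a)))))) = a) ?_ ?_ ?_ ?_ ?_ ?_ ?_ a
  · intro a
    simp only [hC]
  · simp only [hs, map_mul, hC]
    have e : tC (5 : ℂ) (hh z) z * (tC 5 (hh z) z * (tC 5 (hh z) z * (tC 5 (hh z) z *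
        (tC 5 (hh z) z * (tC 5 (hh z) z * (tC 5 (hh z) z * ts 5 (hh z))))))) =
        tC 5 (hh z) (z ^ 7) * ts 5 (hh z) := by
      rw [map_pow]
      ring
    rw [e, hz, map_one, one_mul]
  · simp only [hr]
  · simp only [hx]
  · simp only [hy]
  · intro a b ha hb
    simp only [map_add, ha, hb]
  · intro a b ha hb
    simp only [map_mul, ha, hb]

theorem alg_const (z a : ℂ) : algebraMap (TT (5 : ℂ) (hh z)) (K1 z) (tC 5 (hh z) a) =
    algebraMap ℂ (K1 z) a := rfl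

end

end AuxKAut

open AuxKAut in
theorem pr_KAut (h1 : StTHom) (h2 : StTInd) (h3 : StTRel) : StKAut := by
  intro z hzp
  have hz : z ^ 7 = 1 := hzp.pow_eq_one
  obtain ⟨φ, hC, hs, hr, hx, hy⟩ := exists_hom h1 h3 z hz
  have h7 := iter_seven h2 z hz φ hC hs hr hx hy
  let e : TT (5 : ℂ) (hh z) ≃+* TT (5 : ℂ) (hh z) :=
    RingEquiv.ofBijective φ ⟨fun a b h => by rw [← h7 a, h, h7 b],
      fun a => ⟨φ (φ (φ (φ (φ (φ a))))), h7 a⟩⟩
  let s : K1 z ≃+* K1 z := IsFractionRing.ringEquivOfRingEquiv (A := TT (5 : ℂ) (hh z))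
    (B := TT (5 : ℂ) (hh z)) (K := K1 z) (L := K1 z) e
  have hse : ∀ a : TT (5 : ℂ) (hh z), s (algebraMap _ (K1 z) a) = algebraMap _ (K1 z) (φ a) :=
    fun a => IsFractionRing.ringEquivOfRingEquiv_algebraMap (A := TT (5 : ℂ) (hh z))
      (B := TT (5 : ℂ) (hh z)) (K := K1 z) (L := K1 z) e a
  have hsc : ∀ a : ℂ, s (algebraMap ℂ (K1 z) a) = algebraMap ℂ (K1 z) a := by
    intro a
    rw [← alg_const, hse, hC]
  have hss : s (gs z) = algebraMap ℂ (K1 z) z * gs z := by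
    unfold gs
    rw [hse]
    change algebraMap _ (K1 z) (φ (ts 5 (hh z))) = _
    rw [hs, map_mul, alg_const]
  have hsr : s (gr z) = gr z := by
    unfold gr
    rw [hse]
    exact congrArg _ hr
  have hsx : s (gx z) = gx z := by
    unfold gx
    rw [hse]
    exact congrArg _ hx
  have hsy : s (gy z) = gy z := by
    unfold gy
    rw [hse]
    exact congrArg _ hy
  have hs7 : s (gs z ^ 7) = gs z ^ 7 := by
    rw [map_pow, hss, mul_pow, ← map_pow, hz, map_one, one_mul]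
  have hfix : ∀ f ∈ LF z, s f = f := by
    intro f hf
    induction hf using IntermediateField.adjoin_induction with
    | mem x hx =>
      simp only [Set.mem_insert_iff, Set.mem_singleton_iff] at hx
      rcases hx with rfl | rfl | rfl | rfl
      · exact hs7
      · exact hsr
      · exact hsx
      · exact hsy
    | algebraMap a => exact hsc a
    | add x y _ _ hx hy => rw [map_add, hx, hy]
    | inv x _ hx => rw [map_inv₀, hx]
    | mul x y _ _ hx hy => rw [map_mul, hx, hy]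
  have hseven : ∀ f : K1 z, s (s (s (s (s (s (s f)))))) = f := by
    intro f
    obtain ⟨a, b, -, rfl⟩ := IsFractionRing.div_surjective (A := TT (5 : ℂ) (hh z)) f
    simp only [map_div₀, hse, h7]
  refine ⟨{ s with commutes' := fun f => hfix _ f.2 }, hss, fun x => ?_⟩
  exact hseven x

end Pool.Agent.Work.MP_c5a777_ag.Sev
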