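import Pool.Agent.Work.MP_c5a777_ag.Sev.StT

open Polynomial

set_option autoImplicit false

/-!
# Items KRel, KInd, Kf: the relation in the field, independence, the function is not zero
-/

namespace Pool.Agent.Work.MP_c5a777_ag.Sev

namespace AuxKRel

theorem map_Wu {R S : Type*} [CommRing R] [CommRing S] (φ : R →+* S) (h c u r x y : R) :
    φ (Wu h c u r x y) = Wu (φ h) (φ c) (φ u) (φ r) (φ x) (φ y) := by
  simp only [Wu, We, wf, Sf, a1, a2, a3, a4, a6, map_add, map_sub, map_mul, map_neg, map_pow,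
    map_ofNat, map_one]

theorem map_fu {R S : Type*} [CommRing R] [CommRing S] (φ : R →+* S) (h c u r x y : R) :
    φ (fu h c u r x y) = fu (φ h) (φ c) (φ u) (φ r) (φ x) (φ y) := by
  simp only [fu, ff, wf, Sf, e8, e10, e14, map_add, map_sub, map_mul, map_neg, map_pow,
    map_ofNat, map_one]

/-- the structure map of the field -/
theorem alg_eq (z a : ℂ) : algebraMap ℂ (K1 z) a =
    algebraMap (TT (5 : ℂ) (z + z ^ 6)) (K1 z) (tC 5 (z + z ^ 6) a) := by
  rw [IsScalarTower.algebraMap_apply ℂ (TT (5 : ℂ) (z + z ^ 6)) (K1 z)]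
  rfl

theorem five_eq (z : ℂ) : algebraMap (TT (5 : ℂ) (z + z ^ 6)) (K1 z) (tC 5 (z + z ^ 6) 5) = 5 := by
  rw [map_ofNat (tC (5 : ℂ) (z + z ^ 6)) 5, map_ofNat (algebraMap _ (K1 z)) 5]

/-- polynomials in three variables as polynomials over `ℂ[s, r]` -/
noncomputable def phi : MvPolynomial (Fin 3) ℂ →+* (MvPolynomial (Fin 2) ℂ)[X] :=
  MvPolynomial.eval₂Hom ((Polynomial.C : MvPolynomial (Fin 2) ℂ →+* _).comp MvPolynomial.C)
    ![Polynomial.C (MvPolynomial.X 0), Polynomial.C (MvPolynomial.X 1), Polynomial.X]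

/-- the inverse -/
noncomputable def psi : (MvPolynomial (Fin 2) ℂ)[X] →+* MvPolynomial (Fin 3) ℂ :=
  Polynomial.eval₂RingHom (MvPolynomial.eval₂Hom MvPolynomial.C
    ![MvPolynomial.X 0, MvPolynomial.X 1]) (MvPolynomial.X 2)

theorem psi_phi (P : MvPolynomial (Fin 3) ℂ) : psi (phi P) = P := by
  have h : psi.comp phi = RingHom.id _ := by
    apply MvPolynomial.ringHom_ext
    · intro a
      simp [phi, psi]
    · intro i
      fin_cases i <;> simp [phi, psi]
  exact congrArg (fun f : MvPolynomial (Fin 3) ℂ →+* MvPolynomial (Fin 3) ℂ => f P) h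

theorem phi_inj : Function.Injective phi := Function.LeftInverse.injective psi_phi

/-- the embedding of the polynomials in the model -/
noncomputable def em (c h : ℂ) : (MvPolynomial (Fin 2) ℂ)[X] →+* TT c h :=
  algebraMap (MvPolynomial (Fin 2) ℂ)[X] (WC c h).toAffine.CoordinateRing

theorem em_inj (c h : ℂ) : Function.Injective (em c h) :=
  FaithfulSMul.algebraMap_injective (MvPolynomial (Fin 2) ℂ)[X]
    (WC c h).toAffine.CoordinateRing

theorem em_C (c h : ℂ) (p : MvPolynomial (Fin 2) ℂ) : em c h (Polynomial.C p) =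
    algebraMap (MvPolynomial (Fin 2) ℂ) (WC c h).toAffine.CoordinateRing p :=
  (IsScalarTower.algebraMap_apply (MvPolynomial (Fin 2) ℂ) (MvPolynomial (Fin 2) ℂ)[X]
    (WC c h).toAffine.CoordinateRing p).symm

theorem aeval_eq (z : ℂ) (P : MvPolynomial (Fin 3) ℂ) :
    MvPolynomial.aeval ![gs z, gr z, gx z] P =
      algebraMap (TT (5 : ℂ) (z + z ^ 6)) (K1 z) (em 5 (z + z ^ 6) (phi P)) := by
  have h : ((MvPolynomial.aeval ![gs z, gr z, gx z] : MvPolynomial (Fin 3) ℂ →ₐ[ℂ] K1 z) :
      MvPolynomial (Fin 3) ℂ →+* K1 z) =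
      (algebraMap (TT (5 : ℂ) (z + z ^ 6)) (K1 z)).comp ((em 5 (z + z ^ 6)).comp phi) := by
    apply MvPolynomial.ringHom_ext
    · intro a
      have e1 : phi (MvPolynomial.C a) = Polynomial.C (MvPolynomial.C a) := by simp [phi]
      simp only [RingHom.comp_apply, RingHom.coe_coe, MvPolynomial.aeval_C, e1]
      rw [em_C, alg_eq]
      rfl
    · intro i
      simp only [RingHom.comp_apply, RingHom.coe_coe, MvPolynomial.aeval_X]
      fin_cases i
      · have e1 : phi (MvPolynomial.X 0) = Polynomial.C (MvPolynomial.X 0) := by simp [phi]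
        show gs z = algebraMap (TT (5 : ℂ) (z + z ^ 6)) (K1 z)
          (em 5 (z + z ^ 6) (phi (MvPolynomial.X 0)))
        rw [e1, em_C]
        rfl
      · have e1 : phi (MvPolynomial.X 1) = Polynomial.C (MvPolynomial.X 1) := by simp [phi]
        show gr z = algebraMap (TT (5 : ℂ) (z + z ^ 6)) (K1 z)
          (em 5 (z + z ^ 6) (phi (MvPolynomial.X 1)))
        rw [e1, em_C]
        rfl
      · have e1 : phi (MvPolynomial.X 2) = Polynomial.X := by simp [phi]
        show gx z = algebraMap (TT (5 : ℂ) (z + z ^ 6)) (K1 z)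
          (em 5 (z + z ^ 6) (phi (MvPolynomial.X 2)))
        rw [e1]
        rfl
  exact congrArg (fun f : MvPolynomial (Fin 3) ℂ →+* K1 z => f P) h

theorem indep (z : ℂ) : AlgebraicIndependent ℂ ![gs z, gr z, gx z] := by
  rw [AlgebraicIndependent, injective_iff_map_eq_zero]
  intro P hP
  rw [aeval_eq] at hP
  have h1 : em 5 (z + z ^ 6) (phi P) = 0 := by
    apply IsFractionRing.injective (TT (5 : ℂ) (z + z ^ 6)) (K1 z)
    rw [hP, map_zero]
  have h2 : phi P = 0 := by
    apply em_inj 5 (z + z ^ 6)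
    rw [h1, map_zero]
  apply phi_inj
  rw [h2, map_zero]

/-- the function is not zero -/
theorem f_ne (c h : ℂ) :
    fu (tC c h h) (tC c h c) (ts c h ^ 7) (tr c h) (tx c h) (ty c h) ≠ 0 := by
  set A : MvPolynomial (Fin 2) ℂ := MvPolynomial.X 0 ^ 7 with hA
  set hh : MvPolynomial (Fin 2) ℂ := MvPolynomial.C h with hhh
  set w : MvPolynomial (Fin 2) ℂ := wf (MvPolynomial.C c) A (MvPolynomial.X 1) with hw
  set S : MvPolynomial (Fin 2) ℂ := Sf (MvPolynomial.C c) A (MvPolynomial.X 1) with hS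
  set q : (MvPolynomial (Fin 2) ℂ)[X] := X ^ 2 + Polynomial.C (e8 hh A w S) with hq
  set p : (MvPolynomial (Fin 2) ℂ)[X] :=
    Polynomial.C (e10 hh A w S) * X + Polynomial.C (e14 hh A w S) with hp
  have key : fu (tC c h h) (tC c h c) (ts c h ^ 7) (tr c h) (tx c h) (ty c h) =
      em c h p + em c h q * ty c h := by
    have e1 : tC c h h = em c h (Polynomial.C (MvPolynomial.C h)) := by rw [em_C]; rfl
    have e2 : tC c h c = em c h (Polynomial.C (MvPolynomial.C c)) := by rw [em_C]; rfl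
    have e3 : ts c h = em c h (Polynomial.C (MvPolynomial.X 0)) := by rw [em_C]; rfl
    have e4 : tr c h = em c h (Polynomial.C (MvPolynomial.X 1)) := by rw [em_C]; rfl
    have e5 : tx c h = em c h Polynomial.X := rfl
    rw [e1, e2, e3, e4, e5, hp, hq, hS, hw, hA, hhh]
    simp only [fu, ff, wf, Sf, e8, e10, e14, map_add, map_sub, map_mul, map_neg, map_pow,
      map_ofNat, map_one]
    ring
  rw [key]
  intro h0
  have h1 : p • (1 : (WC c h).toAffine.CoordinateRing) +
      q • WeierstrassCurve.Affine.CoordinateRing.mk (WC c h).toAffine X = 0 := by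
    rw [WeierstrassCurve.Affine.CoordinateRing.smul, WeierstrassCurve.Affine.CoordinateRing.smul,
      mul_one]
    exact h0
  have h2 := (WeierstrassCurve.Affine.CoordinateRing.smul_basis_eq_zero h1).2
  have h3 : q.Monic := by
    rw [hq]
    exact Polynomial.monic_X_pow_add_C _ (by norm_num)
  exact h3.ne_zero h2

end AuxKRel

theorem pr_KRel (h1 : StTRel) : StKRel := by
  intro z
  have h2 := congrArg (algebraMap (TT (5 : ℂ) (z + z ^ 6)) (K1 z)) (h1 ℂ 5 (z + z ^ 6))
  rw [AuxKRel.map_Wu, map_zero, AuxKRel.five_eq, ← AuxKRel.alg_eq, map_pow] at h2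
  exact h2

theorem pr_KInd : StKInd := by
  intro z
  refine ⟨AuxKRel.indep z, ?_⟩
  have hf : ∀ i, Transcendental ℂ ((![X ^ 7, X, X] : Fin 3 → ℂ[X]) i) := by
    intro i
    fin_cases i
    · exact Polynomial.transcendental _ (by simp) (by simp)
    · exact Polynomial.transcendental_X ℂ
    · exact Polynomial.transcendental_X ℂ
  have h := (AuxKRel.indep z).polynomial_aeval_of_transcendental hf
  have e : (fun i => Polynomial.aeval (![gs z, gr z, gx z] i)
      ((![X ^ 7, X, X] : Fin 3 → ℂ[X]) i)) = ![gs z ^ 7, gr z, gx z] := by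
    funext i
    fin_cases i <;> simp
  rw [e] at h
  exact h

theorem pr_Kf : StKf := by
  intro z _ h0
  apply AuxKRel.f_ne 5 (z + z ^ 6)
  apply IsFractionRing.injective (TT (5 : ℂ) (z + z ^ 6)) (K1 z)
  rw [AuxKRel.map_fu, map_zero, AuxKRel.five_eq, ← AuxKRel.alg_eq, map_pow]
  exact h0

end Pool.Agent.Work.MP_c5a777_ag.Sev
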