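import Pool.Agent.Work.MP_c5a777_ag.Sev.StR

set_option autoImplicit false

/-!
# Rational function fields in two and three variables
-/

namespace Pool.Agent.Work.MP_c5a777_ag.Sev

namespace AuxRat3

/-- polynomials in two variables -/
abbrev A2 : Type := MvPolynomial (Fin 2) ℂ

/-- polynomials in three variables -/
abbrev B3 : Type := MvPolynomial (Fin 3) ℂ

/-- the inclusion of the polynomials in the last two variables -/
noncomputable def inc : A2 →ₐ[ℂ] FractionRing B3 :=
  (Algebra.algHom ℂ B3 (FractionRing B3)).comp (MvPolynomial.rename Fin.succ)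

theorem inc_apply (a : A2) : inc a = algebraMap B3 (FractionRing B3)
    (MvPolynomial.rename Fin.succ a) := rfl

theorem inc_injective : Function.Injective inc := by
  intro a b h
  rw [inc_apply, inc_apply] at h
  exact MvPolynomial.rename_injective _ (Fin.succ_injective 2)
    (IsFractionRing.injective B3 (FractionRing B3) h)

/-- the inclusion of the rational functions in two variables -/
noncomputable def inc' : FractionRing A2 →ₐ[ℂ] FractionRing B3 :=
  IsFractionRing.liftAlgHom (K := FractionRing A2) (g := inc) inc_injective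

theorem inc'_apply (a : A2) : inc' (algebraMap A2 (FractionRing A2) a) = inc a := by
  unfold inc'
  rw [IsFractionRing.liftAlgHom_apply]
  exact IsFractionRing.lift_algebraMap (K := FractionRing A2) inc_injective a

/-- the first variable -/
noncomputable def t : FractionRing B3 := algebraMap B3 (FractionRing B3) (MvPolynomial.X 0)

theorem fse_rename (a : A2) :
    MvPolynomial.finSuccEquiv ℂ 2 (MvPolynomial.rename Fin.succ a) = Polynomial.C a := by
  induction a using MvPolynomial.induction_on with
  | C r => simp [MvPolynomial.finSuccEquiv_apply]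
  | add p q hp hq => rw [map_add, map_add, hp, hq, map_add]
  | mul_X p i hp =>
    rw [map_mul, map_mul, hp, MvPolynomial.rename_X, MvPolynomial.finSuccEquiv_X_succ, map_mul]

theorem eval_t (q : Polynomial A2) : q.eval₂ inc.toRingHom t =
    algebraMap B3 (FractionRing B3) ((MvPolynomial.finSuccEquiv ℂ 2).symm q) := by
  induction q using Polynomial.induction_on' with
  | add p q hp hq => rw [Polynomial.eval₂_add, hp, hq, map_add, map_add]
  | monomial n a =>
    rw [Polynomial.eval₂_monomial]
    have h : (MvPolynomial.finSuccEquiv ℂ 2).symm (Polynomial.monomial n a) =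
        MvPolynomial.rename Fin.succ a * MvPolynomial.X 0 ^ n := by
      rw [AlgEquiv.symm_apply_eq, map_mul, map_pow, MvPolynomial.finSuccEquiv_X_zero,
        fse_rename, ← Polynomial.C_mul_X_pow_eq_monomial]
    rw [h, map_mul, map_pow]
    rfl

theorem emb : Nonempty (RatFunc (FractionRing A2) →ₐ[ℂ] FractionRing B3) := by
  let _ : Algebra (FractionRing A2) (FractionRing B3) := inc'.toRingHom.toAlgebra
  let _ : Algebra A2 (FractionRing B3) := inc.toRingHom.toAlgebra
  have : IsScalarTower ℂ (FractionRing A2) (FractionRing B3) :=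
    IsScalarTower.of_algebraMap_eq fun x => (inc'.commutes x).symm
  have : IsScalarTower A2 (FractionRing A2) (FractionRing B3) :=
    IsScalarTower.of_algebraMap_eq fun x => (inc'_apply x).symm
  have h1 : Transcendental A2 t := by
    rw [transcendental_iff_injective]
    intro p q h
    have h2 : p.eval₂ inc.toRingHom t = q.eval₂ inc.toRingHom t := h
    rw [eval_t, eval_t] at h2
    exact (MvPolynomial.finSuccEquiv ℂ 2).symm.injective
      (IsFractionRing.injective B3 (FractionRing B3) h2)
  have h2 : Transcendental (FractionRing A2) t := fun h =>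
    h1 ((IsFractionRing.isAlgebraic_iff A2 (FractionRing A2) (FractionRing B3)).2 h)
  rw [transcendental_iff_injective] at h2
  refine ⟨RatFunc.liftAlgHom ((Polynomial.aeval (R := FractionRing A2) t).restrictScalars ℂ) ?_⟩
  intro f hf
  rw [Submonoid.mem_comap, mem_nonZeroDivisors_iff_ne_zero]
  have hf' : f ≠ 0 := nonZeroDivisors.ne_zero hf
  intro h
  exact hf' (h2 (by simpa using h))

theorem trd_gen (F : Type) [Field F] [Algebra ℂ F] :
    Algebra.trdeg ℂ (RatFunc F) = Algebra.trdeg ℂ F + 1 := by
  have h3 : Algebra.trdeg F (Polynomial F) = 1 := Polynomial.trdeg_of_isDomain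
  have h4 := _root_.trdeg_add_eq F (Polynomial F) (A := RatFunc F)
  have : Algebra.IsAlgebraic (Polynomial F) (RatFunc F) :=
    IsLocalization.isAlgebraic _ (nonZeroDivisors (Polynomial F))
  rw [h3, trdeg_eq_zero (R := Polynomial F), add_zero] at h4
  have h5 := _root_.trdeg_add_eq ℂ F (A := RatFunc F)
  rw [← h5, h4]

theorem trd2 : Algebra.trdeg ℂ (FractionRing A2) = 2 := by
  have h1 : Algebra.trdeg ℂ A2 = 2 := by
    have := MvPolynomial.trdeg_of_isDomain (ι := Fin 2) (S := ℂ)
    rw [this]
    simp
  have h2 := _root_.trdeg_add_eq ℂ A2 (A := FractionRing A2)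
  have : Algebra.IsAlgebraic A2 (FractionRing A2) :=
    IsLocalization.isAlgebraic _ (nonZeroDivisors A2)
  rw [h1, trdeg_eq_zero (R := A2), add_zero] at h2
  exact h2.symm

theorem trd : Algebra.trdeg ℂ (RatFunc (FractionRing A2)) = 3 := by
  have h := trd_gen (FractionRing A2)
  rw [trd2] at h
  exact h.trans (by norm_num)

end AuxRat3

theorem pr_Rat3 : StRat3 := ⟨AuxRat3.emb, AuxRat3.trd⟩

end Pool.Agent.Work.MP_c5a777_ag.Sev
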