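import Pool.Agent.Work.MP_c5a777_ag.Sev.StT

set_option autoImplicit false

/-!
# Reduction of the model over a local ring
-/

open Polynomial

namespace Pool.Agent.Work.MP_c5a777_ag.Sev

noncomputable section

namespace AuxTheta

/-! ### Polynomials in one variable -/

section Ord

variable {B : Type} [CommRing B] [IsDomain B]

omit [IsDomain B] in
theorem ord_map (f : B →+* B) (hf : Function.Injective f) (p : B[X]) :
    (p.map f).natTrailingDegree = p.natTrailingDegree := by
  unfold natTrailingDegree trailingDegree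
  rw [support_map_of_injective p hf]

theorem ord_four (a : B) (ha : a ≠ 0) :
    ((X : B[X]) ^ 4 * (X - C a) ^ 3).natTrailingDegree = 4 := by
  have h1 : ((X - C a : B[X]) ^ 3).coeff 0 ≠ 0 := by
    rw [coeff_zero_eq_eval_zero, eval_pow, eval_sub, eval_X, eval_C, zero_sub]
    exact pow_ne_zero _ (neg_ne_zero.2 ha)
  have h2 : ((X - C a : B[X]) ^ 3) ≠ 0 := pow_ne_zero _ (X_sub_C_ne_zero a)
  have h3 : ((X - C a : B[X]) ^ 3).natTrailingDegree = 0 :=
    Nat.le_zero.1 (natTrailingDegree_le_of_ne_zero h1)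
  rw [natTrailingDegree_mul (pow_ne_zero _ X_ne_zero) h2, natTrailingDegree_X_pow, h3]

/-- parity of degrees -/
theorem parity (a : B) (p q : B[X])
    (h : p.comp (X ^ 2 - C a * X) + q.comp (X ^ 2 - C a * X) * (X * (X ^ 2 - C a * X)) = 0) :
    p = 0 ∧ q = 0 := by
  set x : B[X] := X ^ 2 - C a * X with hx
  have hdeg : x.natDegree = 2 := by
    rw [hx]
    have h1 : (C a * X : B[X]).natDegree < (X ^ 2 : B[X]).natDegree := by
      rw [natDegree_X_pow]
      exact lt_of_le_of_lt ((natDegree_C_mul_le a X).trans natDegree_X_le) (by norm_num)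
    rw [natDegree_sub_eq_left_of_natDegree_lt h1, natDegree_X_pow]
  have hx0 : x ≠ 0 := by
    intro h0
    rw [h0, natDegree_zero] at hdeg
    omega
  have hcomp0 : ∀ r : B[X], r.comp x = 0 → r = 0 := by
    intro r hr
    rcases comp_eq_zero_iff.1 hr with h1 | ⟨-, h1⟩
    · exact h1
    · exfalso
      rw [h1, natDegree_C] at hdeg
      omega
  have hq : q = 0 := by
    by_contra hq0
    have hqc : q.comp x ≠ 0 := fun h1 => hq0 (hcomp0 q h1)
    have h2 : (q.comp x * (X * x)).natDegree = q.natDegree * 2 + 3 := by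
      rw [natDegree_mul hqc (mul_ne_zero X_ne_zero hx0), natDegree_mul X_ne_zero hx0, natDegree_comp,
        hdeg, natDegree_X]
    have h3 : p.comp x = -(q.comp x * (X * x)) := eq_neg_of_add_eq_zero_left h
    have h4 : (p.comp x).natDegree = p.natDegree * 2 := by rw [natDegree_comp, hdeg]
    rw [h3, natDegree_neg, h2] at h4
    omega
  refine ⟨?_, hq⟩
  rw [hq, zero_comp, zero_mul, add_zero] at h
  exact hcomp0 p h

end Ord

/-! ### The reduction -/

section Red

variable {O : Type} [CommRing O] [IsLocalRing O]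

/-- the polynomial ring over the residue field -/
abbrev BB (O : Type) [CommRing O] [IsLocalRing O] : Type :=
  MvPolynomial (Fin 2) (IsLocalRing.ResidueField O)

/-- the target -/
abbrev Om (O : Type) [CommRing O] [IsLocalRing O] : Type := (BB O)[X]

/-- the reduction of constants -/
def gg (O : Type) [CommRing O] [IsLocalRing O] : O →+* Om O :=
  (C.comp MvPolynomial.C).comp (IsLocalRing.residue O)

theorem gg_zero {a : O} (ha : a ∈ IsLocalRing.maximalIdeal O) : gg O a = 0 := by
  change C (MvPolynomial.C (IsLocalRing.residue O a)) = 0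
  rw [(IsLocalRing.residue_eq_zero_iff a).2 ha, map_zero, map_zero]

/-- the variable `s` -/
def vs (O : Type) [CommRing O] [IsLocalRing O] : Om O := C (MvPolynomial.X 0)
/-- the variable `r` -/
def vr (O : Type) [CommRing O] [IsLocalRing O] : Om O := C (MvPolynomial.X 1)
/-- the coefficient `2 s ^ 14` -/
def va (O : Type) [CommRing O] [IsLocalRing O] : BB O := 2 * MvPolynomial.X 0 ^ 14
/-- the first coordinate -/
def vx (O : Type) [CommRing O] [IsLocalRing O] : Om O := X ^ 2 - C (va O) * X

theorem va_eq : C (va O) = 2 * vs O ^ 14 := by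
  unfold va vs
  rw [map_mul, map_pow]
  rfl

theorem rel (c h : O) (hc : c ∈ IsLocalRing.maximalIdeal O) :
    Wu (gg O h) (gg O c) (vs O ^ 7) (vr O) (vx O) (X * vx O) = 0 := by
  unfold Wu wf Sf We a1 a2 a3 a4 a6
  rw [gg_zero hc]
  unfold vx
  rw [va_eq]
  ring

theorem fu_eq (c h : O) (hc : c ∈ IsLocalRing.maximalIdeal O) :
    fu (gg O h) (gg O c) (vs O ^ 7) (vr O) (vx O) (X * vx O) = X ^ 4 * (X - C (va O)) ^ 3 := by
  unfold fu wf Sf ff e8 e10 e14
  rw [gg_zero hc]
  unfold vx
  ring

theorem two_ne (h5 : (5 : O) ∈ IsLocalRing.maximalIdeal O) :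
    (2 : IsLocalRing.ResidueField O) ≠ 0 := by
  intro h2
  have h5' : (5 : IsLocalRing.ResidueField O) = 0 := by
    have := (IsLocalRing.residue_eq_zero_iff (5 : O)).2 h5
    rwa [map_ofNat] at this
  have : (1 : IsLocalRing.ResidueField O) = 0 := by
    linear_combination h5' - 2 * h2
  exact one_ne_zero this

theorem va_ne (h5 : (5 : O) ∈ IsLocalRing.maximalIdeal O) : va O ≠ 0 := by
  unfold va
  apply mul_ne_zero _ (pow_ne_zero _ (MvPolynomial.X_ne_zero 0))
  have h : (2 : BB O) = MvPolynomial.C (2 : IsLocalRing.ResidueField O) := by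
    rw [map_ofNat]
  rw [h]
  intro h0
  exact two_ne h5 (MvPolynomial.C_injective _ _ (by rw [h0, map_zero]))

/-- the polynomials in the coordinate ring -/
def ee {O : Type} [CommRing O] (c h : O) : (MvPolynomial (Fin 2) O)[X] →+* TT c h :=
  algebraMap (MvPolynomial (Fin 2) O)[X] (WC c h).toAffine.CoordinateRing

theorem ee_basis {O : Type} [CommRing O] (c h : O) (z : TT c h) :
    ∃ p q : (MvPolynomial (Fin 2) O)[X], z = ee c h p + ee c h q * ty c h := by
  obtain ⟨p, q, hpq⟩ := WeierstrassCurve.Affine.CoordinateRing.exists_smul_basis_eq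
      (show (WC c h).toAffine.CoordinateRing from z)
  refine ⟨p, q, ?_⟩
  rw [Algebra.smul_def, Algebra.smul_def, mul_one] at hpq
  exact hpq.symm

theorem ee_C {O : Type} [CommRing O] (c h a : O) : ee c h (C (MvPolynomial.C a)) = tC c h a :=
  rfl

theorem ee_s {O : Type} [CommRing O] (c h : O) : ee c h (C (MvPolynomial.X 0)) = ts c h := rfl

theorem ee_r {O : Type} [CommRing O] (c h : O) : ee c h (C (MvPolynomial.X 1)) = tr c h := rfl

theorem ee_X {O : Type} [CommRing O] (c h : O) : ee c h X = tx c h := rfl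

/-- an element of `O[s, r][X]` all of whose coefficients are in the maximal ideal -/
theorem mem_ideal (c h : O) (p : (MvPolynomial (Fin 2) O)[X])
    (hp : p.map (MvPolynomial.map (IsLocalRing.residue O)) = 0) :
    ee c h p ∈ (IsLocalRing.maximalIdeal O).map (algebraMap O (TT c h)) := by
  have h1 : p ∈ (Ideal.map (MvPolynomial.C : O →+* MvPolynomial (Fin 2) O)
      (IsLocalRing.maximalIdeal O)).map (C : MvPolynomial (Fin 2) O →+* _) := by
    rw [Ideal.mem_map_C_iff]
    intro n
    rw [MvPolynomial.mem_map_C_iff]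
    intro m
    rw [← IsLocalRing.residue_eq_zero_iff, ← MvPolynomial.coeff_map, ← coeff_map, hp]
    simp
  have h2 := Ideal.mem_map_of_mem
    (algebraMap (MvPolynomial (Fin 2) O)[X] (WC c h).toAffine.CoordinateRing) h1
  rw [Ideal.map_map, Ideal.map_map] at h2
  exact h2

/-- the action on the target -/
def t0 (z : O) : BB O →+* BB O :=
  MvPolynomial.eval₂Hom MvPolynomial.C
    ![MvPolynomial.C (IsLocalRing.residue O z) * MvPolynomial.X 0, MvPolynomial.X 1]

theorem t0_C (z : O) (a : IsLocalRing.ResidueField O) :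
    t0 z (MvPolynomial.C a) = MvPolynomial.C a := by
  simp [t0]

theorem t0_X0 (z : O) : t0 z (MvPolynomial.X 0) =
    MvPolynomial.C (IsLocalRing.residue O z) * MvPolynomial.X 0 := by
  simp [t0]

theorem t0_X1 (z : O) : t0 z (MvPolynomial.X 1) = MvPolynomial.X 1 := by
  simp [t0]

theorem t0_comp (z : O) (hz : z ^ 7 = 1) (p : BB O) : t0 (z ^ 6) (t0 z p) = p := by
  have h : (t0 (z ^ 6)).comp (t0 z) = RingHom.id (BB O) := by
    apply MvPolynomial.ringHom_ext
    · intro a
      simp [t0_C]
    · intro i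
      rw [RingHom.comp_apply, RingHom.id_apply]
      obtain rfl | rfl : i = 0 ∨ i = 1 := by omega
      · rw [t0_X0, map_mul, t0_C, t0_X0, ← mul_assoc, ← MvPolynomial.C_mul, ← map_mul,
          ← pow_succ', hz, map_one, MvPolynomial.C_1, one_mul]
      · rw [t0_X1, t0_X1]
  exact congrFun (congrArg DFunLike.coe h) p

theorem t0_inj (z : O) (hz : z ^ 7 = 1) : Function.Injective (t0 z) := by
  intro a b hab
  rw [← t0_comp z hz a, hab, t0_comp z hz b]

theorem t0_va (z : O) (hz : z ^ 7 = 1) : t0 z (va O) = va O := by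
  unfold va
  rw [map_mul, map_pow, t0_X0, mul_pow, ← map_pow, ← map_pow, show 14 = 7 * 2 by norm_num,
    pow_mul z 7 2, hz, one_pow, map_one, map_one, one_mul, map_ofNat]

end Red

end AuxTheta

theorem AuxTheta.theta_ee {O : Type} [CommRing O] [IsLocalRing O] (c h : O)
    (θ : TT c h →+* AuxTheta.Om O) (hC : ∀ a, θ (tC c h a) = AuxTheta.gg O a)
    (hs : θ (ts c h) = AuxTheta.vs O) (hr : θ (tr c h) = AuxTheta.vr O)
    (hx : θ (tx c h) = AuxTheta.vx O) (p : (MvPolynomial (Fin 2) O)[X]) :
    θ (AuxTheta.ee c h p) =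
      (p.map (MvPolynomial.map (IsLocalRing.residue O))).comp (AuxTheta.vx O) := by
  have hf : θ.comp (AuxTheta.ee c h) = (compRingHom (AuxTheta.vx O)).comp
      (mapRingHom (MvPolynomial.map (IsLocalRing.residue O))) := by
    apply Polynomial.ringHom_ext'
    · apply MvPolynomial.ringHom_ext
      · intro a
        simp only [RingHom.comp_apply, AuxTheta.ee_C, hC, coe_mapRingHom, map_C,
          coe_compRingHom_apply, C_comp, MvPolynomial.map_C]
        rfl
      · intro i
        fin_cases i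
        · simp only [RingHom.comp_apply, Fin.zero_eta, Fin.isValue, AuxTheta.ee_s, hs,
            coe_mapRingHom, map_C, coe_compRingHom_apply, C_comp, MvPolynomial.map_X]
          rfl
        · simp only [RingHom.comp_apply, Fin.mk_one, Fin.isValue, AuxTheta.ee_r, hr,
            coe_mapRingHom, map_C, coe_compRingHom_apply, C_comp, MvPolynomial.map_X]
          rfl
    · simp only [RingHom.comp_apply, AuxTheta.ee_X, hx, coe_mapRingHom, map_X,
        coe_compRingHom_apply, X_comp]
  exact congrFun (congrArg DFunLike.coe hf) p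

theorem AuxTheta.theta_fu {R S : Type} [CommRing R] [CommRing S] (θ : R →+* S)
    (h c u r x y : R) : θ (fu h c u r x y) = fu (θ h) (θ c) (θ u) (θ r) (θ x) (θ y) := by
  unfold fu wf Sf ff e8 e10 e14
  simp only [map_add, map_mul, map_sub, map_neg, map_pow, map_ofNat, map_one]

theorem pr_Theta (h1 : StTHom) (h2 : StTInd) : StTheta := by
  intro O _ _ _ c h hc h5
  obtain ⟨θ, hC, hs, hr, hx, hy⟩ := h1 O (AuxTheta.Om O) (AuxTheta.gg O) c h (AuxTheta.vs O ^ 1)
    (AuxTheta.vr O) (AuxTheta.vx O) (X * AuxTheta.vx O)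
    (by rw [pow_one]; exact AuxTheta.rel c h hc)
  rw [pow_one] at hs
  have hfu : θ (fu (tC c h h) (tC c h c) (ts c h ^ 7) (tr c h) (tx c h) (ty c h)) =
      X ^ 4 * (X - C (AuxTheta.va O)) ^ 3 := by
    rw [AuxTheta.theta_fu, hC, hC, map_pow, hs, hr, hx, hy, AuxTheta.fu_eq c h hc]
  refine ⟨AuxTheta.Om O, inferInstance, inferInstance, θ, fun a => a.natTrailingDegree,
    ?_, ?_, ?_, ?_, ?_⟩
  · intro z hz
    obtain ⟨p, q, hz'⟩ := AuxTheta.ee_basis c h z
    have h0 : θ (AuxTheta.ee c h p) + θ (AuxTheta.ee c h q) * θ (ty c h) = 0 := by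
      rw [← map_mul, ← map_add, ← hz', hz]
    rw [AuxTheta.theta_ee c h θ hC hs hr hx, AuxTheta.theta_ee c h θ hC hs hr hx, hy] at h0
    obtain ⟨hp, hq⟩ := AuxTheta.parity _ _ _ h0
    rw [hz']
    exact Ideal.add_mem _ (AuxTheta.mem_ideal c h p hp)
      (Ideal.mul_mem_right _ _ (AuxTheta.mem_ideal c h q hq))
  · intro a b ha hb
    exact natTrailingDegree_mul ha hb
  · rw [hfu]
    exact mul_ne_zero (pow_ne_zero _ X_ne_zero) (pow_ne_zero _ (X_sub_C_ne_zero _))
  · change natTrailingDegree (θ _) = 4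
    rw [hfu]
    exact AuxTheta.ord_four _ (AuxTheta.va_ne h5)
  · intro z hz σ sC ss sr sx sy
    have hvx : (AuxTheta.vx O).map (AuxTheta.t0 z) = AuxTheta.vx O := by
      unfold AuxTheta.vx
      rw [Polynomial.map_sub, Polynomial.map_pow, Polynomial.map_mul, map_X, map_C,
        AuxTheta.t0_va z hz]
    refine ⟨mapRingHom (AuxTheta.t0 z), ?_, ?_, ?_⟩
    · refine h2 O c h _ ?_ ?_ ?_ ?_ ?_ ?_ ?_
      · intro a
        rw [sC, hC, coe_mapRingHom]
        change C (MvPolynomial.C (IsLocalRing.residue O a)) =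
          (C (MvPolynomial.C (IsLocalRing.residue O a))).map (AuxTheta.t0 z)
        rw [map_C, AuxTheta.t0_C]
      · rw [ss, map_mul, hC, hs, coe_mapRingHom]
        change C (MvPolynomial.C (IsLocalRing.residue O z)) * C (MvPolynomial.X 0) =
          (C (MvPolynomial.X 0)).map (AuxTheta.t0 z)
        rw [map_C, AuxTheta.t0_X0, C_mul]
      · rw [sr, hr, coe_mapRingHom]
        change C (MvPolynomial.X 1) = (C (MvPolynomial.X 1)).map (AuxTheta.t0 z)
        rw [map_C, AuxTheta.t0_X1]
      · rw [sx, hx, coe_mapRingHom, hvx]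
      · rw [sy, hy, coe_mapRingHom, Polynomial.map_mul, map_X, hvx]
      · intro a b ha hb
        rw [map_add, map_add, map_add, map_add, ha, hb]
      · intro a b ha hb
        rw [map_mul, map_mul, map_mul, map_mul, ha, hb]
    · exact map_injective _ (AuxTheta.t0_inj z hz)
    · intro a
      exact AuxTheta.ord_map _ (AuxTheta.t0_inj z hz) a

end

end Pool.Agent.Work.MP_c5a777_ag.Sev
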