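import Pool.Agent.Work.MP_c5a777_ag.Sev.Fin
import Pool.Agent.Work.MP_c5a777_ag.Bdx.B01
import Pool.Agent.Work.MP_c5a777_ag.Bdx.B02
import Pool.Agent.Work.MP_c5a777_ag.Sev.I_Theta
import Pool.Agent.Work.MP_c5a777_ag.Sev.I_KRel
import Pool.Agent.Work.MP_c5a777_ag.Sev.I_KAut
import Pool.Agent.Work.MP_c5a777_ag.Bdx.B03
import Pool.Agent.Work.MP_c5a777_ag.Sev.I_Fourier
import Pool.Agent.Work.MP_c5a777_ag.Sev.I_GoodV
import Pool.Agent.Work.MP_c5a777_ag.Sev.I_Rat3

/-!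
# All the statements together
-/

namespace Pool.Agent.Work.MP_c5a777_ag.Sev

theorem al_PoleL : StPoleL := pr_PoleL pr_Pole
theorem al_CuspL : StCuspL := pr_CuspL pr_Cusp
theorem al_NormF : StNormF := pr_NormF pr_RelZ pr_Const
theorem al_Comp : StComp := pr_Comp pr_Const
theorem al_Ram : StRam := pr_Ram al_PoleL al_CuspL pr_Extend pr_Const
theorem al_Inert : StInert := pr_Inert pr_Pole pr_Int pr_Hom al_NormF al_Comp pr_RelZ
theorem al_Unram : StUnram := pr_Unram pr_Forms al_Ram al_Inert pr_RelZ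

theorem al_Theta : StTheta := pr_Theta pr_THom pr_TInd
theorem al_KRel : StKRel := pr_KRel pr_TRel
theorem al_KAut : StKAut := pr_KAut pr_THom pr_TInd pr_TRel
theorem al_KFrac : StKFrac := pr_KFrac pr_THom pr_TInd pr_TNF al_KRel pr_KInd
theorem al_KNorm : StKNorm := pr_KNorm pr_NoNorm al_Theta pr_THom pr_TInd pr_TFree al_KFrac
  pr_Val5 pr_TRel pr_Kf
theorem al_KTr : StKTr := pr_KTr pr_KInd
theorem al_KEmb : StKEmb := pr_KEmb pr_THom pr_TNF
theorem al_KSplit : StKSplit := pr_KSplit pr_Mat al_KAut al_KNorm pr_KInd pr_Kf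

theorem al_RelK : StRelK := pr_RelK pr_Corner
theorem al_Sq : StSq := pr_Sq pr_Corner al_RelK
theorem al_Ptk : StPtk := pr_Ptk pr_Corner al_Sq
theorem al_Der : StDer := pr_Der pr_Corner al_RelK al_Sq pr_Per
theorem al_Fourier : StFourier := pr_Fourier pr_Corner
theorem al_Step : StStep := pr_Step pr_Corner al_RelK pr_Per pr_Equi
theorem al_Nonsing : StNonsing := pr_Nonsing pr_Const
theorem al_Gen : StGen := pr_Gen pr_Const
theorem al_Data : StData := pr_Data pr_Good pr_XYA pr_Not7 pr_Adj pr_Rat3 al_Gen pr_RelZ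
  pr_Const
theorem al_Indep : StIndep := pr_Indep al_Step al_Fourier pr_Trdeg
theorem al_Deriv : StDeriv := pr_Deriv al_Indep pr_DerEx pr_DerAlg al_Der al_Sq pr_Per pr_Equi
  pr_Corner
theorem al_PointF : StPointF := pr_PointF al_Deriv al_Indep al_Ptk al_Der pr_Omega pr_PtMap
  al_Nonsing pr_Short pr_Equi pr_Per pr_RelZ
theorem al_Point : StPoint := pr_Point al_Data al_PointF

/-- The theorem on the prime seven. -/
theorem seven (ω : ℂ) (hω : IsPrimitiveRoot ω 7) :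
    ∃ (L : Type) (_ : Field L) (_ : Algebra ℂ L),
      (∃ s : Finset L, IntermediateField.adjoin ℂ (s : Set L) = ⊤) ∧
      Algebra.trdeg ℂ L = 3 ∧
      Nonempty (L →ₐ[ℂ] FractionRing (MvPolynomial (Fin 3) ℂ)) ∧
      ∃ a b : L, a ≠ 0 ∧ b ≠ 0 ∧
        (∀ A : ValuationSubring L, (∀ z : ℂ, algebraMap ℂ L z ∈ A) →
          IsDiscreteValuationRing A → TameSeventh A a b) ∧
        ¬ ∃ U V : Matrix (Fin 7) (Fin 7) L,
          U ^ 7 = Matrix.scalar (Fin 7) a ∧ V ^ 7 = Matrix.scalar (Fin 7) b ∧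
          V * U = algebraMap ℂ L ω • (U * V) :=
  seven_of al_Unram al_KSplit al_KRel pr_Kf pr_KFG al_KTr al_KEmb al_Point pr_KInd ω hω

end Pool.Agent.Work.MP_c5a777_ag.Sev
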