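import Pool.Agent.Work.MP_c5a777_ag.Sev.Coef

/-!
# The quartic in one bracket
-/

namespace Pool.Agent.Work.MP_c5a777_ag.Sev

section

variable {R : Type*} [CommRing R]

/-! ### The plane cubic in two brackets -/

/-- The coefficients of the cubic. -/
def f21 (A T2 T6 : R) : R := A - T2 - T6
def f12 (A T3 T6 : R) : R := A - T3 - T6
def f20 (A T2 T4 T5 : R) : R := -(T4 * (A - T2 - T5))
def f02 (A T0 T1 T3 T6 : R) : R := -(T0 * (A - T1 - T3 - T6)) - T1 * T6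
def f11 (A T0 T1 T2 T3 T4 T5 T6 : R) : R :=
  -A ^ 2 - A * T0 + A * T1 + A * T2 + A * T3 - A * T4 + A * T5 + A * T6 + T0 * T1 + T0 * T6 -
    T1 * T2 - 2 * T1 * T6 - T2 * T3 + T3 * T4 - 2 * T3 * T5 + T4 * T5 - T5 * T6
def f10 (A T0 T1 T2 T3 T4 T5 : R) : R :=
  A ^ 2 * T4 + A * T0 * T4 - A * T1 * T4 - A * T2 * T4 - A * T3 * T4 + A * T3 * T5 -
    2 * A * T4 * T5 - T0 * T1 * T4 - T0 * T4 * T5 + T1 * T2 * T4 + T1 * T4 * T5 + T2 * T3 * T4 -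
    T2 * T3 * T5 + T2 * T4 * T5 + T3 * T4 * T5 - T3 * T5 ^ 2 + T4 * T5 ^ 2
def f01 (A T0 T1 T3 T4 T5 T6 : R) : R :=
  A ^ 2 * T0 - 2 * A * T0 * T1 - A * T0 * T3 + A * T0 * T4 - A * T0 * T5 - A * T0 * T6 +
    A * T1 * T6 + T0 * T1 ^ 2 + T0 * T1 * T3 - T0 * T1 * T4 + T0 * T1 * T5 + T0 * T1 * T6 -
    T0 * T3 * T4 + 2 * T0 * T3 * T5 - T0 * T4 * T5 + T0 * T5 * T6 - T1 ^ 2 * T6 - T1 * T5 * T6
def f00 (A T0 T1 T3 T4 T5 : R) : R :=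
  -(T0 * (A - T1 - T5) * (T4 * (A - T1 - T5 - T3) + T3 * T5))

/-- The cubic. -/
def Fc (A T0 T1 T2 T3 T4 T5 T6 P Q : R) : R :=
  f21 A T2 T6 * P ^ 2 * Q + f12 A T3 T6 * P * Q ^ 2 + f20 A T2 T4 T5 * P ^ 2 +
    f11 A T0 T1 T2 T3 T4 T5 T6 * P * Q + f02 A T0 T1 T3 T6 * Q ^ 2 +
    f10 A T0 T1 T2 T3 T4 T5 * P + f01 A T0 T1 T3 T4 T5 T6 * Q + f00 A T0 T1 T3 T4 T5

/-- The derivatives of the cubic. -/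
def FcP (A T0 T1 T2 T3 T4 T5 T6 P Q : R) : R :=
  2 * (f21 A T2 T6 * Q + f20 A T2 T4 T5) * P + (f12 A T3 T6 * Q ^ 2 +
    f11 A T0 T1 T2 T3 T4 T5 T6 * Q + f10 A T0 T1 T2 T3 T4 T5)

def FcQ (A T0 T1 T2 T3 T4 T5 T6 P Q : R) : R :=
  2 * (f12 A T3 T6 * P + f02 A T0 T1 T3 T6) * Q + (f21 A T2 T6 * P ^ 2 +
    f11 A T0 T1 T2 T3 T4 T5 T6 * P + f01 A T0 T1 T3 T4 T5 T6)

/-! ### The quartic -/

def qb (h A t : R) : R := (2 - h ^ 2) * t + A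
def q3 (h A t w : R) : R :=
  (4 - 2 * h) * t ^ 3 + (-8 + 4 * h ^ 2) * t ^ 2 * A + (10 - 6 * h ^ 2) * t * w +
    (-6 + 2 * h + 4 * h ^ 2) * t * A ^ 2 + (24 - 2 * h - 12 * h ^ 2) * w * A - 2 * A ^ 3
def q2 (h A t w : R) : R :=
  (-9 - 3 * h + 6 * h ^ 2) * t ^ 4 + (-18 + 6 * h ^ 2) * t ^ 3 * A +
    (54 - 24 * h ^ 2) * t ^ 2 * w + (6 + 9 * h - 6 * h ^ 2) * t ^ 2 * A ^ 2 +
    (-18 + 6 * h + 12 * h ^ 2) * t * w * A + (6 - 6 * h - 6 * h ^ 2) * t * A ^ 3 +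
    (8 - 8 * h + 2 * h ^ 2) * w ^ 2 + (-24 - 8 * h + 24 * h ^ 2) * w * A ^ 2 + 2 * A ^ 4
def q1 (h A t w : R) : R :=
  (4 + 4 * h - 5 * h ^ 2) * t ^ 5 + (6 + 16 * h - 14 * h ^ 2) * t ^ 4 * A +
    (-39 - 27 * h + 39 * h ^ 2) * t ^ 3 * w + (10 - h - 3 * h ^ 2) * t ^ 3 * A ^ 2 +
    (-46 - 78 * h + 75 * h ^ 2) * t ^ 2 * w * A + (-2 - 7 * h) * t ^ 2 * A ^ 3 +
    (100 + 26 * h - 66 * h ^ 2) * t * w ^ 2 + (8 * h - 4 * h ^ 2) * t * w * A ^ 2 +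
    (-2 + 2 * h + 2 * h ^ 2) * t * A ^ 4 + (-32 + 88 * h - 36 * h ^ 2) * w ^ 2 * A +
    (8 + 12 * h - 8 * h ^ 2) * w * A ^ 3
def q0 (h A t w : R) : R :=
  (32 + 47 * h - 59 * h ^ 2) * t ^ 6 + (-14 - 38 * h + 38 * h ^ 2) * t ^ 5 * A +
    (-216 - 332 * h + 416 * h ^ 2) * t ^ 4 * w + (-16 - 28 * h + 33 * h ^ 2) * t ^ 4 * A ^ 2 +
    (96 + 348 * h - 324 * h ^ 2) * t ^ 3 * w * A + (-28 - 12 * h + 8 * h ^ 2) * t ^ 3 * A ^ 3 +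
    (356 + 680 * h - 828 * h ^ 2) * t ^ 2 * w ^ 2 +
    (208 + 160 * h - 272 * h ^ 2) * t ^ 2 * w * A ^ 2 + (8 + 4 * h) * t ^ 2 * A ^ 4 +
    (-256 - 752 * h + 720 * h ^ 2) * t * w ^ 2 * A + (16 + 48 * h) * t * w * A ^ 3 +
    (-448 * h + 448 * h ^ 2) * w ^ 3 + (-192 - 256 * h + 400 * h ^ 2) * w ^ 2 * A ^ 2

/-- Sixteen times the discriminant, as a quartic in `rho = [045] + [046]`. -/
def Gq (h A t w rho : R) : R :=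
  qb h A t ^ 2 * rho ^ 4 + 2 * q3 h A t w * rho ^ 3 + 2 * q2 h A t w * rho ^ 2 +
    4 * q1 h A t w * rho + q0 h A t w

/-- The invariants of the quartic. -/
def II (h A w S : R) : R :=
  A ^ 8 + 28 * h * A ^ 6 * w + (-280 - 56 * h + 294 * h ^ 2) * A ^ 4 * w ^ 2 +
    (3052 - 168 * h - 1820 * h ^ 2) * A ^ 2 * w ^ 3 + (7 - 49 * h + 35 * h ^ 2) * w ^ 4 +
    (-96 - 336 * h + 336 * h ^ 2) * A * S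
def JJ (h A w S : R) : R :=
  -2 * A ^ 12 - 84 * h * A ^ 10 * w + (840 + 168 * h - 1470 * h ^ 2) * A ^ 8 * w ^ 2 +
    (-18760 - 6944 * h + 17416 * h ^ 2) * A ^ 6 * w ^ 3 +
    (81438 + 24990 * h - 72618 * h ^ 2) * A ^ 4 * w ^ 4 +
    (-256956 + 99372 * h + 84672 * h ^ 2) * A ^ 2 * w ^ 5 +
    (392 + 1274 * h - 1274 * h ^ 2) * w ^ 6 +
    ((2016 + 1008 * h - 1008 * h ^ 2) * A ^ 5 + (10080 - 12096 * h + 4032 * h ^ 2) * A ^ 3 * w +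
      (2016 - 29232 * h + 22176 * h ^ 2) * A * w ^ 2) * S

end

section

variable {R : Type*} [CommRing R]

theorem inv_I (h A t w : R) (hh : Rel h) :
    12 * qb h A t ^ 2 * q0 h A t w - 3 * (2 * q3 h A t w) * (4 * q1 h A t w) +
      (2 * q2 h A t w) ^ 2 =
    16 * II h A w (t ^ 7 - 7 * w * t ^ 5 + 14 * w ^ 2 * t ^ 3 - 7 * w ^ 3 * t) := by
  unfold Rel at hh
  unfold qb q0 q3 q1 q2 II
  linear_combination (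
    96*h^3*A^3*t^5 + 396*h^3*A^2*t^6 - 3264*h^3*A^2*t^4*w + 4800*h^3*A^2*t^2*w^2 + 456*h^3*A*t^7 -
    3888*h^3*A*t^5*w + 8640*h^3*A*t^3*w^2 - 708*h^3*t^8 + 4992*h^3*t^6*w - 9936*h^3*t^4*w^2 +
    5376*h^3*t^2*w^3 + 48*h^2*A^4*t^4 - 240*h^2*A^3*t^5 + 576*h^2*A^3*t^3*w - 732*h^2*A^2*t^6 +
    5184*h^2*A^2*t^4*w - 7872*h^2*A^2*t^2*w^2 - 912*h^2*A*t^7 + 8064*h^2*A*t^5*w -
    17664*h^2*A*t^3*w^2 + 1272*h^2*t^8 - 8976*h^2*t^6*w + 18096*h^2*t^4*w^2 - 10752*h^2*t^2*w^3 -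
    48*h*A^6*t^2 + 96*h*A^5*t^3 + 192*h*A^5*t*w - 288*h*A^4*t^2*w - 24*h*A^3*t^5 + 192*h*A^3*t^3*w -
    6240*h*A^3*t*w^2 + 516*h*A^2*t^6 - 912*h*A^2*t^4*w + 5376*h*A^2*t^2*w^2 - 9984*h*A^2*w^3 +
    2016*h*A*t^7 - 16896*h*A*t^5*w + 43344*h*A*t^3*w^2 - 34752*h*A*t*w^3 + 672*h*t^8 - 5472*h*t^6*w
    + 14064*h*t^4*w^2 - 9888*h*t^2*w^3 + 16*h*w^4 + 48*A^6*t^2 + 144*A^5*t^3 - 1056*A^5*t*w +
    480*A^4*t^4 - 3072*A^4*t^2*w + 1536*A^4*w^2 + 408*A^3*t^5 - 2544*A^3*t^3*w + 10176*A^3*t*w^2 -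
    576*A^2*t^6 + 1392*A^2*t^4*w - 8832*A^2*t^2*w^2 + 31936*A^2*w^3 - 3888*A*t^7 + 29808*A*t^5*w -
    73152*A*t^3*w^2 + 61824*A*t*w^3 - 1476*t^8 + 11472*t^6*w - 27936*t^4*w^2 + 20544*t^2*w^3 -
    144*w^4) * hh

theorem inv_J (h A t w : R) (hh : Rel h) :
    72 * qb h A t ^ 2 * (2 * q2 h A t w) * q0 h A t w +
      9 * (2 * q3 h A t w) * (2 * q2 h A t w) * (4 * q1 h A t w) -
      27 * qb h A t ^ 2 * (4 * q1 h A t w) ^ 2 - 27 * q0 h A t w * (2 * q3 h A t w) ^ 2 -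
      2 * (2 * q2 h A t w) ^ 3 =
    64 * JJ h A w (t ^ 7 - 7 * w * t ^ 5 + 14 * w ^ 2 * t ^ 3 - 7 * w ^ 3 * t) := by
  unfold Rel at hh
  unfold qb q0 q3 q1 q2 JJ
  linear_combination (
    -1728*h^5*A^8*t^4 + 13824*h^5*A^7*t^3*w - 1728*h^5*A^6*t^6 + 6912*h^5*A^6*t^4*w -
    27648*h^5*A^6*t^2*w^2 - 11232*h^5*A^5*t^7 + 112320*h^5*A^5*t^5*w - 311040*h^5*A^5*t^3*w^2 -
    49680*h^5*A^4*t^8 + 468288*h^5*A^4*t^6*w - 1282176*h^5*A^4*t^4*w^2 + 1133568*h^5*A^4*t^2*w^3 +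
    17280*h^5*A^3*t^9 - 42336*h^5*A^3*t^7*w - 713088*h^5*A^3*t^5*w^2 + 2211840*h^5*A^3*t^3*w^3 +
    14688*h^5*A^2*t^10 - 135648*h^5*A^2*t^8*w + 608688*h^5*A^2*t^6*w^2 - 1360512*h^5*A^2*t^4*w^3 +
    1103616*h^5*A^2*t^2*w^4 - 78624*h^5*A*t^11 + 641952*h^5*A*t^9*w - 1724832*h^5*A*t^7*w^2 +
    1864512*h^5*A*t^5*w^3 - 1071360*h^5*A*t^3*w^4 - 61776*h^5*t^12 + 731808*h^5*t^10*w -
    3112272*h^5*t^8*w^2 + 5592384*h^5*t^6*w^3 - 3668544*h^5*t^4*w^4 + 129024*h^5*t^2*w^5 -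
    1728*h^4*A^8*t^4 + 8640*h^4*A^7*t^5 - 20736*h^4*A^7*t^3*w + 8640*h^4*A^6*t^6 -
    89856*h^4*A^6*t^4*w + 110592*h^4*A^6*t^2*w^2 + 9504*h^4*A^5*t^7 - 95616*h^4*A^5*t^5*w +
    359424*h^4*A^5*t^3*w^2 + 24192*h^4*A^4*t^8 - 394848*h^4*A^4*t^6*w + 1562112*h^4*A^4*t^4*w^2 -
    1497600*h^4*A^4*t^2*w^3 + 36288*h^4*A^3*t^9 - 394560*h^4*A^3*t^7*w + 2060352*h^4*A^3*t^5*w^2 -
    4306176*h^4*A^3*t^3*w^3 - 3456*h^4*A^2*t^10 - 155808*h^4*A^2*t^8*w + 1046736*h^4*A^2*t^6*w^2 -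
    1383552*h^4*A^2*t^4*w^3 - 965376*h^4*A^2*t^2*w^4 + 187488*h^4*A*t^11 - 1788480*h^4*A*t^9*w +
    5989248*h^4*A*t^7*w^2 - 8657280*h^4*A*t^5*w^3 + 5465088*h^4*A*t^3*w^4 + 145152*h^4*t^12 -
    1612224*h^4*t^10*w + 6536592*h^4*t^8*w^2 - 11513664*h^4*t^6*w^3 + 7849152*h^4*t^4*w^4 -
    774144*h^4*t^2*w^5 + 3456*h^3*A^8*t^4 + 6912*h^3*A^8*t^2*w - 1152*h^3*A^7*t^5 -
    31104*h^3*A^7*t^3*w - 55296*h^3*A^7*t*w^2 - 4752*h^3*A^6*t^6 + 44928*h^3*A^6*t^4*w -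
    31104*h^3*A^6*t^2*w^2 + 110592*h^3*A^6*w^3 + 45504*h^3*A^5*t^7 - 249984*h^3*A^5*t^5*w +
    116352*h^3*A^5*t^3*w^2 + 1186560*h^3*A^5*t*w^3 + 91440*h^3*A^4*t^8 - 610848*h^3*A^4*t^6*w -
    125568*h^3*A^4*t^4*w^2 + 3867264*h^3*A^4*t^2*w^3 - 4755456*h^3*A^4*w^4 - 127872*h^3*A^3*t^9 +
    1060416*h^3*A^3*t^7*w - 2536992*h^3*A^3*t^5*w^2 + 5505408*h^3*A^3*t^3*w^3 -
    10818432*h^3*A^3*t*w^4 - 3456*h^3*A^2*t^10 + 171648*h^3*A^2*t^8*w - 1543968*h^3*A^2*t^6*w^2 +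
    2422080*h^3*A^2*t^4*w^3 + 4665600*h^3*A^2*t^2*w^4 - 6847488*h^3*A^2*w^5 + 220320*h^3*A*t^11 -
    1657152*h^3*A*t^9*w + 4640544*h^3*A*t^7*w^2 - 8604864*h^3*A*t^5*w^3 + 12711744*h^3*A*t^3*w^4 -
    6937344*h^3*A*t*w^5 + 69120*h^3*t^12 - 1145664*h^3*t^10*w + 5966928*h^3*t^8*w^2 -
    12123648*h^3*t^6*w^3 + 8474112*h^3*t^4*w^4 - 74880*h^3*t^2*w^5 - 128*h^3*w^6 + 1152*h^2*A^8*t^4
    + 14976*h^2*A^8*t^2*w - 9216*h^2*A^7*t^5 - 5760*h^2*A^7*t^3*w + 50688*h^2*A^7*t*w^2 +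
    17424*h^2*A^6*t^6 - 117504*h^2*A^6*t^4*w + 359424*h^2*A^6*t^2*w^2 - 442368*h^2*A^6*w^3 -
    18432*h^2*A^5*t^7 + 202752*h^2*A^5*t^5*w - 598464*h^2*A^5*t^3*w^2 - 256896*h^2*A^5*t*w^3 -
    6624*h^2*A^4*t^8 + 276768*h^2*A^4*t^6*w - 1143360*h^2*A^4*t^4*w^2 - 11520*h^2*A^4*t^2*w^3 +
    2875392*h^2*A^4*w^4 + 77760*h^2*A^3*t^9 - 864000*h^2*A^3*t^7*w + 2752416*h^2*A^3*t^5*w^2 -
    6153408*h^2*A^3*t^3*w^3 + 15259392*h^2*A^3*t*w^4 - 152064*h^2*A^2*t^10 + 1822464*h^2*A^2*t^8*w -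
    6831792*h^2*A^2*t^6*w^2 + 9859392*h^2*A^2*t^4*w^3 - 8027136*h^2*A^2*t^2*w^4 +
    10749696*h^2*A^2*w^5 - 705024*h^2*A*t^11 + 6602688*h^2*A*t^9*w - 23124384*h^2*A*t^7*w^2 +
    41134464*h^2*A*t^5*w^3 - 41280768*h^2*A*t^3*w^4 + 12685824*h^2*A*t*w^5 - 248832*h^2*t^12 +
    3267648*h^2*t^10*w - 15098256*h^2*t^8*w^2 + 29244096*h^2*t^6*w^3 - 21204288*h^2*t^4*w^4 +
    1923840*h^2*t^2*w^5 + 1664*h^2*w^6 + 576*h*A^10*t^2 - 1152*h*A^9*t^3 - 2304*h*A^9*t*w +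
    6912*h*A^8*t^4 - 32256*h*A^8*t^2*w + 22752*h*A^7*t^5 - 171648*h*A^7*t^3*w + 473472*h*A^7*t*w^2 +
    18000*h*A^6*t^6 - 207936*h*A^6*t^4*w + 784512*h*A^6*t^2*w^2 - 580608*h*A^6*w^3 - 43200*h*A^5*t^7
    - 247680*h*A^5*t^5*w + 2605248*h*A^5*t^3*w^2 - 4974336*h*A^5*t*w^3 + 131472*h*A^4*t^8 -
    1536192*h*A^4*t^6*w + 9108864*h*A^4*t^4*w^2 - 21036672*h*A^4*t^2*w^3 + 12716160*h*A^4*w^4 +
    95040*h*A^3*t^9 - 1041120*h*A^3*t^7*w + 4651776*h*A^3*t^5*w^2 - 15026688*h*A^3*t^3*w^3 +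
    18160128*h*A^3*t*w^4 + 61344*h*A^2*t^10 - 713664*h*A^2*t^8*w + 2380896*h*A^2*t^6*w^2 +
    1164672*h*A^2*t^4*w^3 - 12773376*h*A^2*t^2*w^4 + 7006464*h*A^2*w^5 + 162432*h*A*t^11 -
    1780704*h*A*t^9*w + 6681600*h*A*t^7*w^2 - 11199744*h*A*t^5*w^3 + 10771200*h*A*t^3*w^4 -
    331776*h*A*t*w^5 - 130032*h*t^12 + 1270944*h*t^10*w - 4437360*h*t^8*w^2 + 6552000*h*t^6*w^3 -
    3339648*h*t^4*w^4 - 281088*h*t^2*w^5 - 9600*h*w^6 - 576*A^10*t^2 - 1728*A^9*t^3 + 12672*A^9*t*w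
    + 1152*A^8*t^4 + 9216*A^8*t^2*w - 18432*A^8*w^2 - 23904*A^7*t^5 + 192960*A^7*t^3*w -
    453888*A^7*t*w^2 - 55296*A^6*t^6 + 626112*A^6*t^4*w - 1740096*A^6*t^2*w^2 + 771584*A^6*w^3 -
    68256*A^5*t^7 + 893376*A^5*t^5*w - 3932928*A^5*t^3*w^2 + 5750784*A^5*t*w^3 - 228960*A^4*t^8 +
    2233152*A^4*t^6*w - 9475200*A^4*t^4*w^2 + 19137024*A^4*t^2*w^3 - 8790144*A^4*w^4 -
    169344*A^3*t^9 + 1879776*A^3*t^7*w - 8235072*A^3*t^5*w^2 + 21004416*A^3*t^3*w^3 -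
    24744960*A^3*t*w^4 + 184032*A^2*t^10 - 1972512*A^2*t^8*w + 7821360*A^2*t^6*w^2 -
    16057728*A^2*t^4*w^3 + 19120896*A^2*t^2*w^4 - 15634176*A^2*w^5 + 251424*A*t^11 - 2484000*A*t^9*w
    + 9237024*A*t^7*w^2 - 16058304*A*t^5*w^3 + 11549952*A*t^3*w^4 - 3354624*A*t*w^5 + 257904*t^12 -
    2815776*t^10*w + 11189664*t^8*w^2 - 19315008*t^6*w^3 + 12788928*t^4*w^4 - 986112*t^2*w^5 +
    33280*w^6) * hh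

/-- A point of a quartic with square leading coefficient gives a point of the Weierstrass
model of its invariants. -/
theorem quartic_point (b s q3 q2 q1 q0 r : R)
    (hs : s ^ 2 = b ^ 2 * r ^ 4 + q3 * r ^ 3 + q2 * r ^ 2 + q1 * r + q0) :
    (27 * ((4 * b ^ 2 * r + q3) * s - b * (4 * b ^ 2 * r ^ 3 + 3 * q3 * r ^ 2 + 2 * q2 * r +
      q1))) ^ 2 =
    (18 * b ^ 2 * r ^ 2 - 18 * b * s + 9 * q3 * r + 3 * q2) ^ 3 -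
      27 * (12 * b ^ 2 * q0 - 3 * q3 * q1 + q2 ^ 2) *
        (18 * b ^ 2 * r ^ 2 - 18 * b * s + 9 * q3 * r + 3 * q2) -
      27 * (72 * b ^ 2 * q2 * q0 + 9 * q3 * q2 * q1 - 27 * b ^ 2 * q1 ^ 2 - 27 * q0 * q3 ^ 2 -
        2 * q2 ^ 3) := by
  linear_combination (-5832 * b ^ 4 * r ^ 2 + 5832 * b ^ 3 * s - 2916 * b ^ 2 * q3 * r -
    2916 * b ^ 2 * q2 + 729 * q3 ^ 2) * hs

end

end Pool.Agent.Work.MP_c5a777_ag.Sev
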